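import Pool.Agent.Helper415_WM.CapB
import Pool.Agent.H248.BH.M2
import Pool.Agent.H248.BH.X0
import Pool.Agent.H248.ID.J20

/-! # Distortion of the normal neighbourhoods -/

set_option autoImplicit false
open MeasureTheory Metric Set Filter Topology
open scoped ENNReal NNReal ContDiff

namespace Helper415.WM

open H248.ID H248.BH

theorem en_add_le {n : ℕ} (x y : E n) : en (x + y) ≤ en x + en y := by
  unfold en
  have : toY (x + y) = toY x + toY y := rfl
  rw [this]; exact norm_add_le _ _

theorem en_neg {n : ℕ} (x : E n) : en (-x) = en x := by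
  unfold en
  have : toY (-x) = - toY x := rfl
  rw [this]; exact norm_neg _

theorem en_sub_comm {n : ℕ} (x y : E n) : en (x - y) = en (y - x) := by
  rw [← en_neg (y - x), neg_sub]

theorem en_sub_le {n : ℕ} (x y z : E n) : en (x - z) ≤ en (x - y) + en (y - z) := by
  have : x - z = (x - y) + (y - z) := by abel
  rw [this]; exact en_add_le _ _

theorem en_smul {n : ℕ} (c : ℝ) (x : E n) : en (c • x) = |c| * en x := by
  unfold en
  have : toY (c • x) = c • toY x := rfl
  rw [this, norm_smul, Real.norm_eq_abs]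

theorem en_single {n : ℕ} (j : Fin n) : en (Pi.single j (1 : ℝ) : E n) = 1 := by
  have h : en (Pi.single j (1 : ℝ) : E n) ^ 2 = 1 := by
    rw [en_sq, Finset.sum_eq_single j]
    · simp
    · intro b _ hb; simp [hb]
    · intro h; exact absurd (Finset.mem_univ j) h
  have h2 := en_nonneg (Pi.single j (1 : ℝ) : E n)
  nlinarith

theorem abs_le_en {n : ℕ} (x : E n) (i : Fin n) : |x i| ≤ en x :=
  ((Real.norm_eq_abs _) ▸ norm_le_pi_norm x i : |x i| ≤ ‖x‖).trans (norm_le_en x)

/-- the outer dilatation is controlled by the inner dilatation -/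
theorem sn_cube_le : ∃ C : ℝ, 0 < C ∧ ∀ (M : Matrix (Fin 3) (Fin 3) ℝ) (K : ℝ), 0 ≤ K → 0 ≤ M.det →
    (M.det = 0 → M = 0) →
    (∀ w : E 3, en (M.adjugate.transpose.mulVec w) ^ 3 ≤ K * M.det ^ (3 - 1) * en w ^ 3) →
    sn M ^ 3 ≤ C * (K ^ 2 * M.det) := by
  obtain ⟨C, hC, h⟩ := sn_mul_det_le (n := 3) (by norm_num)
  refine ⟨C ^ 3 * 729 ^ 2, by positivity, fun M K hK h0 h1 h2 => ?_⟩
  rcases h0.eq_or_lt with hd | hd
  · rw [h1 hd.symm]
    simp [sn]
  · have h3 := h M
    simp only [show 3 - 2 = 1 from rfl, show 3 - 1 = 2 from rfl, pow_one, abs_of_pos hd] at h3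
    set d := M.det with hdd
    have hent : ∀ i j, |M.adjugate i j| ^ 3 ≤ K * d ^ 2 := by
      intro i j
      have h4 := h2 (Pi.single i 1)
      rw [en_single] at h4
      have h5 : M.adjugate i j = (M.adjugate.transpose.mulVec (Pi.single i 1)) j := by
        simp [Matrix.mulVec, Matrix.transpose_apply]
      have h6 : |M.adjugate i j| ≤ en (M.adjugate.transpose.mulVec (Pi.single i 1)) := by
        rw [h5]; exact abs_le_en _ _
      calc |M.adjugate i j| ^ 3 ≤ en (M.adjugate.transpose.mulVec (Pi.single i 1)) ^ 3 :=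
            pow_le_pow_left₀ (abs_nonneg _) h6 3
        _ ≤ _ := h4
        _ = K * d ^ 2 := by norm_num
    obtain ⟨q, hq0, hq⟩ : ∃ q : ℝ, 0 ≤ q ∧ q ^ 3 = K * d ^ 2 := by
      refine ⟨(K * d ^ 2) ^ ((3 : ℕ) : ℝ)⁻¹, Real.rpow_nonneg (by positivity) _, ?_⟩
      exact Real.rpow_inv_natCast_pow (by positivity) (by norm_num)
    have hsn : sn M.adjugate ≤ 9 * q := by
      have h7 : ∀ i j, |M.adjugate i j| ≤ q := fun i j => by
        have := hent i j
        rw [← hq] at this
        exact le_of_pow_le_pow_left₀ (by norm_num) hq0 this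
      unfold sn
      calc ∑ i, ∑ j, |M.adjugate i j| ≤ ∑ _i : Fin 3, ∑ _j : Fin 3, q :=
            Finset.sum_le_sum fun i _ => Finset.sum_le_sum fun j _ => h7 i j
        _ = 9 * q := by simp; ring
    have hsn0 : 0 ≤ sn M.adjugate := X1.X1_sn_nonneg _
    have hM0 : 0 ≤ sn M := X1.X1_sn_nonneg _
    have h8 : sn M * d ≤ C * (9 * q) ^ 2 :=
      h3.trans (mul_le_mul_of_nonneg_left (pow_le_pow_left₀ hsn0 hsn 2) hC.le)
    have h9 := pow_le_pow_left₀ (by positivity) h8 3
    have h10 : (C * (9 * q) ^ 2) ^ 3 = (C ^ 3 * 729 ^ 2 * (K ^ 2 * d)) * d ^ 3 := by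
      have : (C * (9 * q) ^ 2) ^ 3 = C ^ 3 * 729 ^ 2 * (q ^ 3) ^ 2 := by ring
      rw [this, hq]; ring
    rw [h10, mul_pow] at h9
    exact le_of_mul_le_mul_right h9 (by positivity)

theorem mulVec_le {n : ℕ} (M : Matrix (Fin n) (Fin n) ℝ) (h : E n) (i : Fin n) :
    |M.mulVec h i| ≤ sn M * en h := by
  calc |M.mulVec h i| = |∑ j, M i j * h j| := rfl
    _ ≤ ∑ j, |M i j * h j| := Finset.abs_sum_le_sum_abs _ _
    _ = ∑ j, |M i j| * |h j| := by simp only [abs_mul]
    _ ≤ ∑ j, |M i j| * en h := Finset.sum_le_sum fun j _ =>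
        mul_le_mul_of_nonneg_left (abs_le_en h j) (abs_nonneg _)
    _ = (∑ j, |M i j|) * en h := by rw [Finset.sum_mul]
    _ ≤ sn M * en h := by
        refine mul_le_mul_of_nonneg_right ?_ (en_nonneg _)
        unfold sn
        exact Finset.single_le_sum (f := fun i => ∑ j, |M i j|)
          (fun _ _ => Finset.sum_nonneg fun _ _ => abs_nonneg _) (Finset.mem_univ i)

/-- bound for the cut-off profile -/
theorem exists_C0 : ∃ C : ℝ, 0 < C ∧ ∀ s : ℝ, |deriv Real.smoothTransition s| ≤ C := by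
  have h1 : Continuous (deriv Real.smoothTransition) :=
    (Real.smoothTransition.contDiff (n := 1)).continuous_deriv (by simp)
  have h2 : HasCompactSupport (deriv Real.smoothTransition) := by
    refine HasCompactSupport.intro (isCompact_Icc (a := (0:ℝ)) (b := 1)) fun x hx => ?_
    rcases lt_or_ge x 0 with h | h
    · have e : Real.smoothTransition =ᶠ[𝓝 x] fun _ => 0 := by
        filter_upwards [gt_mem_nhds h] with s hs using Real.smoothTransition.zero_of_nonpos hs.le
      rw [e.deriv_eq]; simp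
    · have h3 : 1 < x := by
        by_contra hh
        exact hx ⟨h, not_lt.1 hh⟩
      have e : Real.smoothTransition =ᶠ[𝓝 x] fun _ => 1 := by
        filter_upwards [lt_mem_nhds h3] with s hs using Real.smoothTransition.one_of_one_le hs.le
      rw [e.deriv_eq]; simp
  obtain ⟨C, hC⟩ := h2.exists_bound_of_continuous h1
  exact ⟨max C 1, by positivity, fun s => (by simpa using hC s : _ ≤ C).trans (le_max_left _ _)⟩

/-- cut-off profile between the levels `a` and `2a` -/
noncomputable def cg (a r : ℝ) : ℝ := Real.smoothTransition (r / a - 1)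

theorem cg_contDiff (a : ℝ) : ContDiff ℝ 1 (cg a) :=
  Real.smoothTransition.contDiff.comp ((contDiff_id.div_const _).sub contDiff_const)

theorem cg_zero {a r : ℝ} (ha : 0 < a) (hr : r ≤ a) : cg a r = 0 := by
  unfold cg
  apply Real.smoothTransition.zero_of_nonpos
  have : r / a ≤ 1 := by rw [div_le_one ha]; exact hr
  linarith

theorem cg_one {a r : ℝ} (ha : 0 < a) (hr : 2 * a ≤ r) : cg a r = 1 := by
  unfold cg
  apply Real.smoothTransition.one_of_one_le
  have : 2 ≤ r / a := by rw [le_div_iff₀ ha]; exact hr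
  linarith

theorem cg_deriv {a C0 : ℝ} (ha : 0 < a) (hC0 : ∀ s : ℝ, |deriv Real.smoothTransition s| ≤ C0) (r : ℝ) :
    |deriv (cg a) r| ≤ C0 / a := by
  have h1 : HasDerivAt (fun r : ℝ => r / a - 1) (1 / a) r :=
    ((hasDerivAt_id r).div_const a).sub_const 1
  have h2 : HasDerivAt Real.smoothTransition (deriv Real.smoothTransition (r / a - 1)) (r / a - 1) :=
    ((Real.smoothTransition.contDiff (n := 1)).differentiable (by simp) _).hasDerivAt
  have h3 := h2.comp r h1
  have h4 : deriv (cg a) r = deriv Real.smoothTransition (r / a - 1) * (1 / a) := h3.deriv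
  rw [h4, abs_mul, abs_of_pos (by positivity : 0 < 1 / a)]
  calc _ ≤ C0 * (1 / a) := mul_le_mul_of_nonneg_right (hC0 _) (by positivity)
    _ = C0 / a := by ring

theorem cg_deriv_out {a r : ℝ} (ha : 0 < a) (hr : r ∉ Icc a (2 * a)) : deriv (cg a) r = 0 := by
  rcases lt_or_ge r a with h | h
  · have e : cg a =ᶠ[𝓝 r] fun _ => 0 := by
      filter_upwards [gt_mem_nhds h] with s hs using cg_zero ha hs.le
    rw [e.deriv_eq]; simp
  · have h3 : 2 * a < r := by
      by_contra hh
      exact hr ⟨h, not_lt.1 hh⟩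
    have e : cg a =ᶠ[𝓝 r] fun _ => 1 := by
      filter_upwards [lt_mem_nhds h3] with s hs using cg_one ha hs.le
    rw [e.deriv_eq]; simp

end Helper415.WM
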