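import Pool.Agent.Helper415_WM.CapA

/-! # Distortion of the normal neighbourhoods, part 2 -/

set_option autoImplicit false
open MeasureTheory Metric Set Filter Topology
open scoped ENNReal NNReal ContDiff

namespace Helper415.WM

open H248.ID H248.BH

theorem en_le_norm {n : ℕ} (x : E n) : en x ≤ n * ‖x‖ := by
  have h1 : en x ^ 2 ≤ (n * ‖x‖) ^ 2 := by
    rw [en_sq]
    calc ∑ i, x i ^ 2 ≤ ∑ _i : Fin n, ‖x‖ ^ 2 := Finset.sum_le_sum fun i _ => by
          rw [← sq_abs (x i)]
          exact pow_le_pow_left₀ (abs_nonneg _) (norm_le_pi_norm x i) 2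
      _ = n * ‖x‖ ^ 2 := by simp
      _ ≤ (n * ‖x‖) ^ 2 := by
          rw [mul_pow]
          refine mul_le_mul_of_nonneg_right ?_ (by positivity)
          have : (n : ℝ) ≤ (n : ℝ) ^ 2 := by
            exact_mod_cast Nat.le_self_pow (by norm_num) n
          exact this
  exact (pow_le_pow_iff_left₀ (en_nonneg _) (by positivity) (by norm_num)).1 h1

theorem fderiv_comp_bound {G : E 3 → ℝ} {F : E 3 → E 3} (hG : ContDiff ℝ 1 G)
    (hF : ContDiff ℝ ∞ F) {x : E 3} {b : ℝ} (hb : ∀ j, |pd G j (F x)| ≤ b) (h : E 3) :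
    |fderiv ℝ (G ∘ F) x h| ≤ b * (3 * sn (jac F x)) * en h := by
  have hb0 : 0 ≤ b := (abs_nonneg _).trans (hb 0)
  have hFd : DifferentiableAt ℝ F x := (hF.differentiable (by simp)) x
  have hGd : DifferentiableAt ℝ G (F x) := (hG.differentiable (by simp)) _
  rw [fderiv_comp x hGd hFd, ContinuousLinearMap.comp_apply, fderiv_apply_eq]
  have hcomp : ∀ i, fderiv ℝ F x h i = (jac F x).mulVec h i := by
    intro i
    have h1 : fderiv ℝ F x h i = fderiv ℝ (fun y => F y i) x h := by
      rw [fderiv_apply hFd i]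
      rfl
    rw [h1, fderiv_apply_eq]
    simp only [Matrix.mulVec, dotProduct, jac, Matrix.of_apply]
    exact Finset.sum_congr rfl fun j _ => mul_comm _ _
  calc |∑ j, fderiv ℝ F x h j * pd G j (F x)| ≤ ∑ j, |fderiv ℝ F x h j * pd G j (F x)| :=
        Finset.abs_sum_le_sum_abs _ _
    _ ≤ ∑ _j : Fin 3, (sn (jac F x) * en h) * b := by
        refine Finset.sum_le_sum fun j _ => ?_
        rw [abs_mul, hcomp]
        exact mul_le_mul (mulVec_le _ _ _) (hb j) (abs_nonneg _)
          (mul_nonneg (X1.X1_sn_nonneg _) (en_nonneg _))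
    _ = b * (3 * sn (jac F x)) * en h := by simp; ring

theorem rf_pd_abs {g : ℝ → ℝ} (hg : ContDiff ℝ 1 g) {r0 : ℝ} (hr0 : 0 < r0)
    (hc : ∀ r ≤ r0, g r = g 0) {n : ℕ} (p : E n) (j : Fin n) (x : E n) :
    |pd (rf g p) j x| ≤ |deriv g (en (x - p))| := by
  rw [rf_pd hg hr0 hc, abs_div, abs_mul, abs_of_nonneg (en_nonneg (x - p))]
  have h1 : |x j - p j| ≤ en (x - p) := abs_le_en (x - p) j
  rcases (en_nonneg (x - p)).eq_or_lt with h | h
  · rw [← h]; simp
  · rw [div_le_iff₀ h]
    exact mul_le_mul_of_nonneg_left h1 (abs_nonneg _)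

theorem Av_nonneg {n : ℕ} (hn : 1 ≤ n) {h : Y n → ℝ} (h0 : ∀ y, 0 ≤ h y) (s : ℝ) : 0 ≤ Av h s :=
  mul_nonneg (inv_nonneg.2 (om_pos hn).le) (integral_nonneg fun _ => h0 _)

/-- crossing spheres costs energy -/
theorem capA : ∃ c : ℝ, 0 < c ∧ ∀ {U : Set (E 3)} {f : E 3 → E 3}
    {Df : E 3 → Matrix (Fin 3) (Fin 3) ℝ} {K : ℝ}, QR U f Df K → 0 ≤ K → ∀ {ys : E 3} {R : ℝ},
    IsCompact (pre U f ys R) → ∀ {d : ℝ}, MultF U f Df ys R d → ∀ {p y0 : E 3} {a l L : ℝ},
    0 < a → 0 < l → l < L → {x | en (x - p) ≤ L} ⊆ U →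
    (∀ z, en (z - y0) ≤ 2 * a → z ∈ closedBall ys R) →
    (∀ t, l < t → t < L → ∃ x1 x2, en (x1 - p) = t ∧ en (x2 - p) = t ∧ en (f x1 - y0) ≤ a ∧
      2 * a ≤ en (f x2 - y0)) →
    c * Real.log (L / l) ≤ K ^ 2 * d := by
  obtain ⟨C1, hC1, hMor⟩ := sphere_morrey (n := 3) (by norm_num)
  obtain ⟨C0, hC0, hS⟩ := exists_C0
  obtain ⟨Cs, hCs, hsn⟩ := sn_cube_le
  have hom : 0 < om 3 := om_pos (by norm_num)
  refine ⟨om 3 / (64 * C1 * (27 * 64 * C0 ^ 3 * Cs)), by positivity, ?_⟩
  intro U f Df K H hK ys R hC d hM p y0 a l L ha hl hlL hBU hy0 hcross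
  set B : Set (E 3) := {x | en (x - p) ≤ L} with hBdef
  have henc : Continuous fun x : E 3 => en (x - p) := en_cont.comp (continuous_id.sub continuous_const)
  have henc0 : Continuous fun x : E 3 => en (x - y0) :=
    en_cont.comp (continuous_id.sub continuous_const)
  have hBclosed : IsClosed B := isClosed_le henc continuous_const
  have hBsub : B ⊆ closedBall p L := by
    intro x hx
    rw [mem_closedBall, dist_eq_norm]
    exact (norm_le_en _).trans hx
  have hBc : IsCompact B := (isCompact_closedBall p L).of_isClosed_subset hBclosed hBsub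
  have hBm : MeasurableSet B := hBclosed.measurableSet
  obtain ⟨F, hF, hFu, hFj, Φ, hΦ, hFΦ⟩ := mollify_on (by norm_num) H hBc hBU
  set G : E 3 → ℝ := rf (cg a) y0 with hG
  have hcgc : ∀ r ≤ a, cg a r = cg a 0 := fun r hr => by rw [cg_zero ha hr, cg_zero ha ha.le]
  have hGd : ContDiff ℝ 1 G := rf_contDiff (cg_contDiff a) ha hcgc y0
  have hcgdc : Continuous (deriv (cg a)) := (cg_contDiff a).continuous_deriv (by simp)
  -- the majorants
  let Tt : ℕ → E 3 → ℝ := fun k x => |deriv (cg a) (en (F k x - y0))| * (3 * sn (jac (F k) x))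
  let Ti : E 3 → ℝ := fun x => |deriv (cg a) (en (f x - y0))| * (3 * sn (Df x))
  have hjc : ∀ k, Continuous (jac (F k)) := fun k => continuous_jac ((hF k).of_le (by simp))
  have hTtc : ∀ k, Continuous (Tt k) := by
    intro k
    refine ((hcgdc.comp (henc0.comp (hF k).continuous)).abs).mul (continuous_const.mul ?_)
    exact continuous_sn.comp (hjc k)
  have hTt0 : ∀ k x, 0 ≤ Tt k x := fun k x =>
    mul_nonneg (abs_nonneg _) (mul_nonneg (by norm_num) (X1.X1_sn_nonneg _))
  -- parametrization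
  let A : Y 3 → E 3 := fun y => p + WithLp.ofLp y
  have hAd : ContDiff ℝ 1 A := by
    have h1 : ContDiff ℝ 1 (fun y : Y 3 => (WithLp.ofLp y : E 3)) :=
      (EuclideanSpace.equiv (Fin 3) ℝ : Y 3 →L[ℝ] E 3).contDiff
    exact contDiff_const.add h1
  have hAc : Continuous A := hAd.continuous
  have hAen : ∀ y, en (A y - p) = ‖y‖ := by
    intro y
    show ‖toY (p + WithLp.ofLp y - p)‖ = ‖y‖
    rw [add_sub_cancel_left]
    rfl
  let v : ℕ → Y 3 → ℝ := fun k y => G (F k (A y))
  let T : ℕ → Y 3 → ℝ := fun k y => Tt k (A y)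
  have hvd : ∀ k, ContDiff ℝ 1 (v k) := fun k => hGd.comp (((hF k).of_le (by simp)).comp hAd)
  have hvT : ∀ k y h, |fderiv ℝ (v k) y h| ≤ T k y * ‖h‖ := by
    intro k y h
    have h0 : HasFDerivAt A ((EuclideanSpace.equiv (Fin 3) ℝ : Y 3 →L[ℝ] E 3)) y :=
      ((EuclideanSpace.equiv (Fin 3) ℝ : Y 3 →L[ℝ] E 3)).hasFDerivAt.const_add p
    have h1 : HasFDerivAt (G ∘ F k) (fderiv ℝ (G ∘ F k) (A y)) (A y) :=
      ((hGd.comp ((hF k).of_le (by simp))).differentiable (by simp) _).hasFDerivAt
    have h2 : HasFDerivAt (v k) ((fderiv ℝ (G ∘ F k) (A y)).comp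
        ((EuclideanSpace.equiv (Fin 3) ℝ : Y 3 →L[ℝ] E 3))) y := h1.comp y h0
    rw [h2.fderiv, ContinuousLinearMap.comp_apply]
    have h3 := fderiv_comp_bound hGd (hF k) (x := A y)
      (b := |deriv (cg a) (en (F k (A y) - y0))|)
      (fun j => rf_pd_abs (cg_contDiff a) ha hcgc y0 j _)
      ((EuclideanSpace.equiv (Fin 3) ℝ : Y 3 →L[ℝ] E 3) h)
    exact h3
  -- uniform closeness
  have hlip : ∀ r r' : ℝ, |cg a r - cg a r'| ≤ C0 / a * |r - r'| := by
    intro r r'
    have h1 : ∀ x ∈ (univ : Set ℝ), ‖deriv (cg a) x‖ ≤ C0 / a := fun x _ => cg_deriv ha hS x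
    have h2 := Convex.norm_image_sub_le_of_norm_deriv_le
      (fun x _ => ((cg_contDiff a).differentiable (by simp)) x) h1 convex_univ (mem_univ r') (mem_univ r)
    simpa [Real.norm_eq_abs] using h2
  have hev : ∀ᶠ k in atTop, ∀ x ∈ B, |G (f x) - G (F k x)| ≤ 1 / 4 := by
    have h1 := Metric.tendstoUniformlyOn_iff.1 hFu (a / (12 * C0)) (by positivity)
    filter_upwards [h1] with k hk x hx
    have h2 := hk x hx
    rw [dist_eq_norm] at h2
    have h3 : |en (f x - y0) - en (F k x - y0)| ≤ en (f x - F k x) := by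
      rw [abs_sub_le_iff]
      constructor
      · have := en_sub_le (f x) (F k x) y0; linarith
      · have := en_sub_le (F k x) (f x) y0
        rw [en_sub_comm (F k x) (f x)] at this; linarith
    have h4 := en_le_norm (f x - F k x)
    refine (hlip _ _).trans ?_
    have h5 : |en (f x - y0) - en (F k x - y0)| ≤ 3 * (a / (12 * C0)) := by
      refine h3.trans (h4.trans ?_)
      push_cast
      nlinarith
    calc C0 / a * |en (f x - y0) - en (F k x - y0)| ≤ C0 / a * (3 * (a / (12 * C0))) :=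
          mul_le_mul_of_nonneg_left h5 (by positivity)
      _ = 1 / 4 := by field_simp; norm_num
  -- the lower bound on each sphere
  have hlow : ∀ᶠ k in atTop, ∀ s, l < s → s < L →
      1 / (64 * C1) * s⁻¹ ≤ s ^ 2 * Av (fun y => T k y ^ 3) s := by
    filter_upwards [hev] with k hk s hs1 hs2
    have hs : 0 < s := hl.trans hs1
    obtain ⟨x1, x2, e1, e2, e3, e4⟩ := hcross s hs1 hs2
    have hx1B : x1 ∈ B := by rw [hBdef]; simp only [mem_ofPred_eq]; rw [e1]; exact hs2.le
    have hx2B : x2 ∈ B := by rw [hBdef]; simp only [mem_ofPred_eq]; rw [e2]; exact hs2.le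
    have g1 := hk x1 hx1B
    have g2 := hk x2 hx2B
    have g3 : G (f x1) = 0 := cg_zero ha e3
    have g4 : G (f x2) = 1 := cg_one ha e4
    rw [g3] at g1
    rw [g4] at g2
    have a1 : A (toY (x1 - p)) = x1 := by
      show p + (x1 - p) = x1
      abel
    have a2 : A (toY (x2 - p)) = x2 := by
      show p + (x2 - p) = x2
      abel
    have m := hMor (v k) (T k) s hs (hvd k) ((hTtc k).comp hAc) (fun y => hTt0 k _)
      (fun y _ h _ => hvT k y h)
    have m1 := m (toY (x1 - p)) e1
    have m2 := m (toY (x2 - p)) e2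
    have v1 : v k (toY (x1 - p)) = G (F k x1) := by show G (F k (A _)) = _; rw [a1]
    have v2 : v k (toY (x2 - p)) = G (F k x2) := by show G (F k (A _)) = _; rw [a2]
    rw [v1] at m1
    rw [v2] at m2
    set M := Av (v k) s
    set Q := C1 * (s ^ 3 * Av (fun y => T k y ^ 3) s) with hQ
    have h5 : (1 / 64 : ℝ) ≤ Q := by
      rcases le_or_gt (1 / 4) |G (F k x1) - M| with h | h
      · calc (1 / 64 : ℝ) = (1 / 4) ^ 3 := by norm_num
          _ ≤ |G (F k x1) - M| ^ 3 := pow_le_pow_left₀ (by norm_num) h 3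
          _ ≤ Q := m1
      · have h6 : 1 / 4 ≤ |G (F k x2) - M| := by
          rw [abs_le] at g1 g2
          rw [abs_lt] at h
          rw [le_abs]
          left
          linarith [g1.1, g1.2, g2.1, g2.2, h.1, h.2]
        calc (1 / 64 : ℝ) = (1 / 4) ^ 3 := by norm_num
          _ ≤ |G (F k x2) - M| ^ 3 := pow_le_pow_left₀ (by norm_num) h6 3
          _ ≤ Q := m2
    rw [hQ] at h5
    set V := Av (fun y => T k y ^ 3) s
    have h7 : 1 / (64 * C1) ≤ s ^ 3 * V := by
      rw [div_le_iff₀ (by positivity)]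
      calc (1 : ℝ) = 64 * (1 / 64) := by norm_num
        _ ≤ 64 * (C1 * (s ^ 3 * V)) := by linarith
        _ = s ^ 3 * V * (64 * C1) := by ring
    calc 1 / (64 * C1) * s⁻¹ ≤ (s ^ 3 * V) * s⁻¹ := mul_le_mul_of_nonneg_right h7 (by positivity)
      _ = s ^ 2 * V := by field_simp
  -- integrate over the spheres
  set Y0 : Set (Y 3) := {y | l < ‖y‖ ∧ ‖y‖ < L} with hY0
  have hY0m : MeasurableSet Y0 :=
    (measurableSet_lt measurable_const measurable_norm).inter
      (measurableSet_lt measurable_norm measurable_const)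
  have hintk : ∀ k, Integrable (Y0.indicator fun y => T k y ^ 3) := by
    intro k
    have h1 : IntegrableOn (fun y => T k y ^ 3) (closedBall (0 : Y 3) L) :=
      ((((hTtc k).comp hAc).pow 3).continuousOn).integrableOn_compact (isCompact_closedBall _ _)
    rw [integrable_indicator_iff hY0m]
    refine h1.mono_set ?_
    intro y hy
    rw [mem_closedBall, dist_zero_right]
    exact hy.2.le
  have hTt_int : ∀ k, IntegrableOn (fun x => Tt k x ^ 3) B := fun k =>
    ((hTtc k).pow 3).continuousOn.integrableOn_compact hBc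
  have hupper : ∀ k, ∫ y, Y0.indicator (fun y => T k y ^ 3) y ≤ ∫ x in B, Tt k x ^ 3 := by
    intro k
    set Tm : E 3 → Y 3 := fun x => toY (x - p) with hTm
    have hmp : MeasurePreserving Tm volume volume :=
      (PiLp.volume_preserving_toLp (Fin 3)).comp (measurePreserving_sub_right volume p)
    have hemb : MeasurableEmbedding Tm :=
      (MeasurableEquiv.toLp 2 (Fin 3 → ℝ)).measurableEmbedding.comp
        (MeasurableEquiv.subRight p).measurableEmbedding
    rw [← hmp.integral_comp hemb]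
    have h1 : ∀ x, Y0.indicator (fun y => T k y ^ 3) (Tm x) ≤ B.indicator (fun x => Tt k x ^ 3) x := by
      intro x
      have hAx : A (Tm x) = x := by show p + (x - p) = x; abel
      by_cases hx : Tm x ∈ Y0
      · have hxB : x ∈ B := by
          have : ‖Tm x‖ < L := hx.2
          exact this.le
        rw [indicator_of_mem hx, indicator_of_mem hxB]
        show Tt k (A (Tm x)) ^ 3 ≤ _
        rw [hAx]
      · rw [indicator_of_notMem hx]
        exact indicator_nonneg (fun x _ => pow_nonneg (hTt0 k x) 3) _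
    rw [← integral_indicator hBm]
    refine integral_mono ?_ ((integrable_indicator_iff hBm).2 (hTt_int k)) h1
    exact (hmp.integrable_comp_emb hemb).2 (hintk k)
  have hkey : ∀ᶠ k in atTop, om 3 * (1 / (64 * C1) * Real.log (L / l)) ≤ ∫ x in B, Tt k x ^ 3 := by
    filter_upwards [hlow] with k hk
    refine le_trans ?_ (hupper k)
    obtain ⟨_, hp2, hp3⟩ := polar_integral (n := 3) (by norm_num) (hintk k)
    rw [hp3]
    refine mul_le_mul_of_nonneg_left ?_ hom.le
    have h1 : ∫ s in Ioo l L, 1 / (64 * C1) * s⁻¹ = 1 / (64 * C1) * Real.log (L / l) := by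
      rw [integral_const_mul, ← integral_Ioc_eq_integral_Ioo, ← intervalIntegral.integral_of_le hlL.le,
        integral_inv_of_pos hl (hl.trans hlL)]
    rw [← h1]
    have hIoo : Ioo l L ⊆ Ioi (0 : ℝ) := fun s hs => hl.trans hs.1
    have h2 : ∫ s in Ioo l L, s ^ (3 - 1) * Av (Y0.indicator fun y => T k y ^ 3) s ≤
        ∫ s in Ioi (0 : ℝ), s ^ (3 - 1) * Av (Y0.indicator fun y => T k y ^ 3) s := by
      refine setIntegral_mono_set hp2 ?_ (LE.le.eventuallyLE hIoo)
      filter_upwards [ae_restrict_mem measurableSet_Ioi] with s hs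
      have hs' : (0 : ℝ) < s := hs
      refine mul_nonneg (by positivity) (Av_nonneg (by norm_num) (fun y => ?_) s)
      exact indicator_nonneg (fun y _ => pow_nonneg (hTt0 k _) 3) _
    refine le_trans ?_ h2
    refine setIntegral_mono_on ?_ (hp2.mono_set hIoo) measurableSet_Ioo ?_
    · refine IntegrableOn.mono_set ?_ Ioo_subset_Icc_self
      refine ContinuousOn.integrableOn_Icc ?_
      exact continuousOn_const.mul (continuousOn_inv₀.mono fun x hx => (hl.trans_le hx.1).ne')
    · intro s hs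
      refine (hk s hs.1 hs.2).trans (le_of_eq ?_)
      congr 1
      unfold Av
      congr 1
      refine integral_congr_ae (Eventually.of_forall fun θ => ?_)
      have hθ : ‖s • (θ : Y 3)‖ = s := by
        rw [norm_smul, norm_eq_of_mem_sphere, mul_one, Real.norm_of_nonneg (hl.trans hs.1).le]
      have hmem : s • (θ : Y 3) ∈ Y0 := by
        rw [hY0]; simp only [mem_ofPred_eq]; rw [hθ]; exact hs
      show T k (s • (θ : Y 3)) ^ 3 = Y0.indicator (fun y => T k y ^ 3) (s • (θ : Y 3))
      rw [indicator_of_mem hmem]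
  -- pass to the limit
  have hsnm : Measurable fun x => sn (Df x) := by
    unfold sn
    exact Finset.measurable_sum _ fun i _ => Finset.measurable_sum _ fun j _ => (H.meas_D i j).abs
  have hlim : Tendsto (fun k => ∫ x in B, Tt k x ^ 3) atTop (𝓝 (∫ x in B, Ti x ^ 3)) := by
    refine tendsto_integral_filter_of_dominated_convergence
      (fun x => (C0 / a * 3) ^ 3 * Φ x) ?_ ?_ ?_ ?_
    · exact Eventually.of_forall fun k => ((hTtc k).pow 3).aestronglyMeasurable
    · refine Eventually.of_forall fun k => ?_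
      filter_upwards [hFΦ] with x hx
      rw [Real.norm_of_nonneg (pow_nonneg (hTt0 k x) 3)]
      have h1 : Tt k x ≤ C0 / a * 3 * sn (jac (F k) x) := by
        have := mul_le_mul_of_nonneg_right (cg_deriv ha hS (en (F k x - y0)))
          (mul_nonneg (by norm_num : (0:ℝ) ≤ 3) (X1.X1_sn_nonneg (jac (F k) x)))
        calc Tt k x ≤ _ := this
          _ = _ := by ring
      calc Tt k x ^ 3 ≤ (C0 / a * 3 * sn (jac (F k) x)) ^ 3 := pow_le_pow_left₀ (hTt0 k x) h1 3
        _ = (C0 / a * 3) ^ 3 * sn (jac (F k) x) ^ 3 := by ring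
        _ ≤ (C0 / a * 3) ^ 3 * Φ x := mul_le_mul_of_nonneg_left (hx k) (by positivity)
    · exact hΦ.const_mul _
    · filter_upwards [hFj, ae_restrict_mem hBm] with x hx hxB
      have h1 : Tendsto (fun k => F k x) atTop (𝓝 (f x)) := hFu.tendsto_at hxB
      have h2 : Tendsto (fun k => |deriv (cg a) (en (F k x - y0))|) atTop
          (𝓝 |deriv (cg a) (en (f x - y0))|) :=
        ((hcgdc.comp henc0).abs.tendsto (f x)).comp h1
      have h3 : Tendsto (fun k => sn (jac (F k) x)) atTop (𝓝 (sn (Df x))) :=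
        (continuous_sn.tendsto (Df x)).comp hx
      exact (h2.mul (h3.const_mul 3)).pow 3
  have hfin : om 3 * (1 / (64 * C1) * Real.log (L / l)) ≤ ∫ x in B, Ti x ^ 3 :=
    ge_of_tendsto hlim hkey
  -- the upper bound by the area
  set ψ : E 3 → ℝ := {z : E 3 | en (z - y0) ≤ 2 * a}.indicator fun _ => (1 : ℝ) with hψ
  have hψset : MeasurableSet {z : E 3 | en (z - y0) ≤ 2 * a} :=
    (isClosed_le henc0 continuous_const).measurableSet
  have hψm : Measurable ψ := measurable_const.indicator hψset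
  have hψ1 : ∀ z, |ψ z| ≤ 1 := fun z => by
    by_cases h : z ∈ {z : E 3 | en (z - y0) ≤ 2 * a}
    · rw [hψ, indicator_of_mem h]; simp
    · rw [hψ, indicator_of_notMem h]; simp
  have hψ0 : ∀ z, 0 ≤ ψ z := fun z => indicator_nonneg (fun _ _ => zero_le_one) _
  have hMψ := hM ψ hψm ⟨1, hψ1⟩
    (fun z hz => by
      have hz' : z ∉ {z : E 3 | en (z - y0) ≤ 2 * a} := fun h => hz (hy0 z h)
      rw [hψ, indicator_of_notMem hz'])
  have hvol : ∫ z, ψ z ≤ (4 * a) ^ 3 := by
    rw [hψ, integral_indicator hψset]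
    simp only [integral_const, smul_eq_mul, mul_one, Measure.real, MeasurableSet.univ,
      Measure.restrict_apply, univ_inter]
    have h1 : volume {z : E 3 | en (z - y0) ≤ 2 * a} ≤ ENNReal.ofReal ((4 * a) ^ 3) := by
      have h2 : {z : E 3 | en (z - y0) ≤ 2 * a} ⊆ closedBall y0 (2 * a) := by
        intro z hz
        rw [mem_closedBall, dist_eq_norm]
        exact (norm_le_en _).trans hz
      refine (measure_mono h2).trans ?_
      rw [volume_cube y0 (by positivity : (0:ℝ) ≤ 2 * a)]
      refine le_of_eq ?_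
      congr 1
      ring
    exact ENNReal.toReal_le_of_le_ofReal (by positivity) h1
  set C := pre U f ys R with hCdef
  have hCU : C ⊆ U := fun x hx => hx.1
  have hdi : IntegrableOn (fun x => (Df x).det) C := det_intOn (by norm_num) H hC hCU
  have hψi : IntegrableOn (fun x => ψ (f x) * (Df x).det) C :=
    Integrable.bdd_mul (c := 1) hdi (hψm.comp H.meas_f).aestronglyMeasurable
      (Eventually.of_forall fun x => hψ1 _)
  have hd0 : 0 ≤ d * ∫ z, ψ z := by
    rw [← hMψ]
    refine setIntegral_nonneg_of_ae_restrict ?_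
    have hpos : ∀ᵐ x ∂(volume.restrict C), 0 ≤ (Df x).det ∧ ((Df x).det = 0 → Df x = 0) :=
      ae_restrict_of_ae_restrict_of_subset hCU H.pos
    filter_upwards [hpos] with x hx using mul_nonneg (hψ0 _) hx.1
  have hd : 0 ≤ d := by
    have h1 : 0 < ∫ z, ψ z := by
      rw [hψ, integral_indicator hψset]
      simp only [integral_const, smul_eq_mul, mul_one, Measure.real, MeasurableSet.univ,
        Measure.restrict_apply, univ_inter]
      refine ENNReal.toReal_pos ?_ ?_
      · have h2 : {z : E 3 | en (z - y0) < 2 * a} ⊆ {z : E 3 | en (z - y0) ≤ 2 * a} :=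
          fun z (hz : en (z - y0) < 2 * a) => hz.le
        have h3 : IsOpen {z : E 3 | en (z - y0) < 2 * a} := isOpen_lt henc0 continuous_const
        have h4 : y0 ∈ {z : E 3 | en (z - y0) < 2 * a} := by
          simp only [mem_ofPred_eq, sub_self, en_zero]; positivity
        exact ((h3.measure_pos volume ⟨y0, h4⟩).trans_le (measure_mono h2)).ne'
      · have h2 : {z : E 3 | en (z - y0) ≤ 2 * a} ⊆ closedBall y0 (2 * a) := by
          intro z hz
          rw [mem_closedBall, dist_eq_norm]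
          exact (norm_le_en _).trans hz
        exact ((measure_mono h2).trans_lt (isCompact_closedBall y0 (2 * a)).measure_lt_top).ne
    exact nonneg_of_mul_nonneg_left hd0 h1
  have hub : ∫ x in B, Ti x ^ 3 ≤ (C0 / a * 3) ^ 3 * (Cs * K ^ 2) * (d * (4 * a) ^ 3) := by
    have h1 : ∀ᵐ x ∂(volume.restrict B), Ti x ^ 3 ≤
        C.indicator (fun x => (C0 / a * 3) ^ 3 * (Cs * K ^ 2) * (ψ (f x) * (Df x).det)) x := by
      have hpos : ∀ᵐ x ∂(volume.restrict B), 0 ≤ (Df x).det ∧ ((Df x).det = 0 → Df x = 0) :=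
        ae_restrict_of_ae_restrict_of_subset hBU H.pos
      have hdist : ∀ᵐ x ∂(volume.restrict B), ∀ w : E 3,
          en ((Df x).adjugate.transpose.mulVec w) ^ 3 ≤ K * (Df x).det ^ (3 - 1) * en w ^ 3 :=
        ae_restrict_of_ae_restrict_of_subset hBU H.dist
      filter_upwards [hpos, hdist, ae_restrict_mem hBm] with x hx1 hx2 hxB
      have hsx := hsn (Df x) K hK hx1.1 hx1.2 hx2
      have hdetx := hx1.1
      by_cases hr : en (f x - y0) ∈ Icc a (2 * a)
      · have hxC : x ∈ C := ⟨hBU hxB, hy0 _ hr.2⟩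
        have hψx : ψ (f x) = 1 := indicator_of_mem (show f x ∈ {z : E 3 | en (z - y0) ≤ 2 * a} from hr.2) _
        rw [indicator_of_mem hxC, hψx, one_mul]
        have h2 : Ti x ≤ C0 / a * 3 * sn (Df x) := by
          have := mul_le_mul_of_nonneg_right (cg_deriv ha hS (en (f x - y0)))
            (mul_nonneg (by norm_num : (0:ℝ) ≤ 3) (X1.X1_sn_nonneg (Df x)))
          calc Ti x ≤ _ := this
            _ = _ := by ring
        have h3 : 0 ≤ Ti x := mul_nonneg (abs_nonneg _) (mul_nonneg (by norm_num) (X1.X1_sn_nonneg _))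
        calc Ti x ^ 3 ≤ (C0 / a * 3 * sn (Df x)) ^ 3 := pow_le_pow_left₀ h3 h2 3
          _ = (C0 / a * 3) ^ 3 * sn (Df x) ^ 3 := by ring
          _ ≤ (C0 / a * 3) ^ 3 * (Cs * (K ^ 2 * (Df x).det)) :=
              mul_le_mul_of_nonneg_left hsx (by positivity)
          _ = _ := by ring
      · have h2 : Ti x = 0 := by
          show |deriv (cg a) (en (f x - y0))| * _ = 0
          rw [cg_deriv_out ha hr, abs_zero, zero_mul]
        rw [h2, zero_pow (by norm_num)]
        by_cases hxC : x ∈ C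
        · rw [indicator_of_mem hxC]
          have := hψ0 (f x)
          positivity
        · rw [indicator_of_notMem hxC]
    have hCi : Integrable (C.indicator fun x =>
        (C0 / a * 3) ^ 3 * (Cs * K ^ 2) * (ψ (f x) * (Df x).det)) :=
      (integrable_indicator_iff hC.measurableSet).2 (hψi.const_mul _)
    have hTii : IntegrableOn (fun x => Ti x ^ 3) B := by
      refine Integrable.mono' (hΦ.const_mul ((C0 / a * 3) ^ 3)) ?_ ?_
      · have hm : Measurable fun x => deriv (cg a) (en (f x - y0)) :=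
          (hcgdc.comp henc0).measurable.comp H.meas_f
        have hm2 : Measurable Ti := hm.abs.mul (hsnm.const_mul 3)
        exact (hm2.pow_const 3).aestronglyMeasurable
      · filter_upwards [hFj, hFΦ, ae_restrict_mem hBm] with x hx hx2 hxB
        have h3 : 0 ≤ Ti x := mul_nonneg (abs_nonneg _) (mul_nonneg (by norm_num) (X1.X1_sn_nonneg _))
        rw [Real.norm_of_nonneg (pow_nonneg h3 3)]
        have h2 : Ti x ≤ C0 / a * 3 * sn (Df x) := by
          have := mul_le_mul_of_nonneg_right (cg_deriv ha hS (en (f x - y0)))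
            (mul_nonneg (by norm_num : (0:ℝ) ≤ 3) (X1.X1_sn_nonneg (Df x)))
          calc Ti x ≤ _ := this
            _ = _ := by ring
        have h4 : Tendsto (fun k => sn (jac (F k) x) ^ 3) atTop (𝓝 (sn (Df x) ^ 3)) :=
          ((continuous_sn.tendsto (Df x)).comp hx).pow 3
        have h5 : sn (Df x) ^ 3 ≤ Φ x := le_of_tendsto h4 (Eventually.of_forall hx2)
        calc Ti x ^ 3 ≤ (C0 / a * 3 * sn (Df x)) ^ 3 := pow_le_pow_left₀ h3 h2 3
          _ = (C0 / a * 3) ^ 3 * sn (Df x) ^ 3 := by ring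
          _ ≤ (C0 / a * 3) ^ 3 * Φ x := mul_le_mul_of_nonneg_left h5 (by positivity)
    have h6 := integral_mono_ae hTii hCi.integrableOn h1
    refine h6.trans ?_
    have hnn : 0 ≤ᵐ[volume] C.indicator fun x =>
        (C0 / a * 3) ^ 3 * (Cs * K ^ 2) * (ψ (f x) * (Df x).det) := by
      have hpos : ∀ᵐ x, x ∈ U → 0 ≤ (Df x).det :=
        (ae_restrict_iff' H.isOpen.measurableSet).1 (H.pos.mono fun x hx => hx.1)
      filter_upwards [hpos] with x hx
      show 0 ≤ C.indicator _ x
      by_cases hxC : x ∈ C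
      · rw [indicator_of_mem hxC]
        have h1' := hx (hCU hxC)
        have h2' := hψ0 (f x)
        positivity
      · rw [indicator_of_notMem hxC]
    refine (setIntegral_le_integral hCi hnn).trans ?_
    rw [integral_indicator hC.measurableSet, integral_const_mul, hMψ]
    refine mul_le_mul_of_nonneg_left ?_ (by positivity)
    exact mul_le_mul_of_nonneg_left hvol hd
  have hfin2 := hfin.trans hub
  have e1 : (C0 / a * 3) ^ 3 * (Cs * K ^ 2) * (d * (4 * a) ^ 3) =
      (27 * 64 * C0 ^ 3 * Cs) * (K ^ 2 * d) := by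
    field_simp
    ring
  rw [e1] at hfin2
  have e2 : om 3 / (64 * C1 * (27 * 64 * C0 ^ 3 * Cs)) * Real.log (L / l) =
      (om 3 * (1 / (64 * C1) * Real.log (L / l))) / (27 * 64 * C0 ^ 3 * Cs) := by
    field_simp
  rw [e2, div_le_iff₀ (by positivity)]
  linarith

end Helper415.WM
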