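import Pool.Agent.Helper415_WM.Prof

/-! # The capacity inequality with multiplicity -/

set_option autoImplicit false
open MeasureTheory Metric Set Filter Topology
open scoped ENNReal NNReal ContDiff

namespace Helper415.WM

open H248.ID H248.BH

/-- pointwise Young inequality -/
theorem young3 {t p q : ℝ} (ht : 0 ≤ t) (hp : 0 ≤ p) (hq : 0 ≤ q) (h : t ^ 3 ≤ p * q ^ 2) :
    t ≤ (p + 2 * q) / 3 := by
  have h1 : p * q ^ 2 ≤ ((p + 2 * q) / 3) ^ 3 := by
    nlinarith [mul_nonneg (sq_nonneg (p - q)) (by linarith : 0 ≤ p + 8 * q)]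
  exact le_of_pow_le_pow_left₀ (by norm_num) (by positivity) (h.trans h1)

/-- the multiplicity formula -/
def MultF (U : Set (E 3)) (f : E 3 → E 3) (Df : E 3 → Matrix (Fin 3) (Fin 3) ℝ) (y : E 3) (R d : ℝ) :
    Prop :=
  ∀ ψ : E 3 → ℝ, Measurable ψ → (∃ B, ∀ z, |ψ z| ≤ B) →
      (∀ z, z ∉ closedBall y R → ψ z = 0) →
      ∫ x in pre U f y R, ψ (f x) * (Df x).det = d * ∫ z, ψ z

theorem capB_core {U : Set (E 3)} {f : E 3 → E 3}
    {Df : E 3 → Matrix (Fin 3) (Fin 3) ℝ} {K : ℝ} (H : QR U f Df K) (hK : 0 < K) {ys : E 3} {R : ℝ}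
    (hC : IsCompact (pre U f ys R)) {d : ℝ} (hM : MultF U f Df ys R d)
    {p y0 : E 3} {a' a b b' ε l σ lam : ℝ} (ha' : 0 < a') (ha : a' < a) (hab : a ≤ b) (hb : b < b')
    (hε : 0 < ε) (hσ : 0 < σ) (hεl : ε ≤ l) (hlam : 0 < lam)
    (hB : ∀ z, en (z - y0) ≤ b' → z ∈ ball ys R)
    (hin : ∀ x ∈ U, en (f x - y0) ≤ a → en (x - p) ≤ ε)
    (hout : ∀ x ∈ U, b ≤ en (f x - y0) → l ≤ en (x - p)) :
    d * Wp ε l σ l ≤ 1 / 3 * (K / lam ^ 2) * Wp ε l σ l + 2 / 3 * (lam * d * Real.log (b' / a')) := by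
  set C := pre U f ys R with hCdef
  have hCU : C ⊆ U := fun x hx => hx.1
  have hCm : MeasurableSet C := hC.measurableSet
  have hom : 0 < om 3 := om_pos (by norm_num)
  set W := Wp ε l σ with hW
  set Ξ := Xp a' a b b' with hΞ
  have hWd : ContDiff ℝ 1 W := Wp_contDiff hε l σ
  have hWc : ∀ r ≤ ε, W r = W 0 := fun r hr => by
    rw [hW, Wp_left hσ hr, Wp_left hσ hε.le]
  have hXd : ContDiff ℝ 1 Ξ := Xp_contDiff b b' ha' ha
  have hXc : ∀ r ≤ a', Ξ r = Ξ 0 := fun r hr => by
    rw [hΞ, Xp_left b b' ha hr, Xp_left b b' ha ha'.le]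
  have hderW : ∀ r, deriv W r = kp ε l σ r := fun r => (Wp_deriv hε l σ r).deriv
  -- the divergence identity
  have hX0 : ∀ z, z ∉ ball ys R → rX Ξ y0 =ᶠ[𝓝 z] 0 := by
    intro z hz
    have h1 : b' < en (z - y0) := by
      by_contra hh
      exact hz (hB z (not_lt.1 hh))
    have hc : Continuous fun x : E 3 => en (x - y0) := en_cont.comp (continuous_id.sub continuous_const)
    filter_upwards [hc.continuousAt.eventually (lt_mem_nhds h1)] with w hw
    ext k
    show Ξ (en (w - y0)) * _ = 0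
    rw [hΞ, Xp_right a' a hb (le_of_lt hw), zero_mul]
  obtain ⟨hI1, hI2, hI3⟩ := div_identity (by norm_num) H hC (rf_contDiff hWd hε hWc p)
    (rX_contDiff hXd ha' hXc y0) hX0
  -- evaluation of the left side
  set G2 : E 3 → ℝ := rf ((Ici b).indicator fun r => r * deriv Ξ r + 3 * Ξ r) y0 with hG2
  have hleft : ∫ x in C, rf W p x * dv (rX Ξ y0) (f x) * (Df x).det =
      ∫ x in C, (W l * G2 (f x)) * (Df x).det := by
    refine setIntegral_congr_fun hCm fun x hx => ?_
    show rf W p x * dv (rX Ξ y0) (f x) * (Df x).det = (W l * G2 (f x)) * (Df x).det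
    congr 1
    rw [rX_dv hXd ha' hXc]
    push_cast
    show W (en (x - p)) * _ = W l * (Ici b).indicator (fun r => r * deriv Ξ r + 3 * Ξ r) (en (f x - y0))
    rcases le_or_gt (en (f x - y0)) a with h1 | h1
    · have h2 := hin x (hCU hx) h1
      rw [hW, Wp_left hσ h2, zero_mul]
      rcases lt_or_ge (en (f x - y0)) b with h3 | h3
      · rw [indicator_of_notMem (fun h : _ ∈ Ici b => absurd h (not_le.2 h3)), mul_zero]
      · have h4 := hout x (hCU hx) h3
        have h5 : l = ε := le_antisymm (h4.trans h2) hεl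
        have h6 : Wp ε l σ l = 0 := by
          rw [h5]; unfold Wp; simp
        rw [h6, zero_mul]
    · rcases lt_or_ge (en (f x - y0)) b with h3 | h3
      · rw [indicator_of_notMem (fun h : _ ∈ Ici b => absurd h (not_le.2 h3)), mul_zero]
        rw [hΞ, Xp_mid ha' ha hb h1 h3, mul_zero]
      · rw [indicator_of_mem (show _ ∈ Ici b from h3)]
        rw [hW, Wp_right hε hσ (hout x (hCU hx) h3)]
  have hdΞc : Continuous fun r => r * deriv Ξ r + 3 * Ξ r := by
    have := hXd.continuous_deriv (by simp)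
    have := hXd.continuous
    fun_prop
  have hΞ0 : ∀ r, r ∉ Icc a' b' → r * deriv Ξ r + 3 * Ξ r = 0 := by
    intro r hr
    have e : Ξ =ᶠ[𝓝 r] fun _ => 0 := by
      rcases lt_or_ge r a' with h1 | h1
      · filter_upwards [gt_mem_nhds h1] with s hs using Xp_left b b' ha hs.le
      · rcases le_or_gt r b' with h2 | h2
        · exact absurd ⟨h1, h2⟩ hr
        · filter_upwards [lt_mem_nhds h2] with s hs using Xp_right a' a hb hs.le
    rw [e.deriv_eq, e.self_of_nhds]; simp
  have hdΞb : ∃ B, ∀ r, |r * deriv Ξ r + 3 * Ξ r| ≤ B := by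
    have hcs : HasCompactSupport fun r => r * deriv Ξ r + 3 * Ξ r :=
      HasCompactSupport.intro isCompact_Icc hΞ0
    obtain ⟨B, hB⟩ := hcs.exists_bound_of_continuous hdΞc
    exact ⟨B, fun r => by simpa using hB r⟩
  have hen_m : Measurable fun x : E 3 => en (x - y0) :=
    (en_cont.comp (continuous_id.sub continuous_const)).measurable
  have hG2m : Measurable G2 := (hdΞc.measurable.indicator measurableSet_Ici).comp hen_m
  have hG2v : ∫ x in C, (W l * G2 (f x)) * (Df x).det = - (W l * (d * om 3)) := by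
    have h1 := hM G2 hG2m (by
      obtain ⟨B, hB⟩ := hdΞb
      refine ⟨B, fun z => ?_⟩
      show |(Ici b).indicator _ _| ≤ B
      by_cases hz : en (z - y0) ∈ Ici b
      · rw [indicator_of_mem hz]; exact hB _
      · rw [indicator_of_notMem hz, abs_zero]; exact (abs_nonneg _).trans (hB 0)) (by
      intro z hz
      have h1 : b' < en (z - y0) := by
        by_contra hh
        exact hz (ball_subset_closedBall (hB z (not_lt.1 hh)))
      show (Ici b).indicator _ _ = 0
      rw [indicator_of_mem (show _ ∈ Ici b from (hb.trans h1).le)]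
      exact hΞ0 _ (fun h => absurd h.2 (not_le.2 h1)))
    have h2 : ∫ z, G2 z = - om 3 := by
      rw [hG2, polar_rf (by norm_num), Xp_flux ha' ha hab hb]; ring
    rw [h2] at h1
    have h3 : ∀ x, (W l * G2 (f x)) * (Df x).det = W l * (G2 (f x) * (Df x).det) := fun x => by ring
    simp only [h3]
    rw [integral_const_mul, h1]
    ring
  -- the energies
  set g3 : E 3 → ℝ := rf ((Icc a' b').indicator fun r => (r ^ 3)⁻¹) y0 with hg3
  have hg3m : Measurable g3 := by
    refine Measurable.comp ?_ hen_m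
    exact ((measurable_id.pow_const 3).inv).indicator measurableSet_Icc
  have hg3b : ∀ z, |g3 z| ≤ (a' ^ 3)⁻¹ := by
    intro z
    show |(Icc a' b').indicator _ _| ≤ _
    by_cases hz : en (z - y0) ∈ Icc a' b'
    · rw [indicator_of_mem hz, abs_of_nonneg (inv_nonneg.2 (pow_nonneg (en_nonneg _) 3))]
      exact inv_anti₀ (by positivity) (pow_le_pow_left₀ ha'.le hz.1 3)
    · rw [indicator_of_notMem hz, abs_zero]; positivity
  have hg3n : ∀ z, 0 ≤ g3 z := by
    intro z
    refine indicator_nonneg (fun r hr => ?_) _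
    exact inv_nonneg.2 (pow_nonneg (ha'.le.trans hr.1) 3)
  have hg3v : ∫ x in C, g3 (f x) * (Df x).det = d * (om 3 * Real.log (b' / a')) := by
    rw [hM g3 hg3m ⟨_, hg3b⟩ (by
      intro z hz
      have h1 : b' < en (z - y0) := by
        by_contra hh
        exact hz (ball_subset_closedBall (hB z (not_lt.1 hh)))
      show (Icc a' b').indicator _ _ = 0
      exact indicator_of_notMem (fun h => absurd h.2 (not_le.2 h1)) _)]
    rw [hg3, polar_rf (by norm_num), g3_energy ha' (by linarith)]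
  have hg3i : IntegrableOn (fun x => g3 (f x) * (Df x).det) C := by
    refine Integrable.bdd_mul (c := (a' ^ 3)⁻¹) (det_intOn (by norm_num) H hC hCU)
      (hg3m.comp H.meas_f).aestronglyMeasurable (Eventually.of_forall fun x => ?_)
    exact hg3b _
  set w3 : E 3 → ℝ := rf (fun r => kp ε l σ r ^ 3) p with hw3
  have hkc := kp_cont hε l σ
  have hw3c : Continuous w3 := (hkc.pow 3).comp (en_cont.comp (continuous_id.sub continuous_const))
  have hw3n : ∀ x, 0 ≤ w3 x := fun x => pow_nonneg (kp_nonneg hε l σ _) 3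
  have hw3cs : HasCompactSupport w3 := by
    refine HasCompactSupport.intro (isCompact_closedBall p (max l 0)) fun x hx => ?_
    have h1 : max l 0 < ‖x - p‖ := by
      rw [← dist_eq_norm]; simpa using hx
    have h2 : l ≤ en (x - p) := (le_max_left _ _).trans (h1.le.trans (norm_le_en _))
    show kp ε l σ _ ^ 3 = 0
    rw [kp_zero_right hσ h2]; simp
  have hw3i : Integrable w3 := hw3c.integrable_of_hasCompactSupport hw3cs
  have hw3v : ∫ x in C, w3 x ≤ om 3 * W l := by
    calc ∫ x in C, w3 x ≤ ∫ x, w3 x := setIntegral_le_integral hw3i (Eventually.of_forall hw3n)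
      _ = om 3 * ∫ r in Ioi (0 : ℝ), r ^ (3 - 1) * (kp ε l σ r) ^ 3 := by
          rw [hw3, polar_rf (by norm_num)]
      _ ≤ om 3 * W l := mul_le_mul_of_nonneg_left (kp_energy hε hσ hεl) hom.le
  -- the pointwise inequality
  have hpt : ∀ᵐ x ∂(volume.restrict C),
      (Df x).adjugate.transpose.mulVec (gd (rf W p) x) ⬝ᵥ rX Ξ y0 (f x) ≤
        1 / 3 * (K / lam ^ 2) * w3 x + 2 / 3 * lam * (g3 (f x) * (Df x).det) := by
    have h1 : ∀ᵐ x ∂(volume.restrict C), 0 ≤ (Df x).det ∧ ((Df x).det = 0 → Df x = 0) :=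
      ae_restrict_of_ae_restrict_of_subset hCU H.pos
    have h2 : ∀ᵐ x ∂(volume.restrict C), ∀ w : E 3,
      en ((Df x).adjugate.transpose.mulVec w) ^ 3 ≤ K * (Df x).det ^ (3 - 1) * en w ^ 3 :=
      ae_restrict_of_ae_restrict_of_subset hCU H.dist
    filter_upwards [h1, h2] with x hx1 hx2
    set A := (Df x).adjugate.transpose.mulVec (gd (rf W p) x) with hA
    set r := en (f x - y0) with hr
    set J := (Df x).det with hJ
    have hcs := X4.en_cs_aux A (rX Ξ y0 (f x))
    rw [en_rX, ← hr] at hcs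
    have hA3 := hx2 (gd (rf W p) x)
    rw [← hA, en_gd_rf hWd hε hWc, hderW, abs_of_nonneg (kp_nonneg hε l σ _)] at hA3
    have hA3' : en A ^ 3 ≤ K * J ^ 2 * w3 x := hA3
    have hrhs : 0 ≤ 1 / 3 * (K / lam ^ 2) * w3 x := by
      have := hw3n x; positivity
    by_cases hrr : r ∈ Icc a' b'
    · have hr0 : 0 < r := ha'.trans_le hrr.1
      have e3 : g3 (f x) = (r ^ 3)⁻¹ := indicator_of_mem hrr _
      have h5 := Xp_abs_le b b' ha' ha (r := r) hr0
      have h6 : A ⬝ᵥ rX Ξ y0 (f x) ≤ en A / r ^ 2 := by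
        refine hcs.trans ?_
        calc en A * (|Ξ r| * r) ≤ en A * (1 / r ^ 2) := mul_le_mul_of_nonneg_left h5 (en_nonneg _)
          _ = en A / r ^ 2 := by ring
      refine h6.trans ?_
      have h7 : (en A / r ^ 2) ^ 3 ≤ (K / lam ^ 2 * w3 x) * (lam * ((r ^ 3)⁻¹ * J)) ^ 2 := by
        have : (K / lam ^ 2 * w3 x) * (lam * ((r ^ 3)⁻¹ * J)) ^ 2 = (K * J ^ 2 * w3 x) / r ^ 6 := by
          field_simp
        rw [this, div_pow, ← pow_mul]
        exact div_le_div_of_nonneg_right hA3' (by positivity)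
      have h8 := young3 (div_nonneg (en_nonneg A) (by positivity))
        (by have := hw3n x; positivity) (by have := hx1.1; positivity) h7
      rw [e3]
      calc en A / r ^ 2 ≤ _ := h8
        _ = _ := by ring
    · have e1 : Ξ r = 0 := by
        rcases lt_or_ge r a' with h1 | h1
        · exact Xp_left b b' ha h1.le
        · rcases le_or_gt r b' with h2 | h2
          · exact absurd ⟨h1, h2⟩ hrr
          · exact Xp_right a' a hb h2.le
      have e3 : g3 (f x) = 0 := indicator_of_notMem hrr _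
      rw [e1] at hcs
      rw [e3]
      simp only [abs_zero, zero_mul, mul_zero] at hcs ⊢
      linarith
  have hmain : ∫ x in C, (Df x).adjugate.transpose.mulVec (gd (rf W p) x) ⬝ᵥ rX Ξ y0 (f x) ≤
      1 / 3 * (K / lam ^ 2) * (om 3 * W l) + 2 / 3 * lam * (d * (om 3 * Real.log (b' / a'))) := by
    have h1 := integral_mono_ae hI2
      ((hw3i.integrableOn.const_mul (1 / 3 * (K / lam ^ 2))).add (hg3i.const_mul (2 / 3 * lam))) hpt
    refine h1.trans ?_
    simp only [Pi.add_apply]
    rw [integral_add (hw3i.integrableOn.const_mul _) (hg3i.const_mul _), integral_const_mul,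
      integral_const_mul, hg3v]
    have : 1 / 3 * (K / lam ^ 2) * ∫ x in C, w3 x ≤ 1 / 3 * (K / lam ^ 2) * (om 3 * W l) :=
      mul_le_mul_of_nonneg_left hw3v (by positivity)
    linarith
  rw [hleft, hG2v] at hI3
  have h9 : W l * (d * om 3) ≤
      1 / 3 * (K / lam ^ 2) * (om 3 * W l) + 2 / 3 * lam * (d * (om 3 * Real.log (b' / a'))) := by
    linarith
  have h10 : om 3 * (d * W l) ≤
      om 3 * (1 / 3 * (K / lam ^ 2) * W l + 2 / 3 * (lam * d * Real.log (b' / a'))) := by
    calc om 3 * (d * W l) = W l * (d * om 3) := by ring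
      _ ≤ _ := h9
      _ = _ := by ring
  exact le_of_mul_le_mul_left h10 hom

/-- the capacity inequality for a mapping of multiplicity at least two -/
theorem capB {U : Set (E 3)} {f : E 3 → E 3}
    {Df : E 3 → Matrix (Fin 3) (Fin 3) ℝ} {K : ℝ} (H : QR U f Df K) (hK : 0 < K) {ys : E 3} {R : ℝ}
    (hC : IsCompact (pre U f ys R)) {d : ℝ} (hd : 2 ≤ d) (hM : MultF U f Df ys R d)
    {p y0 : E 3} {a b ε l : ℝ} (ha : 0 < a) (hab : a ≤ b)
    (hε : 0 < ε) (hεl : ε < l)
    (hB : ∃ b1, b < b1 ∧ ∀ z, en (z - y0) ≤ b1 → z ∈ ball ys R)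
    (hin : ∀ x ∈ U, en (f x - y0) ≤ a → en (x - p) ≤ ε)
    (hout : ∀ x ∈ U, b ≤ en (f x - y0) → l ≤ en (x - p)) :
    Real.log (l / ε) ≤ √(K / 2) * Real.log (b / a) := by
  obtain ⟨b1, hb1, hB⟩ := hB
  set lam := √(K / 2) with hlam
  have hlam0 : 0 < lam := Real.sqrt_pos.2 (by positivity)
  have hl2 : lam ^ 2 = K / 2 := Real.sq_sqrt (by positivity)
  have key : ∀ σ : ℝ, 0 < σ → σ < a → σ < b1 - b → ε + σ ≤ l - σ →
      Real.log ((l - σ) / (ε + σ)) ≤ lam * Real.log ((b + σ) / (a - σ)) := by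
    intro σ h1 h2 h3 h4
    have h5 := capB_core H hK hC hM (p := p) (y0 := y0) (a' := a - σ) (a := a) (b := b) (b' := b + σ)
      (ε := ε) (l := l) (σ := σ) (lam := lam) (by linarith) (by linarith) hab (by linarith) hε h1
      hεl.le hlam0 (fun z hz => hB z (by linarith)) hin hout
    have h6 := Wp_lower hε h1 h4
    have h7 := Wp_nonneg (σ := σ) hε hεl.le
    have h8 : K / lam ^ 2 = 2 := by rw [hl2]; field_simp
    rw [h8] at h5
    refine h6.trans ?_
    set X := Wp ε l σ l
    set L := Real.log ((b + σ) / (a - σ))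
    have h9 : d * X ≤ d * (lam * L) := by nlinarith
    exact le_of_mul_le_mul_left h9 (by linarith)
  -- limit
  have hev : ∀ᶠ σ in 𝓝[>] (0 : ℝ),
      Real.log ((l - σ) / (ε + σ)) ≤ lam * Real.log ((b + σ) / (a - σ)) := by
    have e1 : ∀ᶠ σ in 𝓝[>] (0 : ℝ), 0 < σ := self_mem_nhdsWithin
    have e2 : ∀ᶠ σ in 𝓝[>] (0 : ℝ), σ < a := nhdsWithin_le_nhds (gt_mem_nhds ha)
    have e3 : ∀ᶠ σ in 𝓝[>] (0 : ℝ), σ < b1 - b := nhdsWithin_le_nhds (gt_mem_nhds (by linarith))
    have e4 : ∀ᶠ σ in 𝓝[>] (0 : ℝ), σ < (l - ε) / 2 :=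
      nhdsWithin_le_nhds (gt_mem_nhds (by linarith))
    filter_upwards [e1, e2, e3, e4] with σ h1 h2 h3 h4
    exact key σ h1 h2 h3 (by linarith)
  have t1 : Tendsto (fun σ : ℝ => Real.log ((l - σ) / (ε + σ))) (𝓝[>] 0) (𝓝 (Real.log (l / ε))) := by
    have h1 : ContinuousAt (fun σ : ℝ => Real.log ((l - σ) / (ε + σ))) 0 := by
      refine ContinuousAt.log ?_ ?_
      · refine ContinuousAt.div (by fun_prop) (by fun_prop) ?_
        simp; exact hε.ne'
      · simp only [sub_zero, add_zero]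
        exact (div_pos (hε.trans hεl) hε).ne'
    have h2 := h1.tendsto
    simp only [sub_zero, add_zero] at h2
    exact h2.mono_left nhdsWithin_le_nhds
  have t2 : Tendsto (fun σ : ℝ => lam * Real.log ((b + σ) / (a - σ))) (𝓝[>] 0)
      (𝓝 (lam * Real.log (b / a))) := by
    have h1 : ContinuousAt (fun σ : ℝ => lam * Real.log ((b + σ) / (a - σ))) 0 := by
      refine ContinuousAt.mul continuousAt_const (ContinuousAt.log ?_ ?_)
      · refine ContinuousAt.div (by fun_prop) (by fun_prop) ?_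
        simp; exact ha.ne'
      · simp only [sub_zero, add_zero]
        exact (div_pos (by linarith) ha).ne'
    have h2 := h1.tendsto
    simp only [sub_zero, add_zero] at h2
    exact h2.mono_left nhdsWithin_le_nhds
  exact le_of_tendsto_of_tendsto t1 t2 hev

end Helper415.WM
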