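import Pool.Agent.Helper415_WM.Fact

/-! # The branch set and Hausdorff dimension -/

set_option autoImplicit false
open MeasureTheory Metric Set Filter Topology
open scoped ENNReal NNReal ContDiff

namespace Helper415.WM

variable {Ω : Set R3} {f : R3 → R3} {ψ φ : OpenPartialHomeomorph R3 R3}

/-- a continuous open mapping that is injective near a point is a local homeomorphism there -/
theorem locHomeo_of_inj {V : Set R3} (hV : IsOpen V) {x : R3} (hx : x ∈ V) (hf : ContinuousOn f V)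
    (hop : ∀ W ⊆ V, IsOpen W → IsOpen (f '' W)) (hinj : InjOn f V) : IsLocalHomeomorphOn f {x} := by
  intro y hy
  rw [mem_singleton_iff] at hy
  subst hy
  set e := (hinj.bijOn_image).toPartialEquiv f V (f '' V) with he
  have hes : e.source = V := rfl
  have hef : (e : R3 → R3) = f := rfl
  refine ⟨OpenPartialHomeomorph.ofContinuousOpenRestrict e (by rw [hes, hef]; exact hf) ?_
    (by rw [hes]; exact hV), hx, rfl⟩
  intro W hW
  obtain ⟨W', hW', rfl⟩ := isOpen_induced_iff.1 hW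
  have : (e.source.domRestrict ⇑e) '' (Subtype.val ⁻¹' W') = f '' (V ∩ W') := by
    ext z
    constructor
    · rintro ⟨⟨w, hw⟩, hw2, rfl⟩
      exact ⟨w, ⟨hw, hw2⟩, rfl⟩
    · rintro ⟨w, ⟨hw, hw2⟩, rfl⟩
      exact ⟨⟨w, hw⟩, hw2, rfl⟩
  rw [this]
  exact hop _ inter_subset_left (hV.inter hW')

theorem Fac.branch_eq (h : Fac Ω f ψ φ) : branch Ω f = {x | x ∈ Ω ∧ ψ x ∈ axis} := by
  ext x
  constructor
  · rintro ⟨hx, hb⟩
    refine ⟨hx, ?_⟩
    by_contra hcon
    apply hb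
    obtain ⟨W, hW, hxW, hinj⟩ := wind_injOn hcon
    set V := ψ.symm '' (ψ.target ∩ W) with hV
    have hVo : IsOpen V := ψ.isOpen_image_symm_of_subset_target (ψ.open_target.inter hW) inter_subset_left
    have hVΩ : V ⊆ Ω := by rintro _ ⟨y, hy, rfl⟩; exact h.symm_mem hy.1
    have hxV : x ∈ V := ⟨ψ x, ⟨h.maps hx, hxW⟩, h.left hx⟩
    refine locHomeo_of_inj hVo hxV (h.cont.mono hVΩ) (fun W' hW' => h.open_image W' (hW'.trans hVΩ)) ?_
    rintro _ ⟨y, hy, rfl⟩ _ ⟨y', hy', rfl⟩ hyy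
    have h1 := h.fiber (h.symm_mem hy.1) (h.symm_mem hy'.1) hyy
    rw [ψ.right_inv hy.1, ψ.right_inv hy'.1] at h1
    rw [hinj hy.2 hy'.2 h1]
  · rintro ⟨hx, hxa⟩
    refine ⟨hx, fun hloc => ?_⟩
    obtain ⟨e, hxe, hfe⟩ := hloc x rfl
    have hcs : ContinuousAt ψ.symm (ψ x) := ψ.symm.continuousAt (h.maps hx)
    have hN : ψ.symm ⁻¹' e.source ∈ 𝓝 (ψ x) := by
      refine hcs ?_
      rw [h.left hx]
      exact e.open_source.mem_nhds hxe
    obtain ⟨ρ, hρ, hρN⟩ := Metric.nhds_basis_ball.mem_iff.1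
      (inter_mem hN (ψ.open_target.mem_nhds (h.maps hx)))
    set s := ρ / 2 with hs
    have hspos : 0 < s := by positivity
    have hz1 : sh (ψ x) s ∈ ball (ψ x) ρ := by
      rw [mem_ball, dist_sh, abs_of_pos hspos]; linarith
    have hz2 : sh (ψ x) (-s) ∈ ball (ψ x) ρ := by
      rw [mem_ball, dist_sh, abs_neg, abs_of_pos hspos]; linarith
    have h1 := hρN hz1
    have h2 := hρN hz2
    have hw : wind (sh (ψ x) (-s)) = wind (sh (ψ x) s) := by
      rw [← flip_sh hxa, wind_flip]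
    have hff : f (ψ.symm (sh (ψ x) (-s))) = f (ψ.symm (sh (ψ x) s)) := by
      rw [h.eq _ (h.symm_mem h2.2), h.eq _ (h.symm_mem h1.2), ψ.right_inv h2.2, ψ.right_inv h1.2, hw]
    rw [hfe] at hff
    have h3 := e.injOn h2.1 h1.1 hff
    have h4 := ψ.symm.injOn (show sh (ψ x) (-s) ∈ ψ.symm.source from h2.2)
      (show sh (ψ x) s ∈ ψ.symm.source from h1.2) h3
    have h5 : sh (ψ x) (-s) 0 = sh (ψ x) s 0 := by rw [h4]
    rw [sh_zero, sh_zero] at h5
    linarith

theorem one_le_dimH {X : Type*} [MetricSpace X] {S : Set X} (hS : IsPreconnected S) {x y : X}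
    (hx : x ∈ S) (hy : y ∈ S) (hxy : x ≠ y) : 1 ≤ dimH S := by
  have h1 : LipschitzWith 1 (fun z => dist z x) := LipschitzWith.dist_left x
  have h2 := h1.dimH_image_le S
  have h3 : IsPreconnected ((fun z => dist z x) '' S) := hS.image _ h1.continuous.continuousOn
  have h4 : Icc (dist x x) (dist y x) ⊆ (fun z => dist z x) '' S :=
    h3.Icc_subset ⟨x, hx, rfl⟩ ⟨y, hy, rfl⟩
  have h5 : dimH (Icc (dist x x) (dist y x)) = 1 := by
    have h6 : (interior (Icc (dist x x) (dist y x))).Nonempty := by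
      rw [interior_Icc, dist_self]
      exact nonempty_Ioo.2 (dist_pos.2 hxy.symm)
    rw [Real.dimH_of_nonempty_interior h6]
    simp
  rw [← h5]
  exact (dimH_mono h4).trans h2

theorem Fac.dim_lower (h : Fac Ω f ψ φ) {N : Set R3} (hN : IsOpen N)
    (hne : (branch Ω f ∩ N).Nonempty) :
    1 ≤ dimH (branch Ω f ∩ N) ∧ 1 ≤ dimH (f '' (branch Ω f ∩ N)) := by
  obtain ⟨x, hxb, hxN⟩ := hne
  have hbr := h.branch_eq
  rw [hbr] at hxb
  obtain ⟨hx, hxa⟩ := hxb
  have hcs : ContinuousAt ψ.symm (ψ x) := ψ.symm.continuousAt (h.maps hx)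
  have hNn : ψ.symm ⁻¹' N ∈ 𝓝 (ψ x) := by
    refine hcs ?_
    rw [h.left hx]
    exact hN.mem_nhds hxN
  obtain ⟨ρ, hρ, hρN⟩ := Metric.nhds_basis_ball.mem_iff.1
    (inter_mem hNn (ψ.open_target.mem_nhds (h.maps hx)))
  -- the arc
  set c : ℝ → R3 := fun t => ψ x + EuclideanSpace.single 2 t with hc
  have hcc : Continuous c := by
    refine continuous_const.add ?_
    refine (PiLp.continuous_toLp 2 _).comp ?_
    exact continuous_pi fun i => by
      by_cases hi : i = 2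
      · subst hi
        have : (fun t : ℝ => (Pi.single (2 : Fin 3) t : Fin 3 → ℝ) 2) = id := by ext t; simp
        rw [this]; exact continuous_id
      · simpa [Pi.single_apply, hi] using continuous_const
  have hcd : ∀ t, dist (c t) (ψ x) = |t| := fun t => by
    rw [hc, dist_eq_norm, add_sub_cancel_left, PiLp.norm_single, Real.norm_eq_abs]
  have hca : ∀ t, c t ∈ axis := by
    intro t
    obtain ⟨h0, h1⟩ := axis_zero hxa
    show rad (c t) = 0
    have e0 : c t 0 = 0 := by rw [hc]; simp [h0]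
    have e1 : c t 1 = 0 := by rw [hc]; simp [h1]
    rw [rad, e0, e1]; simp
  have hcb : ∀ t ∈ Icc 0 (ρ / 2), c t ∈ ball (ψ x) ρ := by
    intro t ht
    rw [mem_ball, hcd, abs_of_nonneg ht.1]
    linarith [ht.2]
  set S := (fun t => ψ.symm (c t)) '' Icc 0 (ρ / 2) with hS
  have hScont : ContinuousOn (fun t => ψ.symm (c t)) (Icc 0 (ρ / 2)) :=
    ψ.symm.continuousOn.comp hcc.continuousOn fun t ht => (hρN (hcb t ht)).2
  have hSc : IsPreconnected S := isPreconnected_Icc.image _ hScont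
  have hSb : S ⊆ branch Ω f ∩ N := by
    rintro _ ⟨t, ht, rfl⟩
    have h1 := hρN (hcb t ht)
    refine ⟨?_, h1.1⟩
    rw [hbr]
    refine ⟨h.symm_mem h1.2, ?_⟩
    show ψ (ψ.symm (c t)) ∈ axis
    rw [ψ.right_inv h1.2]
    exact hca t
  have hSΩ : S ⊆ Ω := fun y hy => (hSb hy).1.1
  have h0m : (0 : ℝ) ∈ Icc 0 (ρ / 2) := ⟨le_rfl, by positivity⟩
  have h1m : ρ / 2 ∈ Icc 0 (ρ / 2) := ⟨by positivity, le_rfl⟩
  set p := ψ.symm (c 0) with hp
  set q := ψ.symm (c (ρ / 2)) with hq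
  have hpS : p ∈ S := ⟨0, h0m, rfl⟩
  have hqS : q ∈ S := ⟨ρ / 2, h1m, rfl⟩
  have hpq : p ≠ q := by
    intro hh
    have h3 := ψ.symm.injOn (show c 0 ∈ ψ.symm.source from (hρN (hcb 0 h0m)).2)
      (show c (ρ / 2) ∈ ψ.symm.source from (hρN (hcb _ h1m)).2) hh
    have h4 := hcd (ρ / 2)
    rw [← h3, hcd, abs_zero, abs_of_pos (by positivity)] at h4
    linarith
  refine ⟨(one_le_dimH hSc hpS hqS hpq).trans (dimH_mono hSb), ?_⟩
  have hfS : IsPreconnected (f '' S) := hSc.image _ (h.cont.mono hSΩ)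
  refine (one_le_dimH hfS (mem_image_of_mem f hpS) (mem_image_of_mem f hqS) ?_).trans
    (dimH_mono (image_mono hSb))
  intro hh
  have hqa : ψ q ∈ axis := by
    have := (hSb hqS).1
    rw [hbr] at this
    exact this.2
  exact hpq (h.inj_axis (hSΩ hqS) hqa p (hSΩ hpS) hh)

theorem Fac.dim_upper (h : Fac Ω f ψ φ) {g : R3 → (R3 →L[ℝ] R3)} {K₀ : ℝ}
    (hK₀ : 1 ≤ K₀) (hq : QReg Ω f g K₀) {K : ℝ} (hK : 1 ≤ K) (hKI : KI Ω g ≤ ENNReal.ofReal K)
    {E : Set R3} (hE : E ⊆ branch Ω f) :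
    dimH (f '' E) ≤ ENNReal.ofReal √(K / 2) * dimH E := by
  have hm : 0 < √(2 / K) := Real.sqrt_pos.2 (by positivity)
  set r : ℝ≥0 := ⟨√(2 / K), hm.le⟩ with hr
  have hrpos : 0 < r := hm
  have h1 : dimH (f '' E) ≤ dimH E / r := by
    refine dimH_image_le_of_locally_holder_on hrpos ?_
    intro x hx
    have hxb := hE hx
    rw [h.branch_eq] at hxb
    obtain ⟨C, r0, hr0, hC0, hsub, hmain⟩ := h.holder hK₀ hq hK hKI hxb.1 hxb.2
    set C' : ℝ≥0 := ⟨C, hC0⟩ with hC'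
    refine ⟨C', E ∩ closedBall x r0, inter_mem_nhdsWithin _ (closedBall_mem_nhds x hr0), ?_⟩
    intro p hp y hy
    have hya : ψ y ∈ axis := by
      have := hE hy.1
      rw [h.branch_eq] at this
      exact this.2
    have h2 := hmain y hy.2 hya p hp.2
    have e1 : (C' : ℝ≥0∞) = ENNReal.ofReal C := by
      rw [← ENNReal.ofReal_coe_nnreal]; rfl
    have e2 : ((r : ℝ≥0) : ℝ) = √(2 / K) := rfl
    rw [edist_dist, edist_dist, e1, e2, ENNReal.ofReal_rpow_of_nonneg dist_nonneg hm.le,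
      ← ENNReal.ofReal_mul hC0]
    exact ENNReal.ofReal_le_ofReal h2
  refine h1.trans (le_of_eq ?_)
  have h3 : ENNReal.ofReal √(K / 2) = (r : ℝ≥0∞)⁻¹ := by
    have h4 : √(K / 2) = (√(2 / K))⁻¹ := by
      rw [← Real.sqrt_inv]
      congr 1
      field_simp
    rw [h4, ENNReal.ofReal_inv_of_pos hm]
    congr 1
    rw [← ENNReal.ofReal_coe_nnreal]
    rfl
  rw [h3, ENNReal.div_eq_inv_mul]

theorem dimH_ne_top (E : Set R3) : dimH E ≠ ⊤ := by
  have h1 : dimH E ≤ dimH (univ : Set R3) := dimH_mono (subset_univ E)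
  have h2 : dimH (univ : Set R3) = 3 := by
    rw [Real.dimH_univ_eq_finrank]
    simp
  rw [h2] at h1
  exact ne_top_of_le_ne_top (by simp) h1

/-- if the dimension does not drop then the inner distortion is at least two -/
theorem Fac.two_le (h : Fac Ω f ψ φ) {g : R3 → (R3 →L[ℝ] R3)} {K₀ : ℝ}
    (hK₀ : 1 ≤ K₀) (hq : QReg Ω f g K₀) {E : Set R3} (hE : E ⊆ branch Ω f) (hE0 : dimH E ≠ 0)
    (hdim : dimH E ≤ dimH (f '' E)) : 2 ≤ KI Ω g := by
  by_contra hcon
  push Not at hcon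
  set K := max 1 (KI Ω g).toReal with hK
  have hK2 : K < 2 := by
    refine max_lt (by norm_num) ?_
    have h1 : (KI Ω g).toReal < (2 : ℝ≥0∞).toReal := (ENNReal.toReal_lt_toReal hcon.ne_top (by simp)).2 hcon
    simpa using h1
  have hKI : KI Ω g ≤ ENNReal.ofReal K := by
    rw [← ENNReal.ofReal_toReal hcon.ne_top]
    exact ENNReal.ofReal_le_ofReal (le_max_right _ _)
  have h1 := hdim.trans (h.dim_upper hK₀ hq (le_max_left _ _) hKI hE)
  have h2 : ENNReal.ofReal √(K / 2) < 1 := by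
    rw [← ENNReal.ofReal_one]
    refine (ENNReal.ofReal_lt_ofReal_iff one_pos).2 ?_
    rw [Real.sqrt_lt' one_pos]
    linarith
  have h3 : ENNReal.ofReal √(K / 2) * dimH E < 1 * dimH E :=
    ENNReal.mul_lt_mul_left hE0 (dimH_ne_top E) h2
  rw [one_mul] at h3
  exact absurd h1 (not_le.2 h3)

end Helper415.WM
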