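import Pool.Agent.Helper415_WM.Mult
import Pool.Agent.H248.BH.X4
import Pool.Agent.H248.BH.B01

/-! # The divergence identity -/

set_option autoImplicit false
open MeasureTheory Metric Set Filter Topology
open scoped ENNReal NNReal ContDiff

namespace Helper415.WM

open H248.ID H248.BH

variable {n : ℕ}

/-- divergence -/
noncomputable def dv (X : E n → E n) (y : E n) : ℝ := ∑ k, pd (fun z => X z k) k y

/-- gradient vector -/
noncomputable def gd (v : E n → ℝ) (x : E n) : E n := fun j => pd v j x

theorem div_identity (hn : 2 ≤ n) {U : Set (E n)} {f : E n → E n}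
    {Df : E n → Matrix (Fin n) (Fin n) ℝ} {K : ℝ} (H : QR U f Df K) {y : E n} {R : ℝ}
    (hC : IsCompact (pre U f y R)) {v : E n → ℝ} (hv : ContDiff ℝ 1 v) {X : E n → E n}
    (hX : ContDiff ℝ 1 X) (hX0 : ∀ z, z ∉ ball y R → X =ᶠ[𝓝 z] 0) :
    IntegrableOn (fun x => v x * dv X (f x) * (Df x).det) (pre U f y R) ∧
    IntegrableOn (fun x => (Df x).adjugate.transpose.mulVec (gd v x) ⬝ᵥ X (f x)) (pre U f y R) ∧
    ∫ x in pre U f y R, v x * dv X (f x) * (Df x).det =
      - ∫ x in pre U f y R, (Df x).adjugate.transpose.mulVec (gd v x) ⬝ᵥ X (f x) := by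
  set C := pre U f y R with hCdef
  have hCU : C ⊆ U := fun x hx => hx.1
  have hXk : ∀ k, ContDiff ℝ 1 fun z => X z k := fun k => (contDiff_pi.1 hX) k
  let Ψ : Fin n → E n × E n → ℝ := fun k p => v p.1 * X p.2 k
  have hΨ : ∀ k, ContDiff ℝ 1 (Ψ k) := fun k =>
    (hv.comp contDiff_fst).mul ((hXk k).comp contDiff_snd)
  have hfd : ∀ k x z (a b : E n), fderiv ℝ (Ψ k) (x, z) (a, b) =
      v x * fderiv ℝ (fun z => X z k) z b + X z k * fderiv ℝ v x a := by
    intro k x z a b
    have h1 : HasFDerivAt (fun p : E n × E n => v p.1)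
        ((fderiv ℝ v x).comp (ContinuousLinearMap.fst ℝ (E n) (E n))) (x, z) := by
      have hd : HasFDerivAt v (fderiv ℝ v ((x, z) : E n × E n).1) ((x, z) : E n × E n).1 :=
        (hv.differentiable (by simp) _).hasFDerivAt
      exact hd.comp (x, z) (hasFDerivAt_fst (𝕜 := ℝ) (E := E n) (F := E n))
    have h2 : HasFDerivAt (fun p : E n × E n => X p.2 k)
        ((fderiv ℝ (fun z => X z k) z).comp (ContinuousLinearMap.snd ℝ (E n) (E n))) (x, z) := by
      have hd : HasFDerivAt (fun z => X z k) (fderiv ℝ (fun z => X z k) ((x, z) : E n × E n).2)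
          ((x, z) : E n × E n).2 := ((hXk k).differentiable (by simp) _).hasFDerivAt
      exact hd.comp (x, z) (hasFDerivAt_snd (𝕜 := ℝ) (E := E n) (F := E n))
    have h3 : HasFDerivAt (Ψ k) _ (x, z) := h1.mul h2
    rw [h3.fderiv]
    simp
  have hD0 : ∀ k z, z ∉ ball y R → X z k = 0 ∧ fderiv ℝ (fun z => X z k) z = 0 := by
    intro k z hz
    have h1 := hX0 z hz
    have h2 : (fun z => X z k) =ᶠ[𝓝 z] fun _ => 0 := by
      filter_upwards [h1] with w hw
      rw [hw]; rfl
    refine ⟨h2.self_of_nhds, ?_⟩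
    rw [h2.fderiv_eq]
    simp
  have hsupp : ∀ k, ∀ x ∈ U \ C, Ψ k (x, f x) = 0 ∧ fderiv ℝ (Ψ k) (x, f x) = 0 := by
    intro k x hx
    have hfx : f x ∉ ball y R := fun hh => hx.2 ⟨hx.1, ball_subset_closedBall hh⟩
    obtain ⟨e1, e2⟩ := hD0 k _ hfx
    constructor
    · show v x * X (f x) k = 0
      rw [e1, mul_zero]
    · ext w
      · show fderiv ℝ (Ψ k) (x, f x) (w, 0) = 0
        rw [hfd, e1, e2]; simp
      · show fderiv ℝ (Ψ k) (x, f x) (0, w) = 0
        rw [hfd, e1, e2]; simp
  have hid := fun k => null_identity hn H hC hCU (hΨ k) (hsupp k) k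
  -- integrability
  have hfc : ContinuousOn f C := H.cont.mono hCU
  have hbdd : ∀ g : E n → E n → ℝ, Continuous (Function.uncurry g) →
      (AEStronglyMeasurable (fun x => g x (f x)) (volume.restrict C)) ∧
      ∃ b, ∀ᵐ x ∂(volume.restrict C), ‖g x (f x)‖ ≤ b := by
    intro g hg
    have h1 : ContinuousOn (fun x => g x (f x)) C :=
      hg.comp_continuousOn (continuousOn_id.prodMk hfc)
    obtain ⟨b, hb⟩ := hC.exists_bound_of_continuousOn h1
    refine ⟨h1.aestronglyMeasurable hC.measurableSet, b, ?_⟩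
    filter_upwards [ae_restrict_mem hC.measurableSet] with x hx using hb x hx
  have hdet : IntegrableOn (fun x => (Df x).det) C := det_intOn hn H hC hCU
  obtain ⟨c, hc, hadj⟩ := X1.X1_sn_adj_le (n := n) (by omega)
  have hone : IntegrableOn (fun _ : E n => (1 : ℝ)) C := by
    rw [integrableOn_const_iff]; right; exact hC.measure_lt_top
  have hadjint : ∀ i j, IntegrableOn (fun x => (Df x).adjugate i j) C := by
    intro i j
    refine Integrable.mono' ((hone.add (H.int C hC hCU)).const_mul c)
      (X1.X1_meas_adj H.meas_D i j).aestronglyMeasurable (Eventually.of_forall fun x => ?_)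
    exact (X1.X1_abs_le_sn _ i j).trans ((hadj (Df x)).trans
        (mul_le_mul_of_nonneg_left (X1.X1_pow_le (X1.X1_sn_nonneg _)) hc.le))
  have hpdX : ∀ k, Continuous (pd (fun z => X z k) k) := fun k => continuous_pd (hXk k) k
  have hpdv : ∀ k, Continuous (pd v k) := fun k => continuous_pd hv k
  have hvc := hv.continuous
  have hXc := hX.continuous
  have hi1 : ∀ k, IntegrableOn (fun x => v x * pd (fun z => X z k) k (f x) * (Df x).det) C := by
    intro k
    obtain ⟨h1, b, h2⟩ := hbdd (fun x z => v x * pd (fun z => X z k) k z) (by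
      exact (hvc.comp continuous_fst).mul ((hpdX k).comp continuous_snd))
    exact Integrable.bdd_mul (c := b) hdet h1 h2
  have hi2 : ∀ k j, IntegrableOn (fun x => (Df x).adjugate j k * (X (f x) k * pd v j x)) C := by
    intro k j
    obtain ⟨h1, b, h2⟩ := hbdd (fun x z => X z k * pd v j x) (by
      exact (((continuous_apply k).comp hXc).comp continuous_snd).mul ((hpdv j).comp continuous_fst))
    exact Integrable.mul_bdd (c := b) (hadjint j k) h1 h2
  have e1 : ∀ k x, fderiv ℝ (Ψ k) (x, f x) (0, Pi.single k 1) * (Df x).det =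
      v x * pd (fun z => X z k) k (f x) * (Df x).det := by
    intro k x
    rw [hfd]
    simp [pd]
  have e2 : ∀ k x, ∑ j, (Df x).adjugate j k * fderiv ℝ (Ψ k) (x, f x) (Pi.single j 1, 0) =
      ∑ j, (Df x).adjugate j k * (X (f x) k * pd v j x) := by
    intro k x
    refine Finset.sum_congr rfl fun j _ => ?_
    rw [hfd]
    simp [pd]
  simp only [e1, e2] at hid
  have s1 : ∀ x, v x * dv X (f x) * (Df x).det =
      ∑ k, v x * pd (fun z => X z k) k (f x) * (Df x).det := by
    intro x
    unfold dv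
    rw [Finset.mul_sum, Finset.sum_mul]
  have s2 : ∀ x, (Df x).adjugate.transpose.mulVec (gd v x) ⬝ᵥ X (f x) =
      ∑ k, ∑ j, (Df x).adjugate j k * (X (f x) k * pd v j x) := by
    intro x
    simp only [dotProduct, Matrix.mulVec, Matrix.transpose_apply, gd]
    refine Finset.sum_congr rfl fun k _ => ?_
    rw [Finset.sum_mul]
    refine Finset.sum_congr rfl fun j _ => ?_
    ring
  refine ⟨?_, ?_, ?_⟩
  · simp only [s1]
    exact integrable_finsetSum _ fun k _ => hi1 k
  · simp only [s2]
    exact integrable_finsetSum _ fun k _ => integrable_finsetSum _ fun j _ => hi2 k j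
  · simp only [s1, s2]
    rw [integral_finsetSum _ fun k _ => hi1 k,
      integral_finsetSum _ fun k _ => integrable_finsetSum _ fun j _ => hi2 k j,
      ← Finset.sum_neg_distrib]
    exact Finset.sum_congr rfl fun k _ => hid k

end Helper415.WM
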