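import Mathlib

/-! # The winding map, inner distortion and the branch set: definitions -/

set_option autoImplicit false
open MeasureTheory Metric Set Filter Topology
open scoped ENNReal NNReal ContDiff

namespace Helper415.WM

/-- Euclidean three space -/
abbrev R3 := EuclideanSpace ℝ (Fin 3)

/-- distance to the third axis -/
noncomputable def rad (x : R3) : ℝ := √(x 0 ^ 2 + x 1 ^ 2)

/-- the winding map: in cylindrical coordinates it doubles the angle around the third axis -/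
noncomputable def wind (x : R3) : R3 :=
  !₂[(x 0 ^ 2 - x 1 ^ 2) / rad x, 2 * x 0 * x 1 / rad x, x 2]

/-- linear maps of three space -/
abbrev L3 := R3 →L[ℝ] R3

/-- determinant -/
noncomputable def dt (A : L3) : ℝ := A.det

/-- operator norm -/
noncomputable def nm (A : L3) : ℝ := ‖A‖

/-- value of a linear map -/
noncomputable def ap (A : L3) (v : R3) : R3 := A v

/-- inverse linear map -/
noncomputable def iv (A : L3) : L3 := A.inverse

/-- standard basis vector -/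
noncomputable def sg (i : Fin 3) : R3 := EuclideanSpace.single i 1

/-- partial derivative -/
noncomputable def pdv (φ : R3 → ℝ) (i : Fin 3) (x : R3) : ℝ := fderiv ℝ φ x (sg i)

/-- integral over a set of a vector valued function -/
noncomputable def vint (Ω : Set R3) (u : R3 → R3) : R3 := ∫ x in Ω, u x

/-- measurability on `Ω` -/
def MeasD (Ω : Set R3) (g : R3 → L3) : Prop := AEStronglyMeasurable g (volume.restrict Ω)

/-- local integrability of the third power of the norm -/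
def LocL3 (Ω : Set R3) (g : R3 → L3) : Prop :=
  ∀ C : Set R3, IsCompact C → C ⊆ Ω → IntegrableOn (fun x => nm (g x) ^ 3) C

/-- `g` is the weak derivative of `f` on `Ω` -/
def WeakD (Ω : Set R3) (f : R3 → R3) (g : R3 → L3) : Prop :=
  ∀ φ : R3 → ℝ, ContDiff ℝ 1 φ → HasCompactSupport φ → tsupport φ ⊆ Ω → ∀ i : Fin 3,
      vint Ω (fun x => pdv φ i x • f x) = - vint Ω (fun x => φ x • ap (g x) (sg i))

/-- `|g|³ ≤ K₀ det g` almost everywhere on `Ω` -/
def DistK (Ω : Set R3) (g : R3 → L3) (K₀ : ℝ) : Prop :=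
  ∀ᵐ x ∂(volume.restrict Ω), nm (g x) ^ 3 ≤ K₀ * dt (g x)

/-- `f` is quasiregular on `Ω` with weak derivative `g`: it is continuous, `g` is locally in `L³`
and `|g|³ ≤ K₀ det g` almost everywhere -/
structure QReg (Ω : Set R3) (f : R3 → R3) (g : R3 → L3) (K₀ : ℝ) : Prop where
  cont : ContinuousOn f Ω
  meas : MeasD Ω g
  int : LocL3 Ω g
  weak : WeakD Ω f g
  dist : DistK Ω g K₀

/-- inner distortion of a linear map: `|cof A|³ / (det A)² = (det A) |A⁻¹|³` if `det A > 0`, and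
`1` otherwise -/
noncomputable def linKI (A : L3) : ℝ≥0∞ :=
  open Classical in
  if 0 < dt A then ENNReal.ofReal (dt A * nm (iv A) ^ 3) else 1

/-- inner distortion of a mapping with derivative `g` on `Ω` -/
noncomputable def KI (Ω : Set R3) (g : R3 → L3) : ℝ≥0∞ :=
  essSup (fun x => linKI (g x)) (volume.restrict Ω)

/-- branch set: the points of `Ω` at which `f` is not a local homeomorphism -/
def branch (Ω : Set R3) (f : R3 → R3) : Set R3 := {x | x ∈ Ω ∧ ¬ IsLocalHomeomorphOn f {x}}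

theorem linKI_bound {A : R3 →L[ℝ] R3} {K : ℝ} (hK : 0 ≤ K) (h : linKI A ≤ ENNReal.ofReal K)
    (hdet : 0 ≤ LinearMap.det ((A : R3 →ₗ[ℝ] R3))) (v : R3) (hv : ‖v‖ = 1) :
    LinearMap.det ((A : R3 →ₗ[ℝ] R3)) ≤ K * ‖A v‖ ^ 3 := by
  rcases hdet.eq_or_lt with h0 | h0
  · rw [← h0]; positivity
  rw [linKI, if_pos (show 0 < dt A from h0), ENNReal.ofReal_le_ofReal_iff hK] at h
  have hu : IsUnit (LinearMap.det ((A : R3 →ₗ[ℝ] R3))) := isUnit_iff_ne_zero.2 h0.ne'
  set e : R3 ≃L[ℝ] R3 := (LinearEquiv.ofIsUnitDet (f := (A : R3 →ₗ[ℝ] R3))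
    (v := (EuclideanSpace.basisFun (Fin 3) ℝ).toBasis)
    (v' := (EuclideanSpace.basisFun (Fin 3) ℝ).toBasis)
    (by rw [LinearMap.det_toMatrix]; exact hu)).toContinuousLinearEquiv with he
  have heA : (e : R3 →L[ℝ] R3) = A := by ext x; rfl
  have hinv : A.inverse = (e.symm : R3 →L[ℝ] R3) := by
    rw [← heA, ContinuousLinearMap.inverse_equiv]
  have h1 : v = A.inverse (A v) := by
    rw [hinv, ← heA]; simp
  have h2 : 1 ≤ ‖A.inverse‖ * ‖A v‖ := by
    calc (1:ℝ) = ‖v‖ := hv.symm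
      _ = ‖A.inverse (A v)‖ := by rw [← h1]
      _ ≤ _ := A.inverse.le_opNorm _
  have h3 : 1 ≤ (‖A.inverse‖ * ‖A v‖) ^ 3 := one_le_pow₀ h2
  calc LinearMap.det ((A : R3 →ₗ[ℝ] R3)) ≤
      LinearMap.det ((A : R3 →ₗ[ℝ] R3)) * (‖A.inverse‖ * ‖A v‖) ^ 3 :=
        le_mul_of_one_le_right h0.le h3
    _ = (LinearMap.det ((A : R3 →ₗ[ℝ] R3)) * ‖A.inverse‖ ^ 3) * ‖A v‖ ^ 3 := by ring
    _ ≤ K * ‖A v‖ ^ 3 := mul_le_mul_of_nonneg_right h (by positivity)

theorem QReg_inner {Ω : Set R3} {f : R3 → R3} {g : R3 → (R3 →L[ℝ] R3)} {K₀ : ℝ}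
    (h : QReg Ω f g K₀) (hK₀ : 0 < K₀) {K : ℝ} (hK : 0 ≤ K) (hKI : KI Ω g ≤ ENNReal.ofReal K) :
    ∀ᵐ x ∂(volume.restrict Ω), ∀ v : R3, ‖v‖ = 1 →
      LinearMap.det ((g x : R3 →ₗ[ℝ] R3)) ≤ K * ‖g x v‖ ^ 3 := by
  have h1 : ∀ᵐ x ∂(volume.restrict Ω), linKI (g x) ≤ KI Ω g := ENNReal.ae_le_essSup _
  filter_upwards [h1, h.dist] with x hx hx2
  intro v hv
  refine linKI_bound hK (hx.trans hKI) ?_ v hv
  by_contra hcon
  push Not at hcon
  have h3 : 0 ≤ nm (g x) ^ 3 := pow_nonneg (norm_nonneg _) 3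
  have h4 : dt (g x) < 0 := hcon
  nlinarith

end Helper415.WM
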