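import Pool.Agent.Helper415_WM.Growth2
import Pool.Agent.Helper415_WM.Setup
import Pool.Agent.H248.BH.F2

/-! # Growth estimate in Euclidean form -/

set_option autoImplicit false
open MeasureTheory Metric Set Filter Topology
open scoped ENNReal NNReal ContDiff

namespace Helper415.WM

open H248.ID H248.BH

theorem QReg.mono {Ω U : Set R3} {f : R3 → R3} {g : R3 → (R3 →L[ℝ] R3)} {K₀ : ℝ}
    (h : QReg Ω f g K₀) (hΩ : IsOpen Ω) (hUΩ : U ⊆ Ω) : QReg U f g K₀ where
  cont := h.cont.mono hUΩ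
  meas := h.meas.mono_measure (Measure.restrict_mono hUΩ le_rfl)
  int := fun C hC hCU => h.int C hC (hCU.trans hUΩ)
  weak := fun φ h1 h2 h3 i => by
    show ∫ x in U, (fderiv ℝ φ x (EuclideanSpace.single i 1)) • f x =
      - ∫ x in U, φ x • g x (EuclideanSpace.single i 1)
    have e1 : ∫ x in U, (fderiv ℝ φ x (EuclideanSpace.single i 1)) • f x =
        ∫ x in Ω, (fderiv ℝ φ x (EuclideanSpace.single i 1)) • f x := by
      refine (setIntegral_eq_of_subset_of_forall_sdiff_eq_zero hΩ.measurableSet hUΩ ?_).symm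
      intro x hx
      have hxt : x ∉ tsupport φ := fun hh => hx.2 (h3 hh)
      have : fderiv ℝ φ x = 0 := by
        have h4 : φ =ᶠ[𝓝 x] 0 := notMem_tsupport_iff_eventuallyEq.1 hxt
        rw [h4.fderiv_eq]; simp
      rw [this]; simp
    have e2 : ∫ x in U, φ x • g x (EuclideanSpace.single i 1) =
        ∫ x in Ω, φ x • g x (EuclideanSpace.single i 1) := by
      refine (setIntegral_eq_of_subset_of_forall_sdiff_eq_zero hΩ.measurableSet hUΩ ?_).symm
      intro x hx
      have hxt : x ∉ tsupport φ := fun hh => hx.2 (h3 hh)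
      rw [image_eq_zero_of_notMem_tsupport hxt, zero_smul]
    rw [e1, e2]
    exact h.weak φ h1 h2 (h3.trans hUΩ) i
  dist := ae_restrict_of_ae_restrict_of_subset hUΩ h.dist

/-- coordinates as a homeomorphism -/
noncomputable def toYH (n : ℕ) : E n ≃ₜ Y n where
  toFun := toY
  invFun := fun y => WithLp.ofLp y
  left_inv := fun _ => rfl
  right_inv := fun _ => rfl
  continuous_toFun := PiLp.continuous_toLp 2 _
  continuous_invFun := PiLp.continuous_ofLp 2 _

theorem en_dist {n : ℕ} (x y : E n) : en (x - y) = dist (toY x) (toY y) := by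
  rw [dist_eq_norm]; rfl

theorem compact_pre' {α β : Type*} [TopologicalSpace α] [TopologicalSpace β] [T2Space α]
    {U : Set α} {f : α → β} (hf : ContinuousOn f U) {A B : Set β}
    (hC : IsCompact {x | x ∈ U ∧ f x ∈ A}) (hB : IsClosed B) (hBA : B ⊆ A) :
    IsCompact {x | x ∈ U ∧ f x ∈ B} := by
  have hCU : {x | x ∈ U ∧ f x ∈ A} ⊆ U := fun x hx => hx.1
  have h1 : {x | x ∈ U ∧ f x ∈ B} = {x | x ∈ U ∧ f x ∈ A} ∩ f ⁻¹' B := by
    ext x
    constructor
    · rintro ⟨h1, h2⟩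
      exact ⟨⟨h1, hBA h2⟩, h2⟩
    · rintro ⟨h1, h2⟩
      exact ⟨h1.1, h2⟩
  rw [h1]
  exact IsCompact.of_isClosed_subset hC
    ((hf.mono hCU).preimage_isClosed_of_isClosed hC.isClosed hB) inter_subset_left

theorem nonconst_of_open {U : Set (E 3)} (hU : IsOpen U) {f : E 3 → E 3}
    (hop : ∀ V ⊆ U, IsOpen V → IsOpen (f '' V)) {x1 : E 3} (hx1 : x1 ∈ U) (ρ : ℝ) (hρ : 0 < ρ) :
    ∃ x ∈ closedBall x1 ρ, f x ≠ f x1 := by
  by_contra hcon
  push Not at hcon
  have h1 : f '' (ball x1 ρ ∩ U) = {f x1} := by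
    ext y
    constructor
    · rintro ⟨x, hx, rfl⟩
      exact hcon x (ball_subset_closedBall hx.1)
    · rintro rfl
      exact ⟨x1, ⟨mem_ball_self hρ, hx1⟩, rfl⟩
  have h2 := hop (ball x1 ρ ∩ U) inter_subset_right (isOpen_ball.inter hU)
  rw [h1] at h2
  obtain ⟨ε, hε, hε1⟩ := Metric.isOpen_iff.1 h2 (f x1) rfl
  have h3 : f x1 + Pi.single 0 (ε / 2) ∈ ball (f x1) ε := by
    rw [mem_ball, dist_eq_norm, add_sub_cancel_left, Pi.norm_single, Real.norm_of_nonneg (by positivity)]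
    linarith
  have h4 := hε1 h3
  have h5 := congrFun (mem_singleton_iff.1 h4) 0
  simp at h5
  linarith

theorem holder_Y {U : Set R3} (hU : IsOpen U) {f : R3 → R3} {g : R3 → (R3 →L[ℝ] R3)} {K₀ : ℝ}
    (hK₀ : 1 ≤ K₀) (h : QReg U f g K₀) (hcl : ContinuousOn f (closure U)) {K : ℝ} (hK : 1 ≤ K)
    (hI : ∀ᵐ x ∂(volume.restrict U), ∀ v : R3, ‖v‖ = 1 →
      LinearMap.det ((g x : R3 →ₗ[ℝ] R3)) ≤ K * ‖g x v‖ ^ 3)
    (hop : ∀ V ⊆ U, IsOpen V → IsOpen (f '' V)) {xs : R3} (hxs : xs ∈ U) {R : ℝ} (hR : 0 < R)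
    (hC : IsCompact {x | x ∈ U ∧ f x ∈ closedBall (f xs) R})
    (hinjs : ∀ x ∈ U, f x = f xs → x = xs)
    {V1 V2 : Set R3} (hV1 : IsOpen V1) (hV2 : IsOpen V2) (hV1U : V1 ⊆ U) (hV2U : V2 ⊆ U)
    (hdis : Disjoint V1 V2) {x1 x2 : R3} (hx1 : x1 ∈ V1) (hx2 : x2 ∈ V2) (hx12 : f x2 = f x1)
    {δ : ℝ} (hδ : 0 < δ) (hyδ : closedBall (f x1) δ ⊆ closedBall (f xs) (R / 3))
    (hC1 : IsCompact {x | x ∈ V1 ∧ f x ∈ closedBall (f x1) δ})
    (hC2 : IsCompact {x | x ∈ V2 ∧ f x ∈ closedBall (f x1) δ}) :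
    ∃ C r0 : ℝ, 0 < r0 ∧ 0 ≤ C ∧ closedBall xs r0 ⊆ U ∧
      ∀ p ∈ closedBall xs r0, (∀ x ∈ U, f x = f p → x = p) →
      ∀ x ∈ closedBall xs r0, dist (f x) (f p) ≤ C * dist x p ^ (√(2 / K)) := by
  obtain ⟨fe, Df, H, hfe⟩ := conv_qr (n := 3) (by norm_num) hU hcl h.meas h.int h.weak hK₀ h.dist hK hI
  set T := toYH 3 with hT
  set U' : Set (E 3) := toY ⁻¹' U with hU'
  have hfe' : ∀ x ∈ U', toY (fe x) = f (toY x) := fun x hx => hfe x hx
  have himg : ∀ V' ⊆ U', fe '' V' = T ⁻¹' (f '' (T '' V')) := by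
    intro V' hV'
    ext y
    constructor
    · rintro ⟨x, hx, rfl⟩
      exact ⟨toY x, ⟨x, hx, rfl⟩, (hfe' x (hV' hx)).symm⟩
    · rintro ⟨_, ⟨x, hx, rfl⟩, hxy⟩
      refine ⟨x, hx, ?_⟩
      apply T.injective
      show toY (fe x) = toY y
      rw [hfe' x (hV' hx)]
      exact hxy
  have hop' : ∀ V' ⊆ U', IsOpen V' → IsOpen (fe '' V') := by
    intro V' hV' hV'o
    rw [himg V' hV']
    refine (hop (T '' V') ?_ (T.isOpenMap V' hV'o)).preimage T.continuous
    rintro _ ⟨x, hx, rfl⟩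
    exact hV' hx
  set ys' : E 3 := T.symm (f xs) with hys'
  set xs' : E 3 := T.symm xs with hxs'
  have hxsY : toY xs' = xs := rfl
  have hxsU : xs' ∈ U' := hxs
  have hfxs : fe xs' = ys' := by
    apply T.injective
    show toY (fe xs') = f xs
    rw [hfe' xs' hxsU, hxsY]
  -- compactness transfer
  have hcomp : ∀ (V : Set R3) (V' : Set (E 3)) (hVV : V' = toY ⁻¹' V) (_ : V ⊆ U) (y : R3) (y' : E 3)
      (_ : toY y' = y) (r : ℝ), IsCompact {x | x ∈ V ∧ f x ∈ closedBall y r} →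
      IsCompact (pre V' fe y' (r / 3)) := by
    intro V V' hVV hVU y y' hy r hcc
    have h1 : IsCompact {x : E 3 | x ∈ V' ∧ fe x ∈ {z | en (z - y') ≤ r}} := by
      have h2 : {x : E 3 | x ∈ V' ∧ fe x ∈ {z | en (z - y') ≤ r}} =
          T ⁻¹' {x | x ∈ V ∧ f x ∈ closedBall y r} := by
        ext x
        rw [hVV]
        constructor
        · rintro ⟨h3, h4⟩
          refine ⟨h3, ?_⟩
          have h5 : en (fe x - y') ≤ r := h4
          rw [en_dist, hfe' x (hVU h3), hy] at h5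
          exact h5
        · rintro ⟨h3, h4⟩
          refine ⟨h3, ?_⟩
          show en (fe x - y') ≤ r
          rw [en_dist, hfe' x (hVU h3), hy]
          exact h4
      rw [h2]
      exact T.isCompact_preimage.2 hcc
    have hV'U : V' ⊆ U' := by rw [hVV]; exact fun x hx => hVU hx
    refine compact_pre' (H.cont.mono hV'U) h1 isClosed_closedBall ?_
    intro z hz
    show en (z - y') ≤ r
    rw [mem_closedBall, dist_eq_norm] at hz
    have := en_le_norm (z - y')
    push_cast at this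
    linarith
  have hC' : IsCompact (pre U' fe (fe xs') (R / 3)) :=
    hcomp U U' rfl subset_rfl (f xs) (fe xs') (by rw [hfxs]; rfl) R hC
  set x1' : E 3 := T.symm x1 with hx1'
  set x2' : E 3 := T.symm x2 with hx2'
  set V1' : Set (E 3) := toY ⁻¹' V1 with hV1'
  set V2' : Set (E 3) := toY ⁻¹' V2 with hV2'
  have hx1U : x1' ∈ U' := hV1U hx1
  have hx2U : x2' ∈ U' := hV2U hx2
  have hfx1 : toY (fe x1') = f x1 := hfe' x1' hx1U
  have hfx2 : toY (fe x2') = f x1 := (hfe' x2' hx2U).trans hx12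
  have hfx12 : fe x2' = fe x1' := by
    apply T.injective
    show toY (fe x2') = toY (fe x1')
    rw [hfx1, hfx2]
  have hC1' := hcomp V1 V1' rfl hV1U (f x1) (fe x1') hfx1 δ hC1
  have hC2' := hcomp V2 V2' rfl hV2U (f x1) (fe x1') hfx1 δ hC2
  have hTc : Continuous (toY : E 3 → Y 3) := T.continuous
  obtain ⟨d, hd, hM⟩ := mult_two (n := 3) (by norm_num) H (by positivity : 0 < R / 3) hC'
    (hV1.preimage hTc) (hV2.preimage hTc) (fun x hx => hV1U hx) (fun x hx => hV2U hx)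
    (hdis.preimage _) (y1 := fe x1') (δ := δ / 3) (by positivity)
    (by
      intro z hz
      have h1 : toY z ∈ closedBall (f x1) δ := by
        rw [mem_closedBall, ← hfx1, ← en_dist]
        rw [mem_closedBall, dist_eq_norm] at hz
        have := en_le_norm (z - fe x1')
        push_cast at this
        linarith
      have h2 := hyδ h1
      rw [mem_closedBall] at h2 ⊢
      rw [dist_eq_norm]
      refine (norm_le_en _).trans ?_
      rw [en_dist, hfe' xs' hxsU]
      exact h2)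
    hC1' hC2' (x1 := x1') (x2 := x2') hx1 hx2 (mem_ball_self (by positivity))
    (by rw [hfx12]; exact mem_ball_self (by positivity))
    (fun ρ hρ => nonconst_of_open H.isOpen hop' hx1U ρ hρ)
    (fun ρ hρ => nonconst_of_open H.isOpen hop' hx2U ρ hρ)
  have hinjs' : ∀ x ∈ U', fe x = fe xs' → x = xs' := by
    intro x hx hxx
    apply T.injective
    show toY x = xs
    refine hinjs (toY x) hx ?_
    rw [← hfe' x hx, hxx, hfe' xs' hxsU]
    rfl
  obtain ⟨C, r0, hr0, hC0, hsub, hmain⟩ := growth_local H (by linarith) hop' hxsU (by positivity) hC' hd hM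
    hinjs'
  refine ⟨C, r0, hr0, hC0, ?_, ?_⟩
  · intro x hx
    refine hsub (T.symm x) ?_
    rw [en_dist]
    exact hx
  · intro p hp hpinj x hx
    have hpU : T.symm p ∈ U' := hsub (T.symm p) (by rw [en_dist]; exact hp)
    have hxU : T.symm x ∈ U' := hsub (T.symm x) (by rw [en_dist]; exact hx)
    have h1 := hmain (T.symm p) (by rw [en_dist]; exact hp) ?_ (T.symm x) (by rw [en_dist]; exact hx)
    · rw [en_dist, en_dist, hfe' _ hpU, hfe' _ hxU] at h1
      exact h1
    · intro x' hx' hxx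
      apply T.injective
      show toY x' = p
      refine hpinj (toY x') hx' ?_
      rw [← hfe' x' hx', hxx, hfe' _ hpU]
      rfl

end Helper415.WM
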