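import Pool.Agent.Helper415_WM.Wind
import Pool.Agent.Helper415_WM.HolderY

/-! # Mappings equivalent to the winding map -/

set_option autoImplicit false
open MeasureTheory Metric Set Filter Topology
open scoped ENNReal NNReal ContDiff

namespace Helper415.WM

/-- `f = φ ∘ w ∘ ψ` on `Ω` -/
structure Fac (Ω : Set R3) (f : R3 → R3) (ψ φ : OpenPartialHomeomorph R3 R3) : Prop where
  src : ψ.source = Ω
  img : wind '' ψ.target ⊆ φ.source
  eq : ∀ x ∈ Ω, f x = φ (wind (ψ x))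

variable {Ω : Set R3} {f : R3 → R3} {ψ φ : OpenPartialHomeomorph R3 R3}

theorem Fac.isOpen (h : Fac Ω f ψ φ) : IsOpen Ω := h.src ▸ ψ.open_source

theorem Fac.maps (h : Fac Ω f ψ φ) {x : R3} (hx : x ∈ Ω) : ψ x ∈ ψ.target :=
  ψ.map_source (by rw [h.src]; exact hx)

theorem Fac.maps2 (h : Fac Ω f ψ φ) {x : R3} (hx : x ∈ Ω) : wind (ψ x) ∈ φ.source :=
  h.img ⟨ψ x, h.maps hx, rfl⟩

theorem Fac.left (h : Fac Ω f ψ φ) {x : R3} (hx : x ∈ Ω) : ψ.symm (ψ x) = x :=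
  ψ.left_inv (by rw [h.src]; exact hx)

theorem Fac.symm_mem (h : Fac Ω f ψ φ) {y : R3} (hy : y ∈ ψ.target) : ψ.symm y ∈ Ω := by
  rw [← h.src]; exact ψ.map_target hy

theorem Fac.open_image (h : Fac Ω f ψ φ) (V : Set R3) (hV : V ⊆ Ω) (hVo : IsOpen V) :
    IsOpen (f '' V) := by
  have h1 : f '' V = φ '' (wind '' (ψ '' V)) := by
    ext y
    constructor
    · rintro ⟨x, hx, rfl⟩
      exact ⟨_, ⟨_, ⟨x, hx, rfl⟩, rfl⟩, (h.eq x (hV hx)).symm⟩
    · rintro ⟨_, ⟨_, ⟨x, hx, rfl⟩, rfl⟩, rfl⟩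
      exact ⟨x, hx, h.eq x (hV hx)⟩
  rw [h1]
  refine φ.isOpen_image_of_subset_source (isOpenMap_wind _
    (ψ.isOpen_image_of_subset_source hVo (by rw [h.src]; exact hV))) ?_
  refine Subset.trans (image_mono ?_) h.img
  rintro _ ⟨x, hx, rfl⟩
  exact h.maps (hV hx)

theorem Fac.cont (h : Fac Ω f ψ φ) : ContinuousOn f Ω := by
  have h1 : ContinuousOn (fun x => φ (wind (ψ x))) Ω := by
    refine φ.continuousOn.comp (wind_cont.comp_continuousOn (ψ.continuousOn.mono ?_)) ?_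
    · rw [h.src]
    · intro x hx; exact h.maps2 hx
  exact h1.congr fun x hx => h.eq x hx

theorem Fac.fiber (h : Fac Ω f ψ φ) {x y : R3} (hx : x ∈ Ω) (hy : y ∈ Ω) (hxy : f x = f y) :
    wind (ψ x) = wind (ψ y) := by
  rw [h.eq x hx, h.eq y hy] at hxy
  exact φ.injOn (h.maps2 hx) (h.maps2 hy) hxy

theorem Fac.inj_axis (h : Fac Ω f ψ φ) {p : R3} (hp : p ∈ Ω) (hpa : ψ p ∈ axis) (x : R3) (hx : x ∈ Ω)
    (hxp : f x = f p) : x = p := by
  have h1 := h.fiber hx hp hxp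
  rw [wind_axis hpa] at h1
  have h2 := wind_eq_axis hpa h1
  rw [← h.left hx, h2, h.left hp]

theorem wind_surj (z : R3) : ∃ x, wind x = z := by
  obtain ⟨u, hu⟩ := IsAlgClosed.exists_pow_nat_eq (rtH.symm (cyl z).1) (n := 2) (by norm_num)
  refine ⟨cyl.symm (u, z 2), ?_⟩
  have h1 : cx (cyl.symm (u, z 2)) = u := by
    have : cyl (cyl.symm (u, z 2)) = (u, z 2) := Homeomorph.apply_symm_apply _ _
    exact (Prod.ext_iff.1 this).1
  have h2 : (cyl.symm (u, z 2)) 2 = z 2 := by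
    have : cyl (cyl.symm (u, z 2)) = (u, z 2) := Homeomorph.apply_symm_apply _ _
    exact (Prod.ext_iff.1 this).2
  rw [wind_eq, h1, h2, hu, Homeomorph.apply_symm_apply]
  apply cyl.injective
  rw [Homeomorph.apply_symm_apply]
  rfl

/-- a compactness criterion -/
theorem Fac.compact (h : Fac Ω f ψ φ) {B : Set R3} (hBt : B ⊆ φ.target)
    {O : Set R3} (hO : O ⊆ ψ.target) (hOc : IsCompact (O ∩ wind ⁻¹' (φ.symm '' B))) :
    IsCompact {x | x ∈ ψ.symm '' O ∧ f x ∈ B} := by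
  have h1 : {x | x ∈ ψ.symm '' O ∧ f x ∈ B} = ψ.symm '' (O ∩ wind ⁻¹' (φ.symm '' B)) := by
    ext x
    constructor
    · rintro ⟨⟨y, hy, rfl⟩, hxB⟩
      refine ⟨y, ⟨hy, ?_⟩, rfl⟩
      have hΩ := h.symm_mem (hO hy)
      refine ⟨_, hxB, ?_⟩
      rw [h.eq _ hΩ, ψ.right_inv (hO hy)]
      exact φ.left_inv (h.img ⟨y, hO hy, rfl⟩)
    · rintro ⟨y, ⟨hy, b, hb, hby⟩, rfl⟩
      refine ⟨⟨y, hy, rfl⟩, ?_⟩
      rw [h.eq _ (h.symm_mem (hO hy)), ψ.right_inv (hO hy), ← hby, φ.right_inv (hBt hb)]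
      exact hb
  rw [h1]
  exact hOc.image_of_continuousOn (ψ.symm.continuousOn.mono (fun y hy => hO hy.1))

/-- shift in the first coordinate -/
noncomputable def sh (a : R3) (s : ℝ) : R3 := a + EuclideanSpace.single 0 s

theorem sh_zero (a : R3) (s : ℝ) : sh a s 0 = a 0 + s := by simp [sh]
theorem sh_one (a : R3) (s : ℝ) : sh a s 1 = a 1 := by simp [sh]
theorem sh_two (a : R3) (s : ℝ) : sh a s 2 = a 2 := by simp [sh]

theorem dist_sh (a : R3) (s : ℝ) : dist (sh a s) a = |s| := by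
  rw [sh, dist_eq_norm, add_sub_cancel_left, EuclideanSpace.norm_single, Real.norm_eq_abs]

theorem wind_sh {a : R3} (ha : a ∈ axis) {s : ℝ} (hs : 0 < s) : wind (sh a s) = sh a s := by
  obtain ⟨h0, h1⟩ := axis_zero ha
  have hr : rad (sh a s) = s := by
    rw [rad, sh_zero, sh_one, h0, h1]
    rw [zero_add, zero_pow two_ne_zero, add_zero, Real.sqrt_sq hs.le]
  ext i
  fin_cases i
  · show (sh a s 0 ^ 2 - sh a s 1 ^ 2) / rad (sh a s) = sh a s 0
    rw [hr, sh_zero, sh_one, h0, h1]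
    field_simp
    ring
  · show 2 * sh a s 0 * sh a s 1 / rad (sh a s) = sh a s 1
    rw [sh_one, h1]; simp
  · rfl

theorem flip_sh {a : R3} (ha : a ∈ axis) (s : ℝ) : flip (sh a s) = sh a (-s) := by
  obtain ⟨h0, h1⟩ := axis_zero ha
  apply cx_ext
  · rw [cx_flip]
    apply Complex.ext
    · show - (sh a s 0) = sh a (-s) 0
      rw [sh_zero, sh_zero, h0]; ring
    · show - (sh a s 1) = sh a (-s) 1
      rw [sh_one, sh_one, h1]; ring
  · rw [flip_two, sh_two, sh_two]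

/-- the local growth estimate for mappings equivalent to the winding map -/
theorem Fac.holder (h : Fac Ω f ψ φ) {g : R3 → (R3 →L[ℝ] R3)} {K₀ : ℝ}
    (hK₀ : 1 ≤ K₀) (hq : QReg Ω f g K₀) {K : ℝ} (hK : 1 ≤ K) (hKI : KI Ω g ≤ ENNReal.ofReal K)
    {p0 : R3} (hp0 : p0 ∈ Ω) (hp0a : ψ p0 ∈ axis) :
    ∃ C r0 : ℝ, 0 < r0 ∧ 0 ≤ C ∧ closedBall p0 r0 ⊆ Ω ∧
      ∀ p ∈ closedBall p0 r0, ψ p ∈ axis →
      ∀ x ∈ closedBall p0 r0, dist (f x) (f p) ≤ C * dist x p ^ (√(2 / K)) := by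
  set a := ψ p0 with ha
  have hat : a ∈ ψ.target := h.maps hp0
  have hwa : wind a = a := wind_axis hp0a
  have hfp0 : f p0 = φ a := by rw [h.eq p0 hp0, ← ha, hwa]
  obtain ⟨ρ, hρ, hρt⟩ := Metric.nhds_basis_closedBall.mem_iff.1 (ψ.open_target.mem_nhds hat)
  have hbt : ball a ρ ⊆ ψ.target := ball_subset_closedBall.trans hρt
  set U := ψ.symm '' (ball a ρ) with hU
  have hUo : IsOpen U := ψ.isOpen_image_symm_of_subset_target isOpen_ball hbt
  have hUΩ : U ⊆ Ω := by rintro _ ⟨y, hy, rfl⟩; exact h.symm_mem (hbt hy)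
  have hclU : closure U ⊆ Ω := by
    have h1 : IsCompact (ψ.symm '' (closedBall a ρ)) :=
      (isCompact_closedBall a ρ).image_of_continuousOn (ψ.symm.continuousOn.mono hρt)
    refine (closure_minimal (image_mono ball_subset_closedBall) h1.isClosed).trans ?_
    rintro _ ⟨y, hy, rfl⟩; exact h.symm_mem (hρt hy)
  have hp0U : p0 ∈ U := ⟨a, mem_ball_self hρ, h.left hp0⟩
  have hwb : ∀ x, wind x ∈ ball a ρ ↔ x ∈ ball a ρ := fun x => by
    rw [mem_ball, mem_ball, dist_wind hp0a]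
  have hbφ : ball a ρ ⊆ φ.source := by
    intro z hz
    obtain ⟨x, hx⟩ := wind_surj z
    rw [← hx] at hz ⊢
    exact h.img ⟨x, hbt ((hwb x).1 hz), rfl⟩
  have hB0 : IsOpen (φ '' (ball a ρ)) := φ.isOpen_image_of_subset_source isOpen_ball hbφ
  have hfB0 : f p0 ∈ φ '' (ball a ρ) := ⟨a, mem_ball_self hρ, hfp0.symm⟩
  obtain ⟨R, hR, hRB⟩ := Metric.nhds_basis_closedBall.mem_iff.1 (hB0.mem_nhds hfB0)
  have himt : φ '' (ball a ρ) ⊆ φ.target := by
    rintro _ ⟨y, hy, rfl⟩; exact φ.map_source (hbφ hy)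
  have hsymm : ∀ (O B : Set R3), O ⊆ φ.source → B ⊆ φ '' O → φ.symm '' B ⊆ O := by
    intro O B hO hB
    rintro _ ⟨b, hb, rfl⟩
    obtain ⟨y, hy, rfl⟩ := hB hb
    rw [φ.left_inv (hO hy)]; exact hy
  have hsymc : ∀ (B : Set R3), IsCompact B → B ⊆ φ.target → IsCompact (φ.symm '' B) := fun B hB hB' =>
    hB.image_of_continuousOn (φ.symm.continuousOn.mono hB')
  have hC : IsCompact {x | x ∈ U ∧ f x ∈ closedBall (f p0) R} := by
    refine h.compact (hRB.trans himt) hbt ?_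
    have h1 := hsymm _ _ hbφ hRB
    have h2 : ball a ρ ∩ wind ⁻¹' (φ.symm '' closedBall (f p0) R) =
        wind ⁻¹' (φ.symm '' closedBall (f p0) R) := by
      refine inter_eq_right.2 ?_
      intro x hx
      exact (hwb x).1 (h1 hx)
    rw [h2]
    exact wind_compact (hsymc _ (isCompact_closedBall _ _) (hRB.trans himt))
  -- the sheets
  have hcontφ : ContinuousAt φ a := φ.continuousAt (hbφ (mem_ball_self hρ))
  have hnb : φ ⁻¹' (ball (f p0) (R / 3)) ∈ 𝓝 a := by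
    refine hcontφ ?_
    rw [← hfp0]
    exact ball_mem_nhds _ (by positivity)
  obtain ⟨s0, hs0, hs0b⟩ := Metric.nhds_basis_ball.mem_iff.1 hnb
  set s := min s0 ρ / 2 with hs
  have hspos : 0 < s := by rw [hs]; exact half_pos (lt_min hs0 hρ)
  have hss0 : s < s0 := by
    rw [hs]; have := min_le_left s0 ρ; linarith
  have hsρ : s ≤ ρ / 2 := by
    rw [hs]; have := min_le_right s0 ρ; linarith
  set z := sh a s with hz
  have hzd : dist z a = s := by rw [hz, dist_sh, abs_of_pos hspos]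
  have hwz : wind z = z := wind_sh hp0a hspos
  have hza : z ∈ ball a ρ := by rw [mem_ball, hzd]; linarith
  set O3 := ball z (s / 2) with hO3
  have hO3ρ : O3 ⊆ ball a ρ := by
    refine ball_subset_ball' ?_
    rw [hzd]; linarith
  have hO3p : ∀ y ∈ O3, 0 < y 0 := by
    intro y hy
    have h1 : |y 0 - z 0| < s / 2 := by
      rw [hO3, mem_ball, dist_eq_norm] at hy
      refine lt_of_le_of_lt ?_ hy
      have := EuclideanSpace.norm_eq (y - z)
      have h2 : |y 0 - z 0| = ‖(y - z) 0‖ := rfl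
      rw [h2]
      exact PiLp.norm_apply_le (y - z) 0
    have h2 : z 0 = s := by rw [hz, sh_zero, (axis_zero hp0a).1, zero_add]
    rw [h2] at h1
    have := (abs_lt.1 h1).1
    linarith
  have hW : IsOpen (φ '' O3 ∩ ball (f p0) (R / 3)) :=
    (φ.isOpen_image_of_subset_source isOpen_ball (hO3ρ.trans hbφ)).inter isOpen_ball
  have hzW : φ z ∈ φ '' O3 ∩ ball (f p0) (R / 3) :=
    ⟨⟨z, mem_ball_self (by positivity), rfl⟩, hs0b (by rw [mem_ball, hzd]; exact hss0)⟩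
  obtain ⟨δ, hδ, hδW⟩ := Metric.nhds_basis_closedBall.mem_iff.1 (hW.mem_nhds hzW)
  have hδt : closedBall (φ z) δ ⊆ φ.target := fun y hy => himt ((image_mono hO3ρ) (hδW hy).1)
  have hK1 : φ.symm '' (closedBall (φ z) δ) ⊆ O3 :=
    hsymm _ _ (hO3ρ.trans hbφ) (fun y hy => (hδW hy).1)
  have hK1c : IsCompact (wind ⁻¹' (φ.symm '' (closedBall (φ z) δ))) :=
    wind_compact (hsymc _ (isCompact_closedBall _ _) hδt)
  have hne : ∀ x ∈ wind ⁻¹' (φ.symm '' (closedBall (φ z) δ)), x 0 ≠ 0 := by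
    intro x hx hx0
    have h1 := hO3p _ (hK1 hx)
    have h2 : wind x 0 = (x 0 ^ 2 - x 1 ^ 2) / rad x := rfl
    rw [h2, hx0] at h1
    have h3 : ((0:ℝ) ^ 2 - x 1 ^ 2) / rad x ≤ 0 :=
      div_nonpos_of_nonpos_of_nonneg (by nlinarith [sq_nonneg (x 1)]) (rad_nonneg x)
    linarith
  have hin : ∀ x ∈ wind ⁻¹' (φ.symm '' (closedBall (φ z) δ)), x ∈ ball a ρ := fun x hx =>
    (hwb x).1 (hO3ρ (hK1 hx))
  have hcoord : Continuous fun x : R3 => x 0 := by fun_prop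
  set O1 := ball a ρ ∩ {x | 0 < x 0} with hO1
  set O2 := ball a ρ ∩ {x | x 0 < 0} with hO2
  have hO1o : IsOpen O1 := isOpen_ball.inter (isOpen_lt continuous_const hcoord)
  have hO2o : IsOpen O2 := isOpen_ball.inter (isOpen_lt hcoord continuous_const)
  have hO1t : O1 ⊆ ψ.target := inter_subset_left.trans hbt
  have hO2t : O2 ⊆ ψ.target := inter_subset_left.trans hbt
  have hc1 : IsCompact {x | x ∈ ψ.symm '' O1 ∧ f x ∈ closedBall (φ z) δ} := by
    refine h.compact hδt hO1t ?_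
    have h2 : O1 ∩ wind ⁻¹' (φ.symm '' (closedBall (φ z) δ)) =
        wind ⁻¹' (φ.symm '' (closedBall (φ z) δ)) ∩ {x | 0 ≤ x 0} := by
      ext x
      constructor
      · rintro ⟨⟨_, h3⟩, h4⟩
        exact ⟨h4, (show 0 ≤ x 0 from le_of_lt h3)⟩
      · rintro ⟨h3, h4⟩
        exact ⟨⟨hin x h3, lt_of_le_of_ne h4 (hne x h3).symm⟩, h3⟩
    rw [h2]
    exact hK1c.inter_right (isClosed_le continuous_const hcoord)
  have hc2 : IsCompact {x | x ∈ ψ.symm '' O2 ∧ f x ∈ closedBall (φ z) δ} := by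
    refine h.compact hδt hO2t ?_
    have h2 : O2 ∩ wind ⁻¹' (φ.symm '' (closedBall (φ z) δ)) =
        wind ⁻¹' (φ.symm '' (closedBall (φ z) δ)) ∩ {x | x 0 ≤ 0} := by
      ext x
      constructor
      · rintro ⟨⟨_, h3⟩, h4⟩
        exact ⟨h4, (show x 0 ≤ 0 from le_of_lt h3)⟩
      · rintro ⟨h3, h4⟩
        exact ⟨⟨hin x h3, lt_of_le_of_ne h4 (hne x h3)⟩, h3⟩
    rw [h2]
    exact hK1c.inter_right (isClosed_le hcoord continuous_const)
  have hz' : sh a (-s) ∈ ball a ρ := by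
    rw [mem_ball, dist_sh, abs_neg, abs_of_pos hspos]; linarith
  have hwz' : wind (sh a (-s)) = z := by
    rw [← flip_sh hp0a, wind_flip, ← hz, hwz]
  have hz1 : z ∈ O1 := ⟨hza, by
    show 0 < z 0
    rw [hz, sh_zero, (axis_zero hp0a).1, zero_add]; exact hspos⟩
  have hz2 : sh a (-s) ∈ O2 := ⟨hz', by
    show sh a (-s) 0 < 0
    rw [sh_zero, (axis_zero hp0a).1, zero_add]; linarith⟩
  have hf1 : f (ψ.symm z) = φ z := by
    rw [h.eq _ (h.symm_mem (hbt hza)), ψ.right_inv (hbt hza), hwz]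
  have hf2 : f (ψ.symm (sh a (-s))) = φ z := by
    rw [h.eq _ (h.symm_mem (hbt hz')), ψ.right_inv (hbt hz'), hwz']
  have hdis : Disjoint (ψ.symm '' O1) (ψ.symm '' O2) := by
    rw [Set.disjoint_left]
    rintro _ ⟨y, hy, rfl⟩ ⟨y', hy', hyy⟩
    have h3 : y' = y := ψ.symm.injOn (hO2t hy') (hO1t hy) hyy
    rw [h3] at hy'
    have h4 : 0 < y 0 := hy.2
    have h5 : y 0 < 0 := hy'.2
    linarith
  have hinner := QReg_inner hq (by linarith) (by linarith : (0:ℝ) ≤ K) hKI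
  obtain ⟨C, r0, hr0, hC0, hr0U, hmain⟩ := holder_Y hUo hK₀ (hq.mono h.isOpen hUΩ)
    (h.cont.mono hclU) hK (ae_restrict_of_ae_restrict_of_subset hUΩ hinner)
    (fun V hV hVo => h.open_image V (hV.trans hUΩ) hVo) hp0U hR hC
    (fun x hx hxx => h.inj_axis hp0 hp0a x (hUΩ hx) hxx)
    (ψ.isOpen_image_symm_of_subset_target hO1o hO1t) (ψ.isOpen_image_symm_of_subset_target hO2o hO2t)
    (image_mono inter_subset_left) (image_mono inter_subset_left) hdis
    (x1 := ψ.symm z) (x2 := ψ.symm (sh a (-s))) ⟨z, hz1, rfl⟩ ⟨_, hz2, rfl⟩ (hf2.trans hf1.symm) hδ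
    (by rw [hf1]; exact fun y hy => ball_subset_closedBall (hδW hy).2)
    (by rw [hf1]; exact hc1) (by rw [hf1]; exact hc2)
  refine ⟨C, r0, hr0, hC0, hr0U.trans hUΩ, ?_⟩
  intro p hp hpa x hx
  exact hmain p hp (fun x' hx' hxx => h.inj_axis (hUΩ (hr0U hp)) hpa x' (hUΩ hx') hxx) x hx

end Helper415.WM
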