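import Pool.Agent.Helper415_WM.CapB
import Pool.Agent.Helper415_WM.CapA2

/-! # Growth estimate at points of full multiplicity -/

set_option autoImplicit false
open MeasureTheory Metric Set Filter Topology
open scoped ENNReal NNReal ContDiff

namespace Helper415.WM

open H248.ID H248.BH

/-- clopen covering argument -/
theorem clopen_cover {U : Set (E 3)} (hU : IsOpen U) {f : E 3 → E 3} (hf : ContinuousOn f U)
    (hop : ∀ V ⊆ U, IsOpen V → IsOpen (f '' V)) {C : Set (E 3)} (hC : IsPreconnected C)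
    (hP : IsCompact {x | x ∈ U ∧ f x ∈ C}) {g : E 3 → ℝ} (hg : Continuous g) {t : ℝ}
    (hne : ∀ x ∈ U, f x ∈ C → g x ≠ t) {x0 : E 3} (hx0 : x0 ∈ U) (hfx0 : f x0 ∈ C)
    (hgx0 : g x0 < t) : ∀ z ∈ C, ∃ x ∈ U, f x = z ∧ g x < t := by
  set P := {x | x ∈ U ∧ f x ∈ C} with hPdef
  set A := P ∩ {x | g x ≤ t} with hA
  have hAc : IsCompact A := hP.inter_right (isClosed_le hg continuous_const)
  have hAU : A ⊆ U := fun x hx => hx.1.1
  have hAlt : ∀ x ∈ A, g x < t := fun x hx => lt_of_le_of_ne hx.2 (hne x hx.1.1 hx.1.2)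
  have hfA : IsClosed (f '' A) := (hAc.image_of_continuousOn (hf.mono hAU)).isClosed
  set N := U ∩ {x | g x < t} with hN
  have hNo : IsOpen N := hU.inter (isOpen_lt hg continuous_const)
  have hfN : IsOpen (f '' N) := hop N inter_subset_left hNo
  have key : C ⊆ f '' A := by
    intro z hz
    by_contra hzA
    have h1 : (C ∩ f '' N).Nonempty := ⟨f x0, hfx0, x0, ⟨hx0, hgx0⟩, rfl⟩
    have h2 : (C ∩ (f '' A)ᶜ).Nonempty := ⟨z, hz, hzA⟩
    have hcov : C ⊆ f '' N ∪ (f '' A)ᶜ := by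
      intro y _
      by_cases hy : y ∈ f '' A
      · left
        obtain ⟨x, hx, rfl⟩ := hy
        exact ⟨x, ⟨hAU hx, hAlt x hx⟩, rfl⟩
      · right; exact hy
    obtain ⟨y, hyC, hy1, hy2⟩ := hC _ _ hfN hfA.isOpen_compl hcov h1 h2
    obtain ⟨x, hx, rfl⟩ := hy1
    have hxt : g x < t := hx.2
    exact hy2 ⟨x, ⟨⟨hx.1, hyC⟩, (show g x ≤ t from hxt.le)⟩, rfl⟩
  intro z hz
  obtain ⟨x, hx, rfl⟩ := key hz
  exact ⟨x, hAU hx, rfl, hAlt x hx⟩

theorem compact_pre {U : Set (E 3)} {f : E 3 → E 3} (hf : ContinuousOn f U) {ys : E 3} {R : ℝ}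
    (hC : IsCompact (pre U f ys R)) {C : Set (E 3)} (hCc : IsClosed C) (hCs : C ⊆ closedBall ys R) :
    IsCompact {x | x ∈ U ∧ f x ∈ C} := by
  have hCU : pre U f ys R ⊆ U := fun x hx => hx.1
  have h1 : {x | x ∈ U ∧ f x ∈ C} = pre U f ys R ∩ f ⁻¹' C := by
    ext x
    constructor
    · rintro ⟨h1, h2⟩
      exact ⟨⟨h1, hCs h2⟩, h2⟩
    · rintro ⟨h1, h2⟩
      exact ⟨h1.1, h2⟩
  rw [h1]
  exact IsCompact.of_isClosed_subset hC
    ((hf.mono hCU).preimage_isClosed_of_isClosed hC.isClosed hCc) inter_subset_left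

theorem isPreconnected_enball (q : E 3) (a : ℝ) : IsPreconnected {z : E 3 | en (z - q) ≤ a} := by
  refine Convex.isPreconnected ?_
  intro x hx y hy s t hs ht hst
  show en (s • x + t • y - q) ≤ a
  have h1 : s • x + t • y - q = s • (x - q) + t • (y - q) := by
    have : q = (s + t) • q := by rw [hst, one_smul]
    calc s • x + t • y - q = s • x + t • y - (s + t) • q := by rw [← this]
      _ = _ := by rw [add_smul, smul_sub, smul_sub]; abel
  rw [h1]
  refine (en_add_le _ _).trans ?_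
  rw [en_smul, en_smul, abs_of_nonneg hs, abs_of_nonneg ht]
  have h2 := mul_le_mul_of_nonneg_left hx hs
  have h3 := mul_le_mul_of_nonneg_left hy ht
  have h4 : s * a + t * a = a := by rw [← add_mul, hst, one_mul]
  linarith

/-- crossing inside -/
theorem cross_in {U : Set (E 3)} (hU : IsOpen U) {f : E 3 → E 3} (hf : ContinuousOn f U)
    (hop : ∀ V ⊆ U, IsOpen V → IsOpen (f '' V)) {ys : E 3} {R : ℝ} (hC : IsCompact (pre U f ys R))
    {p : E 3} (hinj : ∀ x ∈ U, f x = f p → x = p) {a : ℝ} (ha : 0 ≤ a)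
    (hB : ∀ z, en (z - f p) ≤ a → z ∈ closedBall ys R) {x0 : E 3} (hx0 : x0 ∈ U)
    (hx0a : en (f x0 - f p) ≤ a) {t : ℝ} (ht : 0 < t) (ht2 : t < en (x0 - p)) :
    ∃ x ∈ U, en (x - p) = t ∧ en (f x - f p) ≤ a := by
  by_contra hcon
  push Not at hcon
  have hcl : IsClosed {z : E 3 | en (z - f p) ≤ a} :=
    isClosed_le (en_cont.comp (continuous_id.sub continuous_const)) continuous_const
  have hP := compact_pre hf hC hcl (fun z hz => hB z hz)
  have hg : Continuous fun x : E 3 => - en (x - p) :=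
    (en_cont.comp (continuous_id.sub continuous_const)).neg
  obtain ⟨x, hx, hx1, hx2⟩ := clopen_cover hU hf hop (isPreconnected_enball (f p) a) hP hg
    (t := -t) (fun x hx hx1 hx2 => by
      have h3 := hcon x hx (by linarith)
      exact absurd hx1 (not_le.2 h3)) hx0 hx0a (by linarith) (f p)
    (by show en (f p - f p) ≤ a; rw [sub_self, en_zero]; exact ha)
  have hxp := hinj x hx hx1
  rw [hxp, sub_self, en_zero] at hx2
  linarith

/-- crossing outside -/
theorem cross_out {U : Set (E 3)} (hU : IsOpen U) {f : E 3 → E 3} (hf : ContinuousOn f U)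
    (hop : ∀ V ⊆ U, IsOpen V → IsOpen (f '' V)) {ys : E 3} {R : ℝ} (hC : IsCompact (pre U f ys R))
    {p : E 3} {b δ s : ℝ} (hs : 0 < s) (hsb : s ≤ b)
    (hB : ∀ z, en (z - f p) ≤ b → z ∈ closedBall ys R)
    (hδ : ∀ x ∈ U, b ≤ en (f x - f p) → δ ≤ en (x - p)) {x1 : E 3} (hx1 : x1 ∈ U)
    (hx1s : en (f x1 - f p) = s) {t : ℝ} (ht : en (x1 - p) < t) (ht2 : t ≤ δ) :
    ∃ x ∈ U, en (x - p) = t ∧ s ≤ en (f x - f p) := by
  by_contra hcon
  push Not at hcon
  set v : E 3 := f x1 - f p with hv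
  set ray : ℝ → E 3 := fun r => f p + r • v with hray
  have hrayc : Continuous ray := continuous_const.add (continuous_id.smul continuous_const)
  set C := ray '' Icc 1 (b / s) with hCdef
  have hbs : 1 ≤ b / s := (one_le_div hs).2 hsb
  have hen : ∀ r, 0 ≤ r → en (ray r - f p) = r * s := by
    intro r hr
    rw [hray]
    show en (f p + r • v - f p) = _
    rw [add_sub_cancel_left, en_smul, abs_of_nonneg hr, hx1s]
  have hCcomp : IsCompact C := isCompact_Icc.image hrayc
  have hCcon : IsPreconnected C := isPreconnected_Icc.image _ hrayc.continuousOn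
  have hCb : ∀ z ∈ C, en (z - f p) ≤ b := by
    rintro _ ⟨r, hr, rfl⟩
    rw [hen r (by linarith [hr.1])]
    calc r * s ≤ b / s * s := mul_le_mul_of_nonneg_right hr.2 hs.le
      _ = b := by field_simp
  have hCs : ∀ z ∈ C, s ≤ en (z - f p) := by
    rintro _ ⟨r, hr, rfl⟩
    rw [hen r (by linarith [hr.1])]
    nlinarith [hr.1]
  have hP := compact_pre hf hC hCcomp.isClosed (fun z hz => hB z (hCb z hz))
  have hg : Continuous fun x : E 3 => en (x - p) :=
    (en_cont.comp (continuous_id.sub continuous_const))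
  have hx1C : f x1 ∈ C := ⟨1, ⟨le_rfl, hbs⟩, by rw [hray]; simp [hv]⟩
  have hend : ray (b / s) ∈ C := ⟨b / s, ⟨hbs, le_rfl⟩, rfl⟩
  obtain ⟨x, hx, hxe, hxt⟩ := clopen_cover hU hf hop hCcon hP hg (t := t)
    (fun x hx hx1 hx2 => absurd (hCs _ hx1) (not_le.2 (hcon x hx hx2))) hx1 hx1C ht _ hend
  have h5 : b ≤ en (f x - f p) := by
    rw [hxe, hen _ (by linarith)]
    exact le_of_eq (by field_simp)
  have := hδ x hx h5
  linarith

/-- growth estimate at a point of full multiplicity, explicit form -/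
theorem growth_core : ∃ c : ℝ, 0 < c ∧ ∀ {U : Set (E 3)} {f : E 3 → E 3}
    {Df : E 3 → Matrix (Fin 3) (Fin 3) ℝ} {K : ℝ}, QR U f Df K → 0 < K →
    (∀ V ⊆ U, IsOpen V → IsOpen (f '' V)) → ∀ {ys : E 3} {R : ℝ},
    IsCompact (pre U f ys R) → ∀ {d : ℝ}, 2 ≤ d → MultF U f Df ys R d →
    ∀ {p : E 3}, p ∈ U → (∀ x ∈ U, f x = f p → x = p) → ∀ {b b1 δ a0 : ℝ}, 0 < b → b < b1 →
    (∀ z, en (z - f p) ≤ b1 → z ∈ ball ys R) → 0 < δ →
    (∀ x ∈ U, b ≤ en (f x - f p) → δ ≤ en (x - p)) → {x | en (x - p) ≤ δ} ⊆ U →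
    0 < a0 → 2 * a0 ≤ b → (∀ x ∈ U, en (f x - f p) ≤ a0 → en (x - p) < δ) →
    ∀ x ∈ U, en (f x - f p) ≤ 2 * a0 →
      en (f x - f p) ≤ 2 * b * (Real.exp (K ^ 2 * d / c) * en (x - p) / δ) ^ (√(2 / K)) := by
  obtain ⟨c, hc, hcapA⟩ := capA
  refine ⟨c, hc, ?_⟩
  intro U f Df K H hK hop ys R hC d hd hM p hp hinj b b1 δ a0 hb hbb1 hB hδ hδ1 hδ2 ha0 ha0b ha1 x hx hxa
  have hU := H.isOpen
  have hf := H.cont
  set q := f p with hq
  set s := en (f x - q) with hs
  rcases (en_nonneg (f x - q)).eq_or_lt with hs0 | hs0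
  · rw [hs, ← hs0]
    have := en_nonneg (x - p)
    positivity
  have hBc : ∀ z, en (z - q) ≤ b → z ∈ closedBall ys R := fun z hz =>
    ball_subset_closedBall (hB z (hz.trans hbb1.le))
  set a := s / 2 with ha
  have hapos : 0 < a := by positivity
  have haa0 : a ≤ a0 := by rw [ha]; linarith
  have hab : a ≤ b := by linarith
  have hxp : x ≠ p := by
    rintro rfl
    rw [sub_self, en_zero] at hs0
    exact lt_irrefl _ hs0
  have hlpos : 0 < en (x - p) := en_pos (sub_ne_zero.2 hxp)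
  set l := en (x - p) with hl
  have hcl : IsClosed {z : E 3 | en (z - q) ≤ a} :=
    isClosed_le (en_cont.comp (continuous_id.sub continuous_const)) continuous_const
  have hAc : IsCompact {x | x ∈ U ∧ f x ∈ {z : E 3 | en (z - q) ≤ a}} :=
    compact_pre hf hC hcl (fun z hz => hBc z (le_trans hz hab))
  have hpA : p ∈ {x | x ∈ U ∧ f x ∈ {z : E 3 | en (z - q) ≤ a}} :=
    ⟨hp, by show en (f p - q) ≤ a; rw [← hq, sub_self, en_zero]; exact hapos.le⟩
  have hg : Continuous fun x : E 3 => en (x - p) :=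
    (en_cont.comp (continuous_id.sub continuous_const))
  obtain ⟨x0, hx0, hx0max⟩ := hAc.exists_isMaxOn ⟨p, hpA⟩ hg.continuousOn
  set L := en (x0 - p) with hL
  have hmax : ∀ x' ∈ U, en (f x' - q) ≤ a → en (x' - p) ≤ L := fun x' hx' h => hx0max ⟨hx', h⟩
  have hLδ : L < δ := ha1 x0 hx0.1 (le_trans hx0.2 haa0)
  have hLpos : 0 < L := by
    have hcont : ContinuousAt (fun x' => en (f x' - q)) p :=
      (en_cont.comp (continuous_id.sub continuous_const)).continuousAt.comp
        (hf.continuousAt (hU.mem_nhds hp))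
    have h0 : (fun x' => en (f x' - q)) p < a := by
      show en (f p - q) < a
      rw [← hq, sub_self, en_zero]; exact hapos
    have hev := (hcont.eventually (gt_mem_nhds h0)).and (hU.mem_nhds hp)
    obtain ⟨ρ, hρ, hρ1⟩ := Metric.eventually_nhds_iff_ball.1 hev
    set x' : E 3 := p + Pi.single 0 (ρ / 2) with hx'
    have h1 : x' - p = (ρ / 2) • (Pi.single 0 (1:ℝ) : E 3) := by
      rw [hx', add_sub_cancel_left]
      ext j
      by_cases hj : j = 0
      · subst hj; simp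
      · simp [Pi.single_apply, hj]
    have h2 : en (x' - p) = ρ / 2 := by
      rw [h1, en_smul, en_single, mul_one, abs_of_pos (by positivity)]
    have h3 : x' ∈ ball p ρ := by
      rw [mem_ball, dist_eq_norm]
      calc ‖x' - p‖ ≤ en (x' - p) := norm_le_en _
        _ = ρ / 2 := h2
        _ < ρ := by linarith
    have h4 := hρ1 x' h3
    have h5 := hmax x' h4.2 (le_of_lt h4.1)
    rw [h2] at h5
    linarith
  -- capacity from above
  have hlog1 := capB H hK hC hd hM hapos hab hLpos hLδ ⟨b1, hbb1, hB⟩ hmax hδ1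
  -- capacity from below
  have hlog2 : Real.log (L / l) ≤ K ^ 2 * d / c := by
    rcases le_or_gt L l with h | h
    · have h1 : Real.log (L / l) ≤ 0 := Real.log_nonpos (by positivity) ((div_le_one hlpos).2 h)
      have : 0 ≤ K ^ 2 * d / c := by positivity
      linarith
    · rw [le_div_iff₀ hc, mul_comm]
      refine hcapA H hK.le hC hM hapos hlpos h (fun y hy => hδ2 (le_trans hy hLδ.le))
        (fun z hz => hBc z (hz.trans (by linarith))) ?_
      intro t ht1 ht2
      obtain ⟨y1, hy1, hy1t, hy1a⟩ := cross_in hU hf hop hC hinj hapos.le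
        (fun z hz => hBc z (hz.trans hab)) hx0.1 hx0.2 (hlpos.trans ht1) ht2
      obtain ⟨y2, hy2, hy2t, hy2a⟩ := cross_out hU hf hop hC hs0 (by linarith) hBc hδ1 hx rfl
        (t := t) ht1 (ht2.le.trans hLδ.le)
      exact ⟨y1, y2, hy1t, hy2t, hy1a, by rw [ha]; linarith⟩
  -- combine
  set Hc := Real.exp (K ^ 2 * d / c) with hHc
  have hHpos : 0 < Hc := Real.exp_pos _
  set m := √(2 / K) with hm
  have hmpos : 0 < m := Real.sqrt_pos.2 (by positivity)
  have hmm : m * √(K / 2) = 1 := by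
    rw [hm, ← Real.sqrt_mul (by positivity)]
    have : 2 / K * (K / 2) = 1 := by field_simp
    rw [this, Real.sqrt_one]
  have h1 : Real.log (δ / (Hc * l)) ≤ √(K / 2) * Real.log (b / a) := by
    have e1 : Real.log (δ / L) = Real.log δ - Real.log L := Real.log_div hδ.ne' hLpos.ne'
    have e2 : Real.log (L / l) = Real.log L - Real.log l := Real.log_div hLpos.ne' hlpos.ne'
    have e3 : Real.log (δ / (Hc * l)) = Real.log δ - (K ^ 2 * d / c + Real.log l) := by
      rw [Real.log_div hδ.ne' (by positivity), Real.log_mul hHpos.ne' hlpos.ne', hHc, Real.log_exp]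
    rw [e3]
    rw [e1] at hlog1
    rw [e2] at hlog2
    linarith
  have h2 : m * Real.log (δ / (Hc * l)) ≤ Real.log (b / a) := by
    calc m * Real.log (δ / (Hc * l)) ≤ m * (√(K / 2) * Real.log (b / a)) :=
          mul_le_mul_of_nonneg_left h1 hmpos.le
      _ = (m * √(K / 2)) * Real.log (b / a) := by ring
      _ = _ := by rw [hmm, one_mul]
  have h3 : (δ / (Hc * l)) ^ m ≤ b / a := by
    rw [Real.rpow_def_of_pos (by positivity), ← Real.exp_log (by positivity : 0 < b / a)]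
    exact Real.exp_le_exp.2 (by rw [mul_comm]; exact h2)
  have h4 : (Hc * l / δ) ^ m * (δ / (Hc * l)) ^ m = 1 := by
    rw [← Real.mul_rpow (by positivity) (by positivity)]
    have : Hc * l / δ * (δ / (Hc * l)) = 1 := by field_simp
    rw [this, Real.one_rpow]
  have h5 : a ≤ b * (Hc * l / δ) ^ m := by
    have h6 := mul_le_mul_of_nonneg_left h3 (by positivity : 0 ≤ a * (Hc * l / δ) ^ m)
    calc a = a * ((Hc * l / δ) ^ m * (δ / (Hc * l)) ^ m) := by rw [h4, mul_one]
      _ = a * (Hc * l / δ) ^ m * (δ / (Hc * l)) ^ m := by ring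
      _ ≤ a * (Hc * l / δ) ^ m * (b / a) := h6
      _ = b * (Hc * l / δ) ^ m := by field_simp
  calc s = 2 * a := by rw [ha]; ring
    _ ≤ 2 * (b * (Hc * l / δ) ^ m) := by linarith
    _ = _ := by ring

end Helper415.WM
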