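import Pool.Agent.Helper415_WM.Growth

/-! # Local Hölder growth estimate at points of full multiplicity -/

set_option autoImplicit false
open MeasureTheory Metric Set Filter Topology
open scoped ENNReal NNReal ContDiff

namespace Helper415.WM

open H248.ID H248.BH

theorem ev_en {xs : E 3} {P : E 3 → Prop} (h : ∀ᶠ x in 𝓝 xs, P x) :
    ∃ r, 0 < r ∧ ∀ x, en (x - xs) ≤ r → P x := by
  obtain ⟨ρ, hρ, hρ1⟩ := Metric.eventually_nhds_iff_ball.1 h
  refine ⟨ρ / 2, by positivity, fun x hx => hρ1 x ?_⟩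
  rw [mem_ball, dist_eq_norm]
  calc ‖x - xs‖ ≤ en (x - xs) := norm_le_en _
    _ ≤ ρ / 2 := hx
    _ < ρ := by linarith

theorem growth_local {U : Set (E 3)} {f : E 3 → E 3}
    {Df : E 3 → Matrix (Fin 3) (Fin 3) ℝ} {K : ℝ} (H : QR U f Df K) (hK : 0 < K)
    (hop : ∀ V ⊆ U, IsOpen V → IsOpen (f '' V)) {xs : E 3} (hxs : xs ∈ U) {R : ℝ} (hR : 0 < R)
    (hC : IsCompact (pre U f (f xs) R)) {d : ℝ} (hd : 2 ≤ d) (hM : MultF U f Df (f xs) R d)
    (hinjs : ∀ x ∈ U, f x = f xs → x = xs) :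
    ∃ C r0 : ℝ, 0 < r0 ∧ 0 ≤ C ∧ (∀ x, en (x - xs) ≤ r0 → x ∈ U) ∧
      ∀ p, en (p - xs) ≤ r0 → (∀ x ∈ U, f x = f p → x = p) →
      ∀ x, en (x - xs) ≤ r0 → en (f x - f p) ≤ C * en (x - p) ^ (√(2 / K)) := by
  obtain ⟨c, hc, hcore⟩ := growth_core
  have hU := H.isOpen
  have hf := H.cont
  set ys := f xs with hys
  have hcont : ContinuousAt (fun x' => en (f x' - ys)) xs :=
    (en_cont.comp (continuous_id.sub continuous_const)).continuousAt.comp
      (hf.continuousAt (hU.mem_nhds hxs))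
  have hc0 : (fun x' => en (f x' - ys)) xs = 0 := by
    show en (f xs - ys) = 0
    rw [← hys, sub_self, en_zero]
  set b := R / 4 with hb
  have hbpos : 0 < b := by positivity
  obtain ⟨r1', hr1', hr1a⟩ := ev_en ((hcont.eventually (gt_mem_nhds
    (by rw [hc0]; positivity : (fun x' => en (f x' - ys)) xs < b / 2))).and (hU.mem_nhds hxs))
  set r1 := r1' / 2 with hr1
  have hr1pos : 0 < r1 := by positivity
  have hg : Continuous fun x : E 3 => en (x - xs) :=
    (en_cont.comp (continuous_id.sub continuous_const))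
  -- the gap
  obtain ⟨m, hm, hmR, hm2⟩ : ∃ m, 0 < m ∧ m ≤ R ∧ ∀ x ∈ U, en (f x - ys) < m → en (x - xs) < r1 / 2 := by
    set Kc := pre U f ys R ∩ {x | r1 / 2 ≤ en (x - xs)} with hKc
    have hKcc : IsCompact Kc := hC.inter_right (isClosed_le continuous_const hg)
    rcases Kc.eq_empty_or_nonempty with h | h
    · refine ⟨R, hR, le_rfl, fun x hx hxR => ?_⟩
      by_contra hcon
      have : x ∈ Kc := ⟨⟨hx, by
        rw [mem_closedBall, dist_eq_norm]; exact (norm_le_en _).trans hxR.le⟩, not_lt.1 hcon⟩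
      rw [h] at this
      exact this
    · have hgc : ContinuousOn (fun x => en (f x - ys)) Kc :=
        (en_cont.comp (continuous_id.sub continuous_const)).comp_continuousOn
          (hf.mono fun x hx => hx.1.1)
      obtain ⟨x0, hx0, hx0m⟩ := hKcc.exists_isMinOn h hgc
      have hpos : 0 < en (f x0 - ys) := by
        refine en_pos (sub_ne_zero.2 fun h0 => ?_)
        have h1 := hinjs x0 hx0.1.1 h0
        have h2 : r1 / 2 ≤ en (x0 - xs) := hx0.2
        rw [h1, sub_self, en_zero] at h2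
        linarith
      refine ⟨min (en (f x0 - ys)) R, lt_min hpos hR, min_le_right _ _, fun x hx hxR => ?_⟩
      by_contra hcon
      have hxK : x ∈ Kc := ⟨⟨hx, by
        rw [mem_closedBall, dist_eq_norm]
        exact (norm_le_en _).trans (hxR.le.trans (min_le_right _ _))⟩, not_lt.1 hcon⟩
      have h3 : en (f x0 - ys) ≤ en (f x - ys) := hx0m hxK
      have h4 := hxR.trans_le (min_le_left _ _)
      linarith
  set a0 := m / 8 with ha0
  have ha0pos : 0 < a0 := by positivity
  obtain ⟨r2, hr2, hr2a⟩ := ev_en (hcont.eventually (gt_mem_nhds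
    (by rw [hc0]; exact ha0pos : (fun x' => en (f x' - ys)) xs < a0)))
  set r0 := min r2 (r1 / 4) with hr0
  have hr0pos : 0 < r0 := lt_min hr2 (by positivity)
  have hr0r2 : r0 ≤ r2 := min_le_left _ _
  have hr0r1 : r0 ≤ r1 / 4 := min_le_right _ _
  have hsub : ∀ x, en (x - xs) ≤ r0 → x ∈ U := fun x hx =>
    (hr1a x (by rw [hr1] at hr0r1; linarith)).2
  refine ⟨2 * b * (Real.exp (K ^ 2 * d / c) / r1) ^ (√(2 / K)), r0, hr0pos, by positivity, hsub, ?_⟩
  intro p hp hinj x hx
  have hfp : en (f p - ys) < a0 := hr2a p (hp.trans hr0r2)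
  have hfx : en (f x - ys) < a0 := hr2a x (hx.trans hr0r2)
  have hps : en (xs - p) ≤ r1 / 4 := by rw [en_sub_comm]; exact hp.trans hr0r1
  have key := hcore H hK hop hC hd hM (hsub p hp) hinj (b := b) (b1 := R / 3) (δ := r1) (a0 := a0)
    hbpos (by rw [hb]; linarith) ?_ hr1pos ?_ ?_ ha0pos (by rw [hb, ha0]; linarith) ?_ x (hsub x hx) ?_
  · refine key.trans (le_of_eq ?_)
    have h1 : Real.exp (K ^ 2 * d / c) * en (x - p) / r1 = Real.exp (K ^ 2 * d / c) / r1 * en (x - p) := by
      ring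
    rw [h1, Real.mul_rpow (by positivity) (en_nonneg _)]
    ring
  · intro z hz
    rw [mem_ball, dist_eq_norm]
    calc ‖z - ys‖ ≤ en (z - ys) := norm_le_en _
      _ ≤ en (z - f p) + en (f p - ys) := en_sub_le _ _ _
      _ < R := by rw [ha0] at hfp; linarith
  · intro x' hx' hbx
    by_contra hcon
    push Not at hcon
    have h1 : en (x' - xs) ≤ r1' := by
      have h2 := en_sub_le x' p xs
      have h3 : en (p - xs) ≤ r1 / 4 := hp.trans hr0r1
      rw [hr1] at h3 hcon
      linarith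
    have h2 := (hr1a x' h1).1
    have h3 := en_sub_le (f x') ys (f p)
    have h4 : en (ys - f p) < a0 := by rw [en_sub_comm]; exact hfp
    have h5 : a0 ≤ b / 2 := by rw [ha0, hb]; linarith
    have h6 : en (f x' - ys) < b / 2 := h2
    linarith
  · intro x' hx'
    have h0 : en (x' - p) ≤ r1 := hx'
    have h2 := en_sub_le x' p xs
    have h3 : en (p - xs) ≤ r1 / 4 := hp.trans hr0r1
    rw [hr1] at h3 h0
    exact (hr1a x' (by linarith)).2
  · intro x' hx' hx'a
    have h3 := en_sub_le (f x') (f p) ys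
    have h4 := hm2 x' hx' (by rw [ha0] at hx'a hfp; linarith)
    have h5 := en_sub_le x' xs p
    linarith
  · have h3 := en_sub_le (f x) ys (f p)
    have h4 : en (ys - f p) < a0 := by rw [en_sub_comm]; exact hfp
    linarith

end Helper415.WM
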