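import Pool.Agent.Helper415_WM.Dim

/-! # The inner distortion is at least one; the dimension inequality -/

set_option autoImplicit false
open MeasureTheory Metric Set Filter Topology
open scoped ENNReal NNReal ContDiff

namespace Helper415.WM

theorem abs_det_le (A : R3 →L[ℝ] R3) : |LinearMap.det (A : R3 →ₗ[ℝ] R3)| ≤ ‖A‖ ^ 3 := by
  have h1 := Measure.addHaar_image_continuousLinearMap (volume : Measure R3) A (ball 0 1)
  have h2 : A '' (ball 0 1) ⊆ closedBall 0 ‖A‖ := by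
    rintro _ ⟨x, hx, rfl⟩
    rw [mem_closedBall, dist_zero_right]
    rw [mem_ball, dist_zero_right] at hx
    calc ‖A x‖ ≤ ‖A‖ * ‖x‖ := A.le_opNorm x
      _ ≤ ‖A‖ * 1 := mul_le_mul_of_nonneg_left hx.le (norm_nonneg _)
      _ = ‖A‖ := mul_one _
  have h3 := measure_mono (μ := (volume : Measure R3)) h2
  rw [h1, Measure.addHaar_closedBall volume _ (norm_nonneg _)] at h3
  have h4 : Module.finrank ℝ R3 = 3 := by simp
  rw [h4] at h3
  have hb0 : volume (ball (0 : R3) 1) ≠ 0 := (measure_ball_pos volume _ one_pos).ne'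
  have hbt : volume (ball (0 : R3) 1) ≠ ⊤ := measure_ball_lt_top.ne
  have h5 := (ENNReal.mul_le_mul_iff_left hb0 hbt).1 h3
  rw [ENNReal.ofReal_le_ofReal_iff (by positivity)] at h5
  exact h5

theorem one_le_linKI (A : R3 →L[ℝ] R3) : 1 ≤ linKI A := by
  rw [linKI]
  split_ifs with h0'
  · have h0 : 0 < LinearMap.det ((A : R3 →ₗ[ℝ] R3)) := h0'
    rw [← ENNReal.ofReal_one]
    refine ENNReal.ofReal_le_ofReal ?_
    have hu : IsUnit (LinearMap.det ((A : R3 →ₗ[ℝ] R3))) := isUnit_iff_ne_zero.2 h0.ne'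
    set e : R3 ≃L[ℝ] R3 := (LinearEquiv.ofIsUnitDet (f := (A : R3 →ₗ[ℝ] R3))
      (v := (EuclideanSpace.basisFun (Fin 3) ℝ).toBasis)
      (v' := (EuclideanSpace.basisFun (Fin 3) ℝ).toBasis)
      (by rw [LinearMap.det_toMatrix]; exact hu)).toContinuousLinearEquiv with he
    have heA : (e : R3 →L[ℝ] R3) = A := by ext x; rfl
    have hinv : A.inverse = (e.symm : R3 →L[ℝ] R3) := by
      rw [← heA, ContinuousLinearMap.inverse_equiv]
    have h1 : LinearMap.det (A : R3 →ₗ[ℝ] R3) * LinearMap.det (A.inverse : R3 →ₗ[ℝ] R3) = 1 := by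
      rw [← LinearMap.det_comp]
      have : ((A : R3 →ₗ[ℝ] R3) ∘ₗ (A.inverse : R3 →ₗ[ℝ] R3)) = LinearMap.id := by
        rw [hinv, ← heA]
        ext x : 1
        simp
      rw [this, LinearMap.det_id]
    have h2 := abs_det_le A.inverse
    calc (1 : ℝ) = LinearMap.det (A : R3 →ₗ[ℝ] R3) * LinearMap.det (A.inverse : R3 →ₗ[ℝ] R3) := h1.symm
      _ ≤ LinearMap.det (A : R3 →ₗ[ℝ] R3) * ‖A.inverse‖ ^ 3 :=
        mul_le_mul_of_nonneg_left ((le_abs_self _).trans h2) h0.le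
  · exact le_rfl

theorem one_le_KI {Ω : Set R3} (hΩ : IsOpen Ω) (hne : Ω.Nonempty) (g : R3 → (R3 →L[ℝ] R3)) :
    1 ≤ KI Ω g := by
  have hvol : volume.restrict Ω ≠ 0 := by
    intro h
    rw [Measure.restrict_eq_zero] at h
    exact (hΩ.measure_pos volume hne).ne' h
  have hne' : (ae (volume.restrict Ω)).NeBot := ae_neBot.2 hvol
  have h1 : ∀ᵐ x ∂(volume.restrict Ω), linKI (g x) ≤ KI Ω g := ENNReal.ae_le_essSup _
  obtain ⟨x, hx⟩ := h1.exists
  exact (one_le_linKI _).trans hx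

variable {Ω : Set R3} {f : R3 → R3} {ψ φ : OpenPartialHomeomorph R3 R3}

theorem Fac.dim_ineq (h : Fac Ω f ψ φ) {g : R3 → (R3 →L[ℝ] R3)} {K₀ : ℝ}
    (hK₀ : 1 ≤ K₀) (hq : QReg Ω f g K₀) {E : Set R3} (hE : E ⊆ branch Ω f) (hE0 : dimH E ≠ 0) :
    2 * dimH (f '' E) ^ 2 ≤ KI Ω g * dimH E ^ 2 := by
  by_cases htop : KI Ω g = ⊤
  · rw [htop, ENNReal.top_mul (pow_ne_zero 2 hE0)]
    exact le_top
  have hne : Ω.Nonempty := by
    have : E.Nonempty := by
      by_contra hcon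
      rw [not_nonempty_iff_eq_empty] at hcon
      rw [hcon, dimH_empty] at hE0
      exact hE0 rfl
    obtain ⟨x, hx⟩ := this
    exact ⟨x, (hE hx).1⟩
  have h1 := one_le_KI h.isOpen hne g
  set K := (KI Ω g).toReal with hK
  have hKK : ENNReal.ofReal K = KI Ω g := ENNReal.ofReal_toReal htop
  have hK1 : 1 ≤ K := by
    have := ENNReal.toReal_mono htop h1
    simpa using this
  have h2 := h.dim_upper hK₀ hq hK1 hKK.ge hE
  calc 2 * dimH (f '' E) ^ 2 ≤ 2 * (ENNReal.ofReal √(K / 2) * dimH E) ^ 2 := by gcongr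
    _ = (2 * ENNReal.ofReal √(K / 2) ^ 2) * dimH E ^ 2 := by ring
    _ = KI Ω g * dimH E ^ 2 := by
      congr 1
      rw [← ENNReal.ofReal_pow (Real.sqrt_nonneg _), Real.sq_sqrt (by positivity), ← hKK]
      have : (2 : ℝ≥0∞) = ENNReal.ofReal 2 := by simp
      rw [this, ← ENNReal.ofReal_mul (by norm_num)]
      congr 1
      ring

/-- Hausdorff dimension -/
noncomputable def hd (E : Set R3) : ℝ≥0∞ := dimH E

/-- `f` expands distances on `S` up to a constant factor -/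
def Expands (f : R3 → R3) (S : Set R3) : Prop :=
  ∃ c : ℝ, 0 < c ∧ ∀ x ∈ S, ∀ y ∈ S, c * dist x y ≤ dist (f x) (f y)

/-- a set on which `f` expands distances up to a constant keeps its dimension -/
theorem dim_expand {f : R3 → R3} {E : Set R3} {c : ℝ} (hc : 0 < c)
    (h : ∀ x ∈ E, ∀ y ∈ E, c * dist x y ≤ dist (f x) (f y)) : dimH E ≤ dimH (f '' E) := by
  have h1 : AntilipschitzWith (Real.toNNReal c⁻¹) (fun x : E => f x) := by
    refine AntilipschitzWith.of_le_mul_dist fun x y => ?_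
    rw [Real.coe_toNNReal _ (by positivity)]
    have := h x x.2 y y.2
    rw [inv_mul_eq_div, le_div_iff₀ hc, mul_comm]
    exact this
  have h2 := h1.le_dimH_image univ
  rw [image_univ] at h2
  have h3 : dimH (univ : Set E) = dimH E := by
    have := (isometry_subtype_coe (s := E)).dimH_image (univ : Set E)
    rw [← this, image_univ, Subtype.range_coe]
  have h4 : range (fun x : E => f x) = f '' E := by
    ext y
    constructor
    · rintro ⟨x, rfl⟩; exact ⟨x, x.2, rfl⟩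
    · rintro ⟨x, hx, rfl⟩; exact ⟨⟨x, hx⟩, rfl⟩
  rwa [h3, h4] at h2

end Helper415.WM
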