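import Pool.Agent.H248.BH.X1
import Pool.Agent.H248.BH.X2
import Pool.Agent.H248.BH.X2b
import Pool.Agent.H248.BH.X3a
import Pool.Agent.H248.ID.J13

/-! # Multiplicity of a proper quasiregular mapping -/

set_option autoImplicit false
open MeasureTheory Metric Set Filter Topology
open scoped ENNReal NNReal ContDiff

namespace Helper415.WM

open H248.ID H248.BH

variable {n : ℕ}

/-- restriction of the quasiregularity data to a smaller open set -/
theorem QR_mono {Ω : Set (E n)} {f : E n → E n}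
    {Df : E n → Matrix (Fin n) (Fin n) ℝ} {K : ℝ} (H : QR Ω f Df K) {U : Set (E n)}
    (hU : IsOpen U) (hUΩ : U ⊆ Ω) : QR U f Df K where
  isOpen := hU
  meas_f := H.meas_f
  cont := H.cont.mono hUΩ
  meas_D := H.meas_D
  weak := fun φ h1 h2 h3 => H.weak φ h1 h2 (h3.trans hUΩ)
  int := fun C hC hCU => H.int C hC (hCU.trans hUΩ)
  pos := ae_restrict_of_ae_restrict_of_subset hUΩ H.pos
  dist := ae_restrict_of_ae_restrict_of_subset hUΩ H.dist

/-- preimage of a closed cube -/
def pre (U : Set (E n)) (f : E n → E n) (y : E n) (R : ℝ) : Set (E n) :=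
  {x | x ∈ U ∧ f x ∈ closedBall y R}

/-- the degree is constant on cubes -/
theorem mult_const (hn : 2 ≤ n) {U : Set (E n)} {f : E n → E n}
    {Df : E n → Matrix (Fin n) (Fin n) ℝ} {K : ℝ} (H : QR U f Df K) {y : E n} {R : ℝ} (hR : 0 < R)
    (hC : IsCompact (pre U f y R)) :
    ∃ d : ℝ, (d = 0 ∨ 1 ≤ d) ∧ ∀ ψ : E n → ℝ, Measurable ψ → (∃ B, ∀ z, |ψ z| ≤ B) →
      (∀ z, z ∉ closedBall y R → ψ z = 0) →
      ∫ x in pre U f y R, ψ (f x) * (Df x).det = d * ∫ z, ψ z := by
  set C := pre U f y R with hCdef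
  have hCU : C ⊆ U := fun x hx => hx.1
  obtain ⟨N, hNm, hNi, hN1, hN⟩ := integer_mult (by omega) H hC hCU hC.measurableSet subset_rfl
  have hconst : ∃ c : ℝ, ∀ᵐ x ∂(volume.restrict (closedBall y R)), N x = c := by
    refine J13.const_of_weak hR hNi.locallyIntegrable ?_
    intro φ hφ hφc hφs j
    have hpdc : Continuous (pd φ j) := continuous_pd (hφ.of_le (by simp)) j
    have hpdb : ∃ B, ∀ z, |pd φ j z| ≤ B := by
      have hcs : HasCompactSupport (pd φ j) :=
        HasCompactSupport.intro hφc (fun x hx => pd_eq_zero_of_notMem hx j)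
      obtain ⟨B, hB⟩ := hcs.exists_bound_of_continuous hpdc
      exact ⟨B, fun z => by simpa using hB z⟩
    have h1 := hN (pd φ j) hpdc.measurable hpdb
    have h2 : ∫ x, N x * pd φ j x = ∫ x, pd φ j x * N x := by
      congr 1; ext x; ring
    rw [h2, ← h1]
    have hΨ : ContDiff ℝ 1 (fun p : E n × E n => φ p.2) := (hφ.of_le (by simp)).comp contDiff_snd
    have hfd : ∀ x z : E n, fderiv ℝ (fun p : E n × E n => φ p.2) (x, z) =
        (fderiv ℝ φ z).comp (ContinuousLinearMap.snd ℝ (E n) (E n)) := by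
      intro x z
      have hd : HasFDerivAt φ (fderiv ℝ φ ((x, z) : E n × E n).2) ((x, z) : E n × E n).2 :=
        (hφ.differentiable (by simp) _).hasFDerivAt
      exact (hd.comp (x, z) (hasFDerivAt_snd (𝕜 := ℝ) (E := E n) (F := E n))).fderiv
    have h3 := null_identity hn H hC hCU hΨ (by
      intro x hx
      have hfx : f x ∉ tsupport φ := by
        intro hh
        exact hx.2 ⟨hx.1, ball_subset_closedBall (hφs hh)⟩
      refine ⟨image_eq_zero_of_notMem_tsupport hfx, ?_⟩
      rw [hfd]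
      have : fderiv ℝ φ (f x) = 0 := by
        by_contra hh
        exact hfx (support_fderiv_subset ℝ hh)
      rw [this]
      simp) j
    simp only [hfd] at h3
    have h4 : ∀ x : E n, ∑ i, (Df x).adjugate i j *
        ((fderiv ℝ φ (f x)).comp (ContinuousLinearMap.snd ℝ (E n) (E n))) (Pi.single i 1, 0) = 0 := by
      intro x
      refine Finset.sum_eq_zero fun i _ => ?_
      simp
    simp only [h4, integral_zero, neg_zero] at h3
    exact h3
  obtain ⟨c, hc⟩ := hconst
  refine ⟨c, ?_, ?_⟩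
  · have hne : (volume.restrict (closedBall y R)) ≠ 0 := by
      rw [Ne, Measure.restrict_eq_zero]
      exact (measure_closedBall_pos volume y hR).ne'
    have hex : ∃ x, N x = c := by
      have := hc
      have h5 : (ae (volume.restrict (closedBall y R))).NeBot := ae_neBot.2 hne
      exact this.exists
    obtain ⟨x, hx⟩ := hex
    rw [← hx]
    exact hN1 x
  · intro ψ hψm hψb hψ0
    rw [hN ψ hψm hψb, ← integral_const_mul]
    have hc' : ∀ᵐ x, x ∈ closedBall y R → N x = c := (ae_restrict_iff' isClosed_closedBall.measurableSet).1 hc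
    refine integral_congr_ae ?_
    filter_upwards [hc'] with x hx
    by_cases hxm : x ∈ closedBall y R
    · rw [hx hxm, mul_comm]
    · rw [hψ0 x hxm]; simp

theorem det_meas {Df : E n → Matrix (Fin n) (Fin n) ℝ} (h : ∀ i j, Measurable fun x => Df x i j) :
    Measurable fun x => (Df x).det := X2.im_det_meas h

theorem det_intOn (_hn : 2 ≤ n) {U : Set (E n)} {f : E n → E n}
    {Df : E n → Matrix (Fin n) (Fin n) ℝ} {K : ℝ} (H : QR U f Df K) {C : Set (E n)}
    (hC : IsCompact C) (hCU : C ⊆ U) : IntegrableOn (fun x => (Df x).det) C := by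
  refine Integrable.mono' ((H.int C hC hCU).const_mul (n.factorial : ℝ))
    (det_meas H.meas_D).aestronglyMeasurable (Eventually.of_forall fun x => ?_)
  simpa using X2.im_det_le (Df x)

/-- a proper quasiregular mapping has multiplicity at least one -/
theorem mult_pos (hn : 2 ≤ n) {U : Set (E n)} {f : E n → E n}
    {Df : E n → Matrix (Fin n) (Fin n) ℝ} {K : ℝ} (H : QR U f Df K) {y : E n} {R : ℝ} (hR : 0 < R)
    (hC : IsCompact (pre U f y R)) {x1 : E n} (hx1 : x1 ∈ U) (hfx1 : f x1 ∈ ball y R)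
    (hnc : ∀ ρ > 0, ∃ x ∈ closedBall x1 ρ, f x ≠ f x1) :
    ∃ d : ℝ, 1 ≤ d ∧ ∀ ψ : E n → ℝ, Measurable ψ → (∃ B, ∀ z, |ψ z| ≤ B) →
      (∀ z, z ∉ closedBall y R → ψ z = 0) →
      ∫ x in pre U f y R, ψ (f x) * (Df x).det = d * ∫ z, ψ z := by
  obtain ⟨d, hd, hd2⟩ := mult_const hn H hR hC
  refine ⟨d, ?_, hd2⟩
  rcases hd with hd | hd
  swap
  · exact hd
  exfalso
  subst hd
  set C := pre U f y R with hCdef
  have hCU : C ⊆ U := fun x hx => hx.1
  have hCm : MeasurableSet C := hC.measurableSet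
  have h1 := hd2 ((closedBall y R).indicator fun _ => (1 : ℝ))
    (measurable_const.indicator isClosed_closedBall.measurableSet)
    ⟨1, fun z => by
      by_cases h : z ∈ closedBall y R
      · rw [indicator_of_mem h]; simp
      · rw [indicator_of_notMem h]; simp⟩
    (fun z hz => indicator_of_notMem hz _)
  rw [zero_mul] at h1
  have h2 : ∫ x in C, (Df x).det = 0 := by
    rw [← h1]
    refine setIntegral_congr_fun hCm ?_
    intro x hx
    show _ = (closedBall y R).indicator (fun _ => (1 : ℝ)) (f x) * _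
    rw [indicator_of_mem hx.2, one_mul]
  have hpos : ∀ᵐ x ∂(volume.restrict C), 0 ≤ (Df x).det ∧ ((Df x).det = 0 → Df x = 0) :=
    ae_restrict_of_ae_restrict_of_subset hCU H.pos
  have h3 : ∀ᵐ x ∂(volume.restrict C), (Df x).det = 0 := by
    have := (setIntegral_eq_zero_iff_of_nonneg_ae (hpos.mono fun x hx => hx.1)
      (det_intOn hn H hC hCU)).1 h2
    exact this
  have h4 : ∀ᵐ x, x ∈ C → Df x = 0 := by
    rw [← ae_restrict_iff' hCm]
    filter_upwards [h3, hpos] with x hx hx'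
    exact hx'.2 hx
  -- open set
  set W : Set (E n) := U ∩ f ⁻¹' (ball y R) with hW
  have hWo : IsOpen W := H.cont.isOpen_inter_preimage H.isOpen isOpen_ball
  have hWC : W ⊆ C := fun x hx => ⟨hx.1, ball_subset_closedBall hx.2⟩
  obtain ⟨ρ, hρ, hρW⟩ := Metric.nhds_basis_closedBall.mem_iff.1 (hWo.mem_nhds (⟨hx1, hfx1⟩ : x1 ∈ W))
  obtain ⟨x, hx, hxne⟩ := hnc ρ hρ
  apply hxne
  ext i
  have hvc : ContinuousOn (fun x => f x i) W :=
    (continuous_apply i).comp_continuousOn (H.cont.mono inter_subset_left)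
  refine weak_const hWo hvc ?_ hρW x hx
  intro φ hφ hφc hφs j
  rw [H.weak φ hφ hφc (hφs.trans inter_subset_left) i j, neg_eq_zero]
  refine integral_eq_zero_of_ae ?_
  filter_upwards [h4] with z hz
  by_cases hzC : z ∈ C
  · rw [hz hzC]; simp
  · have : z ∉ tsupport φ := fun h => hzC (hWC (hφs h))
    rw [image_eq_zero_of_notMem_tsupport this]; simp

/-- two disjoint sheets: multiplicity at least two -/
theorem mult_two (hn : 2 ≤ n) {U : Set (E n)} {f : E n → E n}
    {Df : E n → Matrix (Fin n) (Fin n) ℝ} {K : ℝ} (H : QR U f Df K) {y : E n} {R : ℝ} (hR : 0 < R)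
    (hC : IsCompact (pre U f y R)) {V1 V2 : Set (E n)} (hV1 : IsOpen V1) (hV2 : IsOpen V2)
    (hV1U : V1 ⊆ U) (hV2U : V2 ⊆ U) (hdis : Disjoint V1 V2) {y1 : E n} {δ : ℝ} (hδ : 0 < δ)
    (hyδ : closedBall y1 δ ⊆ closedBall y R)
    (hC1 : IsCompact (pre V1 f y1 δ)) (hC2 : IsCompact (pre V2 f y1 δ))
    {x1 x2 : E n} (hx1 : x1 ∈ V1) (hx2 : x2 ∈ V2) (hf1 : f x1 ∈ ball y1 δ) (hf2 : f x2 ∈ ball y1 δ)
    (hnc1 : ∀ ρ > 0, ∃ x ∈ closedBall x1 ρ, f x ≠ f x1)
    (hnc2 : ∀ ρ > 0, ∃ x ∈ closedBall x2 ρ, f x ≠ f x2) :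
    ∃ d : ℝ, 2 ≤ d ∧ ∀ ψ : E n → ℝ, Measurable ψ → (∃ B, ∀ z, |ψ z| ≤ B) →
      (∀ z, z ∉ closedBall y R → ψ z = 0) →
      ∫ x in pre U f y R, ψ (f x) * (Df x).det = d * ∫ z, ψ z := by
  obtain ⟨d, _, hd⟩ := mult_const hn H hR hC
  refine ⟨d, ?_, hd⟩
  obtain ⟨d1, hd1, hd1'⟩ := mult_pos hn (QR_mono H hV1 hV1U) hδ hC1 hx1 hf1 hnc1
  obtain ⟨d2, hd2, hd2'⟩ := mult_pos hn (QR_mono H hV2 hV2U) hδ hC2 hx2 hf2 hnc2
  set χ : E n → ℝ := (closedBall y1 δ).indicator fun _ => (1 : ℝ) with hχ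
  have hχm : Measurable χ := measurable_const.indicator isClosed_closedBall.measurableSet
  have hχb : ∃ B, ∀ z, |χ z| ≤ B := ⟨1, fun z => by
      by_cases h : z ∈ closedBall y1 δ
      · rw [hχ, indicator_of_mem h]; simp
      · rw [hχ, indicator_of_notMem h]; simp⟩
  have e0 := hd χ hχm hχb (fun z hz => indicator_of_notMem (fun h => hz (hyδ h)) _)
  have e1 := hd1' χ hχm hχb (fun z hz => indicator_of_notMem hz _)
  have e2 := hd2' χ hχm hχb (fun z hz => indicator_of_notMem hz _)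
  have hv : ∫ z, χ z = (volume (closedBall y1 δ)).toReal := by
    rw [hχ, integral_indicator isClosed_closedBall.measurableSet]
    simp [Measure.real]
  have hvpos : 0 < (volume (closedBall y1 δ)).toReal := by
    refine ENNReal.toReal_pos (measure_closedBall_pos volume y1 hδ).ne' ?_
    exact (isCompact_closedBall y1 δ).measure_lt_top.ne
  set C := pre U f y R with hCdef
  set A1 := pre V1 f y1 δ
  set A2 := pre V2 f y1 δ
  have hCU : C ⊆ U := fun x hx => hx.1
  have hA1C : A1 ⊆ C := fun x hx => ⟨hV1U hx.1, hyδ hx.2⟩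
  have hA2C : A2 ⊆ C := fun x hx => ⟨hV2U hx.1, hyδ hx.2⟩
  have hdisA : Disjoint A1 A2 := by
    rw [Set.disjoint_left] at hdis ⊢
    exact fun x h1 h2 => hdis h1.1 h2.1
  have hdet : IntegrableOn (fun x => (Df x).det) C := det_intOn hn H hC hCU
  have hint : IntegrableOn (fun x => χ (f x) * (Df x).det) C := by
    refine Integrable.bdd_mul (c := 1) hdet (hχm.comp H.meas_f).aestronglyMeasurable
      (Eventually.of_forall fun x => ?_)
    show ‖χ (f x)‖ ≤ 1
    by_cases h : f x ∈ closedBall y1 δ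
    · rw [hχ, indicator_of_mem h]; simp
    · rw [hχ, indicator_of_notMem h]; simp
  have hnn : 0 ≤ᵐ[volume.restrict C] fun x => χ (f x) * (Df x).det := by
    have hpos : ∀ᵐ x ∂(volume.restrict C), 0 ≤ (Df x).det ∧ ((Df x).det = 0 → Df x = 0) :=
      ae_restrict_of_ae_restrict_of_subset hCU H.pos
    filter_upwards [hpos] with x hx
    refine mul_nonneg ?_ hx.1
    exact indicator_nonneg (fun _ _ => zero_le_one) _
  have hle : (∫ x in A1, χ (f x) * (Df x).det) + ∫ x in A2, χ (f x) * (Df x).det ≤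
      ∫ x in C, χ (f x) * (Df x).det := by
    rw [← setIntegral_union hdisA hC2.measurableSet (hint.mono_set hA1C) (hint.mono_set hA2C)]
    exact setIntegral_mono_set hint hnn (LE.le.eventuallyLE (union_subset hA1C hA2C))
  rw [e0, e1, e2, hv] at hle
  nlinarith

end Helper415.WM
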