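import Pool.Agent.Helper415_WM.Radial

/-! # One variable profiles -/

set_option autoImplicit false
open MeasureTheory Metric Set Filter Topology
open scoped ENNReal NNReal ContDiff

namespace Helper415.WM

open H248.ID H248.BH

/-- the cut-off of the logarithmic profile -/
noncomputable def om0 (ε l σ s : ℝ) : ℝ := max 0 (min 1 (min ((s - ε) / σ) ((l - s) / σ)))

theorem om0_cont (ε l σ : ℝ) : Continuous (om0 ε l σ) := by
  unfold om0; fun_prop

theorem om0_nonneg (ε l σ s : ℝ) : 0 ≤ om0 ε l σ s := le_max_left _ _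

theorem om0_le (ε l σ s : ℝ) : om0 ε l σ s ≤ 1 := max_le zero_le_one (min_le_left _ _)

theorem om0_zero_left {ε l σ s : ℝ} (hσ : 0 < σ) (hs : s ≤ ε) : om0 ε l σ s = 0 := by
  unfold om0
  apply max_eq_left
  refine (min_le_right _ _).trans ((min_le_left _ _).trans ?_)
  exact div_nonpos_of_nonpos_of_nonneg (by linarith) hσ.le

theorem om0_zero_right {ε l σ s : ℝ} (hσ : 0 < σ) (hs : l ≤ s) : om0 ε l σ s = 0 := by
  unfold om0
  apply max_eq_left
  refine (min_le_right _ _).trans ((min_le_right _ _).trans ?_)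
  exact div_nonpos_of_nonpos_of_nonneg (by linarith) hσ.le

theorem om0_one {ε l σ s : ℝ} (hσ : 0 < σ) (h1 : ε + σ ≤ s) (h2 : s ≤ l - σ) : om0 ε l σ s = 1 := by
  unfold om0
  rw [min_eq_left, max_eq_right zero_le_one]
  refine le_min ?_ ?_
  · rw [le_div_iff₀ hσ]; linarith
  · rw [le_div_iff₀ hσ]; linarith

/-- the derivative of the logarithmic profile -/
noncomputable def kp (ε l σ s : ℝ) : ℝ := om0 ε l σ s / max s ε

theorem kp_cont {ε : ℝ} (hε : 0 < ε) (l σ : ℝ) : Continuous (kp ε l σ) := by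
  unfold kp
  refine (om0_cont ε l σ).div (by fun_prop) fun s => ?_
  exact (lt_of_lt_of_le hε (le_max_right _ _)).ne'

theorem kp_nonneg {ε : ℝ} (hε : 0 < ε) (l σ s : ℝ) : 0 ≤ kp ε l σ s :=
  div_nonneg (om0_nonneg _ _ _ _) (hε.le.trans (le_max_right _ _))

theorem kp_mul_le {ε : ℝ} (hε : 0 < ε) (l σ : ℝ) {s : ℝ} (hs : 0 ≤ s) : s * kp ε l σ s ≤ 1 := by
  unfold kp
  have h1 : 0 < max s ε := lt_of_lt_of_le hε (le_max_right _ _)
  rw [mul_div_assoc', div_le_one h1]
  calc s * om0 ε l σ s ≤ s * 1 := mul_le_mul_of_nonneg_left (om0_le _ _ _ _) hs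
    _ ≤ max s ε := by rw [mul_one]; exact le_max_left _ _

theorem kp_zero_left {ε l σ s : ℝ} (hσ : 0 < σ) (hs : s ≤ ε) : kp ε l σ s = 0 := by
  unfold kp; rw [om0_zero_left hσ hs, zero_div]

theorem kp_zero_right {ε l σ s : ℝ} (hσ : 0 < σ) (hs : l ≤ s) : kp ε l σ s = 0 := by
  unfold kp; rw [om0_zero_right hσ hs, zero_div]

/-- the logarithmic profile -/
noncomputable def Wp (ε l σ r : ℝ) : ℝ := ∫ s in ε..r, kp ε l σ s

theorem Wp_deriv {ε : ℝ} (hε : 0 < ε) (l σ r : ℝ) : HasDerivAt (Wp ε l σ) (kp ε l σ r) r :=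
  intervalIntegral.integral_hasDerivAt_right ((kp_cont hε l σ).intervalIntegrable _ _)
    (kp_cont hε l σ).stronglyMeasurable.stronglyMeasurableAtFilter (kp_cont hε l σ).continuousAt

theorem Wp_contDiff {ε : ℝ} (hε : 0 < ε) (l σ : ℝ) : ContDiff ℝ 1 (Wp ε l σ) := by
  rw [contDiff_one_iff_deriv]
  refine ⟨fun r => (Wp_deriv hε l σ r).differentiableAt, ?_⟩
  have : deriv (Wp ε l σ) = kp ε l σ := by
    funext r; exact (Wp_deriv hε l σ r).deriv
  rw [this]
  exact kp_cont hε l σ

theorem Wp_left {ε l σ r : ℝ} (hσ : 0 < σ) (hr : r ≤ ε) : Wp ε l σ r = 0 := by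
  unfold Wp
  rw [intervalIntegral.integral_symm, intervalIntegral.integral_of_le hr]
  rw [setIntegral_eq_zero_of_forall_eq_zero, neg_zero]
  intro x hx
  exact kp_zero_left hσ hx.2

theorem Wp_right {ε l σ r : ℝ} (hε : 0 < ε) (hσ : 0 < σ) (hr : l ≤ r) :
    Wp ε l σ r = Wp ε l σ l := by
  have h1 : Wp ε l σ r = Wp ε l σ l + ∫ s in l..r, kp ε l σ s := by
    unfold Wp
    rw [intervalIntegral.integral_add_adjacent_intervals]
    · exact (kp_cont hε l σ).intervalIntegrable _ _
    · exact (kp_cont hε l σ).intervalIntegrable _ _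
  rw [h1, intervalIntegral.integral_of_le hr, setIntegral_eq_zero_of_forall_eq_zero, add_zero]
  intro x hx
  exact kp_zero_right hσ hx.1.le

theorem Wp_lower {ε l σ : ℝ} (hε : 0 < ε) (hσ : 0 < σ) (h : ε + σ ≤ l - σ) :
    Real.log ((l - σ) / (ε + σ)) ≤ Wp ε l σ l := by
  have hk := kp_cont hε l σ
  have h1 : ∫ s in (ε + σ)..(l - σ), kp ε l σ s = Real.log ((l - σ) / (ε + σ)) := by
    rw [← integral_one_div_of_pos (by linarith) (by linarith)]
    refine intervalIntegral.integral_congr fun s hs => ?_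
    rw [uIcc_of_le h] at hs
    show kp ε l σ s = 1 / s
    unfold kp
    rw [om0_one hσ hs.1 hs.2, max_eq_left (by linarith [hs.1])]
  rw [← h1]
  unfold Wp
  have h2 : ∫ s in ε..l, kp ε l σ s = (∫ s in ε..(ε + σ), kp ε l σ s) +
      (∫ s in (ε + σ)..(l - σ), kp ε l σ s) + ∫ s in (l - σ)..l, kp ε l σ s := by
    rw [intervalIntegral.integral_add_adjacent_intervals (hk.intervalIntegrable _ _)
      (hk.intervalIntegrable _ _), intervalIntegral.integral_add_adjacent_intervals
      (hk.intervalIntegrable _ _) (hk.intervalIntegrable _ _)]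
  rw [h2]
  have h3 : 0 ≤ ∫ s in ε..(ε + σ), kp ε l σ s :=
    intervalIntegral.integral_nonneg (by linarith) fun s _ => kp_nonneg hε l σ s
  have h4 : 0 ≤ ∫ s in (l - σ)..l, kp ε l σ s :=
    intervalIntegral.integral_nonneg (by linarith) fun s _ => kp_nonneg hε l σ s
  linarith

theorem Wp_nonneg {ε l σ : ℝ} (hε : 0 < ε) (h : ε ≤ l) : 0 ≤ Wp ε l σ l :=
  intervalIntegral.integral_nonneg h fun s _ => kp_nonneg hε l σ s

/-- the energy of the logarithmic profile -/
theorem kp_energy {ε l σ : ℝ} (hε : 0 < ε) (hσ : 0 < σ) (h : ε ≤ l) :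
    ∫ r in Ioi (0 : ℝ), r ^ (3 - 1) * (kp ε l σ r) ^ 3 ≤ Wp ε l σ l := by
  have hk := kp_cont hε l σ
  have h1 : ∀ r ∈ Ioi (0 : ℝ), r ^ (3 - 1) * (kp ε l σ r) ^ 3 ≤ kp ε l σ r := by
    intro r hr
    have hr0 : (0 : ℝ) < r := hr
    have h2 := kp_mul_le hε l σ hr0.le
    have h3 := kp_nonneg hε l σ r
    have h4 : 0 ≤ r * kp ε l σ r := mul_nonneg hr0.le h3
    have h5 : (r * kp ε l σ r) ^ 2 ≤ 1 := pow_le_one₀ h4 h2
    calc r ^ (3 - 1) * (kp ε l σ r) ^ 3 = (r * kp ε l σ r) ^ 2 * kp ε l σ r := by ring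
      _ ≤ 1 * kp ε l σ r := mul_le_mul_of_nonneg_right h5 h3
      _ = kp ε l σ r := one_mul _
  have hcs : ∀ r, r ∉ Icc ε l → kp ε l σ r = 0 := by
    intro r hr
    rcases le_or_gt r ε with h2 | h2
    · exact kp_zero_left hσ h2
    · rcases le_or_gt l r with h3 | h3
      · exact kp_zero_right hσ h3
      · exact absurd ⟨h2.le, h3.le⟩ hr
  have hcs1 : HasCompactSupport (kp ε l σ) := HasCompactSupport.intro isCompact_Icc hcs
  have hint : Integrable (kp ε l σ) := hk.integrable_of_hasCompactSupport hcs1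
  have hcs2 : HasCompactSupport fun r : ℝ => r ^ (3 - 1) * (kp ε l σ r) ^ 3 :=
    HasCompactSupport.intro isCompact_Icc (K := Icc ε l) fun r hr => by rw [hcs r hr]; simp
  have hint2 : Integrable fun r : ℝ => r ^ (3 - 1) * (kp ε l σ r) ^ 3 := by
    refine Continuous.integrable_of_hasCompactSupport ?_ hcs2
    exact (continuous_pow _).mul (hk.pow _)
  have h5 : ∫ r in Ioi (0 : ℝ), r ^ (3 - 1) * (kp ε l σ r) ^ 3 ≤ ∫ r in Ioi (0 : ℝ), kp ε l σ r :=
    setIntegral_mono_on hint2.integrableOn hint.integrableOn measurableSet_Ioi h1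
  refine h5.trans (le_of_eq ?_)
  unfold Wp
  rw [intervalIntegral.integral_of_le h]
  refine setIntegral_eq_of_subset_of_forall_sdiff_eq_zero measurableSet_Ioi
    (fun x hx => hε.trans hx.1) ?_
  intro x hx
  rcases le_or_gt x ε with h2 | h2
  · exact kp_zero_left hσ h2
  · rcases le_or_gt x l with h3 | h3
    · exact absurd ⟨h2, h3⟩ hx.2
    · exact kp_zero_right hσ h3.le

/-- the step function -/
noncomputable def et (a' a b b' r : ℝ) : ℝ :=
  Real.smoothTransition ((r - a') / (a - a')) * (1 - Real.smoothTransition ((r - b) / (b' - b)))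

theorem et_contDiff (a' a b b' : ℝ) : ContDiff ℝ 1 (et a' a b b') := by
  unfold et
  refine ContDiff.mul ?_ (contDiff_const.sub ?_)
  · exact Real.smoothTransition.contDiff.comp ((contDiff_id.sub contDiff_const).div_const _)
  · exact Real.smoothTransition.contDiff.comp ((contDiff_id.sub contDiff_const).div_const _)

theorem et_nonneg (a' a b b' r : ℝ) : 0 ≤ et a' a b b' r := by
  unfold et
  exact mul_nonneg (Real.smoothTransition.nonneg _)
    (by linarith [Real.smoothTransition.le_one ((r - b) / (b' - b))])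

theorem et_le (a' a b b' r : ℝ) : et a' a b b' r ≤ 1 := by
  unfold et
  have h1 := Real.smoothTransition.le_one ((r - a') / (a - a'))
  have h2 := Real.smoothTransition.nonneg ((r - a') / (a - a'))
  have h3 := Real.smoothTransition.nonneg ((r - b) / (b' - b))
  have h4 := Real.smoothTransition.le_one ((r - b) / (b' - b))
  nlinarith

theorem et_left {a' a : ℝ} (b b' : ℝ) {r : ℝ} (h : a' < a) (hr : r ≤ a') : et a' a b b' r = 0 := by
  unfold et
  rw [Real.smoothTransition.zero_of_nonpos, zero_mul]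
  exact div_nonpos_of_nonpos_of_nonneg (by linarith) (by linarith)

theorem et_right (a' a : ℝ) {b b' r : ℝ} (h : b < b') (hr : b' ≤ r) : et a' a b b' r = 0 := by
  unfold et
  rw [Real.smoothTransition.one_of_one_le (x := (r - b) / (b' - b)), sub_self, mul_zero]
  rw [one_le_div (by linarith)]; linarith

theorem et_mid {a' a b b' r : ℝ} (h1 : a' < a) (h2 : b < b') (h3 : a ≤ r) (h4 : r ≤ b) :
    et a' a b b' r = 1 := by
  unfold et
  rw [Real.smoothTransition.one_of_one_le, Real.smoothTransition.zero_of_nonpos, one_mul, sub_zero]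
  · exact div_nonpos_of_nonpos_of_nonneg (by linarith) (by linarith)
  · rw [one_le_div (by linarith)]; linarith

/-- the profile of the vector field -/
noncomputable def Xp (a' a b b' r : ℝ) : ℝ := et a' a b b' r / r ^ 3

theorem Xp_left {a' a : ℝ} (b b' : ℝ) {r : ℝ} (h : a' < a) (hr : r ≤ a') : Xp a' a b b' r = 0 := by
  unfold Xp; rw [et_left b b' h hr, zero_div]

theorem Xp_right (a' a : ℝ) {b b' r : ℝ} (h : b < b') (hr : b' ≤ r) : Xp a' a b b' r = 0 := by
  unfold Xp; rw [et_right a' a h hr, zero_div]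

theorem Xp_contDiff {a' a : ℝ} (b b' : ℝ) (h0 : 0 < a') (h : a' < a) :
    ContDiff ℝ 1 (Xp a' a b b') := by
  rw [contDiff_iff_contDiffAt]
  intro r
  rcases lt_or_ge r a' with hr | hr
  · have h1 : Xp a' a b b' =ᶠ[𝓝 r] fun _ => 0 := by
      filter_upwards [gt_mem_nhds hr] with s hs using Xp_left b b' h hs.le
    exact contDiffAt_const.congr_of_eventuallyEq h1
  · have hr0 : r ^ 3 ≠ 0 := (pow_pos (h0.trans_le hr) 3).ne'
    exact (et_contDiff a' a b b').contDiffAt.div (contDiffAt_id.pow 3) hr0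

theorem Xp_abs_le {a' a : ℝ} (b b' : ℝ) {r : ℝ} (_h0 : 0 < a') (_h : a' < a) (hr : 0 < r) :
    |Xp a' a b b' r| * r ≤ 1 / r ^ 2 := by
  have h1 := et_nonneg a' a b b' r
  have h2 := et_le a' a b b' r
  unfold Xp
  rw [abs_of_nonneg (div_nonneg h1 (by positivity))]
  have : et a' a b b' r / r ^ 3 * r = et a' a b b' r / r ^ 2 := by
    field_simp
  rw [this]
  exact div_le_div_of_nonneg_right h2 (by positivity)

/-- radial divergence in the middle -/
theorem Xp_mid {a' a b b' r : ℝ} (h0 : 0 < a') (h1 : a' < a) (h2 : b < b') (h3 : a < r) (h4 : r < b) :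
    r * deriv (Xp a' a b b') r + 3 * Xp a' a b b' r = 0 := by
  have hr : 0 < r := by linarith
  have e : Xp a' a b b' =ᶠ[𝓝 r] fun s => (s ^ 3)⁻¹ := by
    filter_upwards [Ioo_mem_nhds h3 h4] with s hs
    unfold Xp
    rw [et_mid h1 h2 hs.1.le hs.2.le, one_div]
  rw [e.deriv_eq, e.self_of_nhds]
  have h5 : HasDerivAt (fun s : ℝ => (s ^ 3)⁻¹) (-(3 * r ^ 2) / (r ^ 3) ^ 2) r := by
    have := (hasDerivAt_pow 3 r).fun_inv (pow_pos hr 3).ne'
    simpa using this
  rw [h5.deriv]
  field_simp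
  ring

/-- the flux through the outer region -/
theorem Xp_flux {a' a b b' : ℝ} (h0 : 0 < a') (h1 : a' < a) (hab : a ≤ b) (h2 : b < b') :
    ∫ r in Ioi (0 : ℝ), r ^ (3 - 1) * (Ici b).indicator
      (fun r => r * deriv (Xp a' a b b') r + 3 * Xp a' a b b' r) r = -1 := by
  have hb : 0 < b := by linarith
  have hX := Xp_contDiff b b' h0 h1
  have hd : ∀ r, HasDerivAt (fun r => r ^ 3 * Xp a' a b b' r)
      (r ^ 2 * (r * deriv (Xp a' a b b') r + 3 * Xp a' a b b' r)) r := by
    intro r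
    have e1 : HasDerivAt (Xp a' a b b') (deriv (Xp a' a b b') r) r :=
      (hX.differentiable (by simp) r).hasDerivAt
    have e2 := (hasDerivAt_pow 3 r).fun_mul e1
    refine e2.congr_deriv ?_
    push_cast
    ring
  have hc : Continuous fun r => r ^ 2 * (r * deriv (Xp a' a b b') r + 3 * Xp a' a b b' r) := by
    have := hX.continuous_deriv (by simp)
    have := hX.continuous
    fun_prop
  have h3 : ∫ r in b..b', r ^ 2 * (r * deriv (Xp a' a b b') r + 3 * Xp a' a b b' r) = -1 := by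
    rw [intervalIntegral.integral_eq_sub_of_hasDerivAt (fun r _ => hd r) (hc.intervalIntegrable _ _)]
    rw [Xp_right a' a h2 le_rfl]
    unfold Xp
    rw [et_mid h1 h2 hab le_rfl]
    field_simp
    ring
  rw [← h3, intervalIntegral.integral_of_le h2.le, ← integral_Icc_eq_integral_Ioc]
  have h4 : ∀ r, r ^ (3 - 1) * (Ici b).indicator
      (fun r => r * deriv (Xp a' a b b') r + 3 * Xp a' a b b' r) r =
      (Icc b b').indicator (fun r => r ^ 2 * (r * deriv (Xp a' a b b') r + 3 * Xp a' a b b' r)) r := by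
    intro r
    by_cases hr : b ≤ r
    · rw [indicator_of_mem (show r ∈ Ici b from hr)]
      rcases le_or_gt r b' with hr' | hr'
      · rw [indicator_of_mem (show r ∈ Icc b b' from ⟨hr, hr'⟩)]
      · rw [indicator_of_notMem (fun h : r ∈ Icc b b' => absurd h.2 (not_le.2 hr'))]
        have e : Xp a' a b b' =ᶠ[𝓝 r] fun _ => 0 := by
          filter_upwards [lt_mem_nhds hr'] with s hs using Xp_right a' a h2 hs.le
        rw [e.deriv_eq, e.self_of_nhds]
        simp
    · rw [indicator_of_notMem (show r ∉ Ici b from hr),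
        indicator_of_notMem (fun h : r ∈ Icc b b' => hr h.1), mul_zero]
  simp only [h4]
  rw [setIntegral_indicator measurableSet_Icc]
  congr 2
  ext r
  simp only [mem_inter_iff, mem_Ioi, mem_Icc]
  constructor
  · exact fun h => h.2
  · exact fun h => ⟨by linarith [h.1], h⟩

/-- the energy of the target profile -/
theorem g3_energy {a' b' : ℝ} (h0 : 0 < a') (h : a' ≤ b') :
    ∫ r in Ioi (0 : ℝ), r ^ (3 - 1) * (Icc a' b').indicator (fun r => (r ^ 3)⁻¹) r =
      Real.log (b' / a') := by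
  rw [← integral_one_div_of_pos h0 (h0.trans_le h), intervalIntegral.integral_of_le h,
    ← integral_Icc_eq_integral_Ioc]
  have h4 : ∀ r, r ^ (3 - 1) * (Icc a' b').indicator (fun r => (r ^ 3)⁻¹) r =
      (Icc a' b').indicator (fun r => 1 / r) r := by
    intro r
    by_cases hr : r ∈ Icc a' b'
    · rw [indicator_of_mem hr, indicator_of_mem hr]
      have : 0 < r := h0.trans_le hr.1
      field_simp
    · rw [indicator_of_notMem hr, indicator_of_notMem hr, mul_zero]
  simp only [h4]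
  rw [setIntegral_indicator measurableSet_Icc]
  congr 2
  ext r
  simp only [mem_inter_iff, mem_Ioi, mem_Icc]
  constructor
  · exact fun h => h.2
  · exact fun h => ⟨by linarith [h.1], h⟩

end Helper415.WM
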