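import Pool.Agent.Helper415_WM.Div

/-! # Radial functions and vector fields -/

set_option autoImplicit false
open MeasureTheory Metric Set Filter Topology
open scoped ENNReal NNReal ContDiff

namespace Helper415.WM

open H248.ID H248.BH

variable {n : ℕ}

theorem en_nonneg (x : E n) : 0 ≤ en x := norm_nonneg _

theorem en_sq (x : E n) : en x ^ 2 = ∑ i, x i ^ 2 := by
  unfold en
  rw [EuclideanSpace.norm_sq_eq]
  simp [toY]

theorem en_sqrt (x : E n) : en x = √(∑ i, x i ^ 2) := by
  rw [← en_sq, Real.sqrt_sq (en_nonneg x)]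

theorem en_cont : Continuous (en : E n → ℝ) :=
  (PiLp.continuous_toLp 2 _ : Continuous (toY : E n → Y n)).norm

theorem en_pos {x : E n} (h : x ≠ 0) : 0 < en x := by
  refine lt_of_le_of_ne (en_nonneg x) fun h0 => h ?_
  have h1 : en x ^ 2 = 0 := by rw [← h0]; simp
  rw [en_sq, Finset.sum_eq_zero_iff_of_nonneg (fun i _ => sq_nonneg _)] at h1
  ext i
  have := h1 i (Finset.mem_univ i)
  simpa using this

theorem en_zero : en (0 : E n) = 0 := by
  rw [en_sqrt]; simp

theorem norm_le_en (x : E n) : ‖x‖ ≤ en x := by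
  rw [pi_norm_le_iff_of_nonneg (en_nonneg x)]
  intro i
  rw [Real.norm_eq_abs]
  refine abs_le_of_sq_le_sq ?_ (en_nonneg x)
  rw [en_sq]
  exact Finset.single_le_sum (f := fun i => x i ^ 2) (fun i _ => sq_nonneg _) (Finset.mem_univ i)

theorem en_hasFDerivAt {x : E n} (h : x ≠ 0) :
    ∃ L : E n →L[ℝ] ℝ, HasFDerivAt (en : E n → ℝ) L x ∧ ∀ j, L (Pi.single j 1) = x j / en x := by
  have hp := en_pos h
  have h1 : HasFDerivAt (fun x : E n => ∑ i, x i ^ 2)
      (∑ i : Fin n, (2 * x i) • (ContinuousLinearMap.proj i : E n →L[ℝ] ℝ)) x := by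
    refine HasFDerivAt.fun_sum fun i _ => ?_
    have h2 : HasFDerivAt (fun x : E n => x i) (ContinuousLinearMap.proj i : E n →L[ℝ] ℝ) x :=
      hasFDerivAt_apply i x
    have h3 := h2.pow 2
    simpa using h3
  have hne : (∑ i, x i ^ 2) ≠ 0 := by rw [← en_sq]; positivity
  have h4 := h1.sqrt hne
  have h5 : (en : E n → ℝ) = fun x => √(∑ i, x i ^ 2) := by
    funext y; exact en_sqrt y
  refine ⟨_, by rw [h5]; exact h4, ?_⟩
  intro j
  rw [← en_sqrt]
  simp [Pi.single_apply]
  field_simp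

theorem en_contDiffAt {x : E n} (h : x ≠ 0) : ContDiffAt ℝ 1 (en : E n → ℝ) x := by
  have h5 : (en : E n → ℝ) = fun x => √(∑ i, x i ^ 2) := by
    funext y; exact en_sqrt y
  rw [h5]
  have hne : (∑ i, x i ^ 2) ≠ 0 := by rw [← en_sq]; have := en_pos h; positivity
  refine ContDiffAt.sqrt ?_ hne
  exact ContDiffAt.sum fun i _ => ((contDiff_apply ℝ ℝ i).contDiffAt).pow 2

/-- radial functions -/
noncomputable def rf (g : ℝ → ℝ) (p : E n) (x : E n) : ℝ := g (en (x - p))

theorem rf_near {g : ℝ → ℝ} {r0 : ℝ} (hr0 : 0 < r0) (hc : ∀ r ≤ r0, g r = g 0) (p : E n) :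
    rf g p =ᶠ[𝓝 p] fun _ => g 0 := by
  have h1 : Tendsto (fun x : E n => en (x - p)) (𝓝 p) (𝓝 0) := by
    have : Continuous fun x : E n => en (x - p) := en_cont.comp (continuous_id.sub continuous_const)
    have h2 := this.tendsto p
    simpa [en_zero] using h2
  filter_upwards [h1.eventually (gt_mem_nhds hr0)] with x hx
  exact hc _ hx.le

theorem rf_contDiff {g : ℝ → ℝ} (hg : ContDiff ℝ 1 g) {r0 : ℝ} (hr0 : 0 < r0)
    (hc : ∀ r ≤ r0, g r = g 0) (p : E n) : ContDiff ℝ 1 (rf g p) := by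
  rw [contDiff_iff_contDiffAt]
  intro x
  by_cases hx : x = p
  · subst hx
    exact contDiffAt_const.congr_of_eventuallyEq (rf_near hr0 hc x)
  · have h1 : x - p ≠ 0 := sub_ne_zero.2 hx
    have h0 : ContDiffAt ℝ 1 (fun x : E n => x - p) x := contDiffAt_id.sub contDiffAt_const
    have h2 : ContDiffAt ℝ 1 (fun x : E n => en (x - p)) x :=
      ContDiffAt.comp (g := (en : E n → ℝ)) x (en_contDiffAt h1) h0
    exact hg.contDiffAt.comp x h2

theorem rf_pd {g : ℝ → ℝ} (hg : ContDiff ℝ 1 g) {r0 : ℝ} (hr0 : 0 < r0)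
    (hc : ∀ r ≤ r0, g r = g 0) (p : E n) (j : Fin n) (x : E n) :
    pd (rf g p) j x = deriv g (en (x - p)) * (x j - p j) / en (x - p) := by
  by_cases hx : x = p
  · subst hx
    unfold pd
    rw [(rf_near hr0 hc x).fderiv_eq]
    simp
  · have h1 : x - p ≠ 0 := sub_ne_zero.2 hx
    obtain ⟨L, hL, hL2⟩ := en_hasFDerivAt h1
    have h2 : HasFDerivAt (fun x : E n => en (x - p)) L x :=
      HasFDerivAt.comp (g := (en : E n → ℝ)) x hL ((hasFDerivAt_id x).sub_const p)
    have h3 : HasDerivAt g (deriv g (en (x - p))) (en (x - p)) :=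
      (hg.differentiable (by simp) _).hasDerivAt
    have h4 : HasFDerivAt (rf g p) (deriv g (en (x - p)) • L) x :=
      h3.comp_hasFDerivAt x h2
    unfold pd
    rw [h4.fderiv]
    have h5 : (deriv g (en (x - p)) • L) (Pi.single j 1) = deriv g (en (x - p)) * L (Pi.single j 1) := rfl
    rw [h5, hL2, Pi.sub_apply]
    ring

/-- radial vector fields -/
noncomputable def rX (g : ℝ → ℝ) (p : E n) (x : E n) : E n := fun k => rf g p x * (x k - p k)

theorem rX_contDiff {g : ℝ → ℝ} (hg : ContDiff ℝ 1 g) {r0 : ℝ} (hr0 : 0 < r0)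
    (hc : ∀ r ≤ r0, g r = g 0) (p : E n) : ContDiff ℝ 1 (rX g p) := by
  rw [contDiff_pi]
  intro k
  exact (rf_contDiff hg hr0 hc p).mul ((contDiff_apply ℝ ℝ k).sub contDiff_const)

theorem rX_dv {g : ℝ → ℝ} (hg : ContDiff ℝ 1 g) {r0 : ℝ} (hr0 : 0 < r0)
    (hc : ∀ r ≤ r0, g r = g 0) (p : E n) (x : E n) :
    dv (rX g p) x = en (x - p) * deriv g (en (x - p)) + n * g (en (x - p)) := by
  have h1 : ∀ k, pd (fun z => rX g p z k) k x =
      deriv g (en (x - p)) / en (x - p) * (x k - p k) ^ 2 + g (en (x - p)) := by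
    intro k
    have ha : DifferentiableAt ℝ (rf g p) x :=
      ((rf_contDiff hg hr0 hc p).differentiable (by simp)) x
    have hb0 : HasFDerivAt (fun z : E n => z k - p k) (ContinuousLinearMap.proj k : E n →L[ℝ] ℝ) x := by
      have : HasFDerivAt (fun z : E n => z k) (ContinuousLinearMap.proj k : E n →L[ℝ] ℝ) x :=
        hasFDerivAt_apply k x
      exact this.sub_const _
    show pd (fun z => rf g p z * (z k - p k)) k x = _
    rw [pd_mul ha hb0.differentiableAt, rf_pd hg hr0 hc]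
    have hb1 : pd (fun z : E n => z k - p k) k x = 1 := by
      unfold pd
      rw [hb0.fderiv]
      simp
    rw [hb1]
    unfold rf
    ring
  unfold dv
  simp only [h1]
  rw [Finset.sum_add_distrib, ← Finset.mul_sum]
  have h2 : ∑ i, (x i - p i) ^ 2 = en (x - p) ^ 2 := by
    rw [en_sq]; rfl
  rw [h2]
  simp only [Finset.sum_const, Finset.card_univ, Fintype.card_fin, nsmul_eq_mul]
  by_cases h0 : en (x - p) = 0
  · rw [h0]; simp
  · field_simp

theorem en_rX (g : ℝ → ℝ) (p x : E n) : en (rX g p x) = |g (en (x - p))| * en (x - p) := by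
  have h : en (rX g p x) ^ 2 = (|g (en (x - p))| * en (x - p)) ^ 2 := by
    rw [mul_pow, sq_abs, en_sq, en_sq, Finset.mul_sum]
    refine Finset.sum_congr rfl fun i _ => ?_
    simp only [rX, rf, Pi.sub_apply]
    ring
  exact (sq_eq_sq₀ (en_nonneg _) (mul_nonneg (abs_nonneg _) (en_nonneg _))).1 h

theorem en_gd_rf {g : ℝ → ℝ} (hg : ContDiff ℝ 1 g) {r0 : ℝ} (hr0 : 0 < r0)
    (hc : ∀ r ≤ r0, g r = g 0) (p x : E n) : en (gd (rf g p) x) = |deriv g (en (x - p))| := by
  have h : en (gd (rf g p) x) ^ 2 = |deriv g (en (x - p))| ^ 2 := by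
    rw [sq_abs, en_sq]
    by_cases hx : en (x - p) = 0
    · have hz : deriv g 0 = 0 := by
        have h1 : g =ᶠ[𝓝 0] fun _ => g 0 := by
          filter_upwards [gt_mem_nhds hr0] with r hr using hc r hr.le
        rw [h1.deriv_eq]; simp
      rw [hx, hz]
      refine (Finset.sum_eq_zero fun i _ => ?_).trans (by simp)
      simp only [gd]
      rw [rf_pd hg hr0 hc, hx, hz]
      simp
    · have h2 : ∑ i, (x i - p i) ^ 2 = en (x - p) ^ 2 := by
        rw [en_sq]; rfl
      have h3 : ∀ i, gd (rf g p) x i ^ 2 = (deriv g (en (x - p)) / en (x - p)) ^ 2 * (x i - p i) ^ 2 := by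
        intro i
        simp only [gd]
        rw [rf_pd hg hr0 hc]
        ring
      simp only [h3]
      rw [← Finset.mul_sum, h2]
      field_simp
  exact (sq_eq_sq₀ (en_nonneg _) (abs_nonneg _)).1 h

/-- polar coordinates for radial functions -/
theorem polar_rf (hn : 1 ≤ n) (F : ℝ → ℝ) (p : E n) :
    ∫ x : E n, rf F p x = om n * ∫ r in Ioi (0 : ℝ), r ^ (n - 1) * F r := by
  have : Nonempty (Fin n) := ⟨⟨0, by omega⟩⟩
  have : Nontrivial (Y n) := by
    have : 0 < Module.finrank ℝ (Y n) := by simp; omega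
    exact Module.nontrivial_of_finrank_pos this
  set T : E n → Y n := fun x => toY (x - p) with hT
  have hmp : MeasurePreserving T volume volume :=
    (PiLp.volume_preserving_toLp (Fin n)).comp (measurePreserving_sub_right volume p)
  have hemb : MeasurableEmbedding T :=
    (MeasurableEquiv.toLp 2 (Fin n → ℝ)).measurableEmbedding.comp
      (MeasurableEquiv.subRight p).measurableEmbedding
  have h1 : ∫ x : E n, rf F p x = ∫ y : Y n, F ‖y‖ := by
    rw [← hmp.integral_comp hemb]
    rfl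
  rw [h1, integral_fun_norm_addHaar (volume : Measure (Y n))]
  have h3 : om n = (Module.finrank ℝ (Y n) : ℝ) * (volume : Measure (Y n)).real (ball 0 1) := by
    have := Measure.toSphere_real_apply_univ (volume : Measure (Y n))
    exact this
  have hfr : Module.finrank ℝ (Y n) = n := by simp
  rw [nsmul_eq_mul, smul_eq_mul, ← mul_assoc, ← h3, hfr]
  simp only [smul_eq_mul]

end Helper415.WM
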