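import Pool.Agent.Helper415_WM.Setup

/-! # Topology of the winding map -/

set_option autoImplicit false
open MeasureTheory Metric Set Filter Topology
open scoped ENNReal NNReal ContDiff

namespace Helper415.WM

/-- coordinates -/
noncomputable def cx (x : R3) : ℂ := ⟨x 0, x 1⟩

theorem cx_cont : Continuous cx := by
  have : cx = fun x : R3 => ((x 0 : ℝ) : ℂ) + ((x 1 : ℝ) : ℂ) * Complex.I := by
    ext x
    apply Complex.ext <;> simp [cx]
  rw [this]
  fun_prop

/-- coordinates of three space as a homeomorphism -/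
noncomputable def cyl : R3 ≃ₜ ℂ × ℝ where
  toFun x := (cx x, x 2)
  invFun p := !₂[p.1.re, p.1.im, p.2]
  left_inv x := by
    ext i
    fin_cases i <;> simp [cx]
  right_inv p := by
    obtain ⟨z, t⟩ := p
    simp [cx]
  continuous_toFun := cx_cont.prodMk (by fun_prop)
  continuous_invFun := by
    refine (PiLp.continuous_toLp 2 _).comp ?_
    refine continuous_pi fun i => ?_
    fin_cases i
    · exact Complex.continuous_re.comp continuous_fst
    · exact Complex.continuous_im.comp continuous_fst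
    · exact continuous_snd

theorem rad_eq (x : R3) : rad x = ‖cx x‖ := by
  rw [rad, Complex.norm_def, Complex.normSq_apply]
  congr 1
  show x 0 ^ 2 + x 1 ^ 2 = x 0 * x 0 + x 1 * x 1
  ring

/-- radial square root -/
noncomputable def rt (u : ℂ) : ℂ := u / ((√‖u‖ : ℝ) : ℂ)

theorem rt_norm (u : ℂ) : ‖rt u‖ = √‖u‖ := by
  rw [rt, norm_div, Complex.norm_real, Real.norm_of_nonneg (Real.sqrt_nonneg _)]
  exact Real.div_sqrt

theorem rt_cont : Continuous rt := by
  rw [continuous_iff_continuousAt]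
  intro u
  by_cases hu : u = 0
  · subst hu
    have h0 : rt 0 = 0 := by simp [rt]
    rw [ContinuousAt, h0, tendsto_zero_iff_norm_tendsto_zero]
    have h1 : (fun u => ‖rt u‖) = fun u : ℂ => √‖u‖ := by ext u; exact rt_norm u
    rw [h1]
    have h2 : Continuous fun u : ℂ => √‖u‖ := by fun_prop
    have := h2.tendsto 0
    simpa using this
  · have h1 : ((√‖u‖ : ℝ) : ℂ) ≠ 0 := by
      rw [Complex.ofReal_ne_zero]
      exact (Real.sqrt_pos.2 (norm_pos_iff.2 hu)).ne'
    have h2 : ContinuousAt (fun u : ℂ => ((√‖u‖ : ℝ) : ℂ)) u := by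
      refine Continuous.continuousAt ?_
      exact Complex.continuous_ofReal.comp (by fun_prop)
    exact continuousAt_id.div h2 h1

/-- radial square root as a homeomorphism -/
noncomputable def rtH : ℂ ≃ₜ ℂ where
  toFun := rt
  invFun v := v * ((‖v‖ : ℝ) : ℂ)
  left_inv u := by
    show rt u * ((‖rt u‖ : ℝ) : ℂ) = u
    rw [rt_norm, rt]
    by_cases hu : u = 0
    · subst hu; simp
    · have h1 : ((√‖u‖ : ℝ) : ℂ) ≠ 0 := by
        rw [Complex.ofReal_ne_zero]
        exact (Real.sqrt_pos.2 (norm_pos_iff.2 hu)).ne'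
      field_simp
  right_inv v := by
    show rt (v * ((‖v‖ : ℝ) : ℂ)) = v
    rw [rt, norm_mul, Complex.norm_real, Real.norm_of_nonneg (norm_nonneg _),
      Real.sqrt_mul_self (norm_nonneg _)]
    by_cases hv : v = 0
    · subst hv; simp
    · have h1 : ((‖v‖ : ℝ) : ℂ) ≠ 0 := by
        rw [Complex.ofReal_ne_zero]
        exact (norm_pos_iff.2 hv).ne'
      field_simp
  continuous_toFun := rt_cont
  continuous_invFun := by
    refine continuous_id.mul ?_
    exact Complex.continuous_ofReal.comp continuous_norm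

theorem cx_wind (x : R3) : cx (wind x) = rt (cx x ^ 2) := by
  have h1 : √‖cx x ^ 2‖ = rad x := by
    rw [norm_pow, Real.sqrt_sq (norm_nonneg _), rad_eq]
  rw [rt, h1]
  apply Complex.ext
  · show (x 0 ^ 2 - x 1 ^ 2) / rad x = _
    rw [Complex.div_ofReal_re]
    congr 1
    rw [sq (cx x), Complex.mul_re]
    show x 0 ^ 2 - x 1 ^ 2 = x 0 * x 0 - x 1 * x 1
    ring
  · show 2 * x 0 * x 1 / rad x = _
    rw [Complex.div_ofReal_im]
    congr 1
    rw [sq (cx x), Complex.mul_im]
    show 2 * x 0 * x 1 = x 0 * x 1 + x 1 * x 0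
    ring

theorem wind_eq (x : R3) : wind x = cyl.symm (rtH ((cx x) ^ 2), x 2) := by
  rw [← cyl.injective.eq_iff, Homeomorph.apply_symm_apply]
  show (cx (wind x), wind x 2) = (rt (cx x ^ 2), x 2)
  rw [cx_wind]
  rfl

theorem wind_cont : Continuous wind := by
  have : wind = fun x => cyl.symm (rtH ((cx x) ^ 2), x 2) := by ext x : 1; exact wind_eq x
  rw [this]
  refine cyl.symm.continuous.comp ?_
  exact (rtH.continuous.comp (cx_cont.pow 2)).prodMk (by fun_prop)

theorem isOpenMap_sq : IsOpenMap (fun z : ℂ => z ^ 2) := by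
  have hA : AnalyticOnNhd ℂ (fun z : ℂ => z ^ 2) univ := fun z _ => by fun_prop
  rcases hA.is_constant_or_isOpen isPreconnected_univ with h | h
  · exfalso
    obtain ⟨w, hw⟩ := h
    have h0 := hw 0 (mem_univ _)
    have h1 := hw 1 (mem_univ _)
    simp only [ne_eq, OfNat.ofNat_ne_zero, not_false_eq_true, zero_pow, one_pow] at h0 h1
    rw [← h0] at h1
    exact one_ne_zero h1
  · exact fun s hs => h s (subset_univ _) hs

theorem isOpenMap_wind : IsOpenMap wind := by
  have : wind = cyl.symm ∘ (Prod.map (rtH ∘ fun z : ℂ => z ^ 2) id) ∘ cyl := by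
    ext x : 1; exact wind_eq x
  rw [this]
  exact cyl.symm.isOpenMap.comp (((rtH.isOpenMap.comp isOpenMap_sq).prodMap IsOpenMap.id).comp
    cyl.isOpenMap)

theorem rad_wind (x : R3) : rad (wind x) = rad x := by
  rw [rad_eq, rad_eq, cx_wind, rt_norm, norm_pow, Real.sqrt_sq (norm_nonneg _)]

theorem rad_nonneg (x : R3) : 0 ≤ rad x := Real.sqrt_nonneg _

theorem rad_sq (x : R3) : rad x ^ 2 = x 0 ^ 2 + x 1 ^ 2 := Real.sq_sqrt (by positivity)

theorem wind_two (x : R3) : wind x 2 = x 2 := rfl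

/-- the axis -/
def axis : Set R3 := {x | rad x = 0}

theorem axis_zero {q : R3} (hq : q ∈ axis) : q 0 = 0 ∧ q 1 = 0 := by
  have h1 : rad q = 0 := hq
  have h2 := rad_sq q
  rw [h1] at h2
  constructor <;> nlinarith [sq_nonneg (q 0), sq_nonneg (q 1)]

theorem wind_axis {q : R3} (hq : q ∈ axis) : wind q = q := by
  obtain ⟨h0, h1⟩ := axis_zero hq
  ext i
  fin_cases i
  · show (q 0 ^ 2 - q 1 ^ 2) / rad q = q 0
    rw [h0, h1]; simp
  · show 2 * q 0 * q 1 / rad q = q 1
    rw [h0, h1]; simp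
  · rfl

theorem dist_wind {q : R3} (hq : q ∈ axis) (x : R3) : dist (wind x) q = dist x q := by
  obtain ⟨h0, h1⟩ := axis_zero hq
  rw [EuclideanSpace.dist_eq, EuclideanSpace.dist_eq]
  congr 1
  rw [Fin.sum_univ_three, Fin.sum_univ_three]
  simp only [Real.dist_eq, sq_abs]
  rw [wind_two, h0, h1]
  have e1 := rad_sq (wind x)
  have e2 := rad_sq x
  rw [rad_wind] at e1
  have : (wind x 0 - 0) ^ 2 + (wind x 1 - 0) ^ 2 = (x 0 - 0) ^ 2 + (x 1 - 0) ^ 2 := by
    rw [sub_zero, sub_zero, sub_zero, sub_zero, ← e1, ← e2]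
  rw [this]

theorem wind_inj {x y : R3} (h : wind x = wind y) : x 2 = y 2 ∧ (cx x = cx y ∨ cx x = - cx y) := by
  rw [wind_eq, wind_eq] at h
  have h1 := cyl.symm.injective h
  have h2 := (Prod.ext_iff.1 h1)
  refine ⟨h2.2, ?_⟩
  have h3 : cx x ^ 2 = cx y ^ 2 := rtH.injective h2.1
  exact sq_eq_sq_iff_eq_or_eq_neg.1 h3

theorem cx_ext {x y : R3} (h : cx x = cx y) (h2 : x 2 = y 2) : x = y :=
  cyl.injective (Prod.ext h h2)

theorem wind_eq_axis {x q : R3} (hq : q ∈ axis) (h : wind x = q) : x = q := by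
  have h1 : dist (wind x) q = 0 := by rw [h, dist_self]
  rw [dist_wind hq] at h1
  exact dist_eq_zero.1 h1

theorem zero_mem_axis : (0 : R3) ∈ axis := by
  show rad 0 = 0
  simp [rad]

theorem wind_compact {C : Set R3} (hC : IsCompact C) : IsCompact (wind ⁻¹' C) := by
  rw [isCompact_iff_isClosed_bounded]
  refine ⟨hC.isClosed.preimage wind_cont, ?_⟩
  obtain ⟨r, hr⟩ := hC.isBounded.subset_closedBall 0
  refine isBounded_closedBall.subset (fun x hx => ?_ : wind ⁻¹' C ⊆ closedBall 0 r)
  have := hr hx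
  rw [mem_closedBall] at this ⊢
  rwa [dist_wind zero_mem_axis] at this

/-- the half turn about the axis -/
noncomputable def flip (x : R3) : R3 := cyl.symm (- cx x, x 2)

theorem cx_flip (x : R3) : cx (flip x) = - cx x := by
  have : cyl (flip x) = (- cx x, x 2) := by rw [flip, Homeomorph.apply_symm_apply]
  exact (Prod.ext_iff.1 this).1

theorem flip_two (x : R3) : flip x 2 = x 2 := by
  have : cyl (flip x) = (- cx x, x 2) := by rw [flip, Homeomorph.apply_symm_apply]
  exact (Prod.ext_iff.1 this).2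

theorem wind_flip (x : R3) : wind (flip x) = wind x := by
  rw [wind_eq, wind_eq, cx_flip, flip_two, neg_sq]

/-- injectivity away from the axis -/
theorem wind_injOn {y : R3} (hy : y ∉ axis) :
    ∃ V : Set R3, IsOpen V ∧ y ∈ V ∧ InjOn wind V := by
  refine ⟨{x | 0 < x 0 * y 0 + x 1 * y 1}, ?_, ?_, ?_⟩
  · exact isOpen_lt continuous_const (by fun_prop)
  · show 0 < y 0 * y 0 + y 1 * y 1
    have h1 : rad y ≠ 0 := hy
    have h2 := rad_sq y
    have h3 : 0 < rad y ^ 2 := by positivity
    nlinarith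
  · intro x hx x' hx' h
    obtain ⟨h2, h3⟩ := wind_inj h
    rcases h3 with h3 | h3
    · exact cx_ext h3 h2
    · exfalso
      have e0 : x 0 = - x' 0 := by
        have := congrArg Complex.re h3
        simpa [cx] using this
      have e1 : x 1 = - x' 1 := by
        have := congrArg Complex.im h3
        simpa [cx] using this
      have a1 : 0 < x 0 * y 0 + x 1 * y 1 := hx
      have a2 : 0 < x' 0 * y 0 + x' 1 * y 1 := hx'
      rw [e0, e1] at a1
      linarith

end Helper415.WM
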